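import Pool.Agent.SYS.LA.Reg
import Pool.Agent.SYS.XP.Comp

/-!
# SYS-LA-ArS: sets of faces with a short boundary are small or have a small complement, with high probability

`ar0`: regions with connected hidden part; `ar1`: cuts of the surface into two connected sets of faces; `ar2`: connected sets of
faces.
-/

namespace SYS

open Classical SST Filter

/-- Regions and sets of faces with at most `L` boundary darts have size at most `A`, or their complement is small. -/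
structure ArS {n : ℕ} (T : Tri (Fin (6 * n))) (L A : ℝ) : Prop where
  ar0 : ∀ S : Part (Fin (6 * n)), S.Le T → S.Con → S.HConn T → (S.B.ncard : ℝ) ≤ L →
    (S.R.ncard : ℝ) ≤ A ∨ (S.Rᶜ.ncard : ℝ) ≤ A
  ar1 : ∀ Y : Set (Fin (6 * n)), XP.Cut2 T Y → ((XP.bdy T Y).ncard : ℝ) ≤ L → (Y.ncard : ℝ) ≤ A ∨ (Yᶜ.ncard : ℝ) ≤ A
  ar2 : ∀ Y : Set (Fin (6 * n)), XP.Fs T Y → XP.DC T Y → ((XP.bdy T Y).ncard : ℝ) ≤ L →
    (Y.ncard : ℝ) ≤ A ∨ (Yᶜ.ncard : ℝ) ≤ L * A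

theorem ars_of {n : ℕ} {T : Tri (Fin (6 * n))} (hT : T.Conn) {L A : ℝ} (hA : 0 ≤ A)
    (h : ∀ S : Part (Fin (6 * n)), S.Le T → S.Con → S.HConn T → (S.B.ncard : ℝ) ≤ L →
      ¬ (A ≤ S.R.ncard ∧ (S.R.ncard : ℝ) + A ≤ 6 * n)) : ArS T L A := by
  have hcc : ∀ Y : Set (Fin (6 * n)), (Y.ncard : ℝ) + (Yᶜ.ncard : ℝ) = 6 * n := by
    intro Y
    have h1 := Set.ncard_add_ncard_compl Y
    rw [Nat.card_fin] at h1
    exact_mod_cast h1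
  have h0 : ∀ S : Part (Fin (6 * n)), S.Le T → S.Con → S.HConn T → (S.B.ncard : ℝ) ≤ L →
      (S.R.ncard : ℝ) ≤ A ∨ (S.Rᶜ.ncard : ℝ) ≤ A := by
    intro S h1 h2 h3 h4
    by_contra hcon
    rw [not_or, not_le, not_le] at hcon
    refine h S h1 h2 h3 h4 ⟨hcon.1.le, ?_⟩
    have := hcc S.R
    linarith [hcon.2]
  have h1 : ∀ Y : Set (Fin (6 * n)), XP.Cut2 T Y → ((XP.bdy T Y).ncard : ℝ) ≤ L →
      (Y.ncard : ℝ) ≤ A ∨ (Yᶜ.ncard : ℝ) ≤ A := by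
    intro Y hY hb
    have := h0 (XP.cut T Y hY.fs) (XP.cut_le T Y hY.fs) (XP.cut_con hY) (XP.cut_hconn hY)
      (by rw [XP.cut_B]; exact hb)
    rwa [XP.cut_R] at this
  refine ⟨h0, h1, ?_⟩
  intro Y hf hc hb
  rcases Y.eq_empty_or_nonempty with rfl | hne
  · left
    simpa using hA
  obtain ⟨𝓩, hz1, hz2, hz3⟩ := XP.comps hT hf hc hne
  by_cases hbig : ∃ Z ∈ 𝓩, (Zᶜ.ncard : ℝ) ≤ A
  · obtain ⟨Z, hZ, hZA⟩ := hbig
    left
    have h2 : Y ⊆ Zᶜ := by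
      intro d hd hdz
      exact (hz1 Z hZ).2.1 hdz hd
    have h3 : (Y.ncard : ℝ) ≤ (Zᶜ.ncard : ℝ) := by exact_mod_cast Set.ncard_le_ncard h2 (Set.toFinite _)
    exact h3.trans hZA
  · right
    have hsm : ∀ Z ∈ 𝓩, (Z.ncard : ℝ) ≤ A * (XP.bdy T Z).ncard := by
      intro Z hZ
      have h2 : ((XP.bdy T Z).ncard : ℝ) ≤ L := by
        have h3 : (XP.bdy T Z).ncard ≤ (XP.bdy T Y).ncard := by
          rw [← hz3]
          exact Finset.single_le_sum (f := fun Z => (XP.bdy T Z).ncard) (fun _ _ => Nat.zero_le _) hZ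
        exact (by exact_mod_cast h3 : ((XP.bdy T Z).ncard : ℝ) ≤ ((XP.bdy T Y).ncard : ℝ)).trans hb
      have h3 : (Z.ncard : ℝ) ≤ A := by
        rcases h1 Z (hz1 Z hZ).1 h2 with h4 | h4
        · exact h4
        · exact absurd ⟨Z, hZ, h4⟩ hbig
      have h4 : 1 ≤ (XP.bdy T Z).ncard := (Set.ncard_pos (Set.toFinite _)).2 (XP.bdy_ne hT (hz1 Z hZ).1)
      have h5 : (1 : ℝ) ≤ ((XP.bdy T Z).ncard : ℝ) := by exact_mod_cast h4
      nlinarith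
    have h6 : (Yᶜ.ncard : ℝ) = ∑ Z ∈ 𝓩, (Z.ncard : ℝ) := by
      rw [← hz2]
      push_cast
      rfl
    have h7 : ∑ Z ∈ 𝓩, A * ((XP.bdy T Z).ncard : ℝ) = A * ((XP.bdy T Y).ncard : ℝ) := by
      rw [← hz3, ← Finset.mul_sum]
      push_cast
      rfl
    rw [h6]
    refine (Finset.sum_le_sum hsm).trans ?_
    rw [h7, mul_comm]
    exact mul_le_mul_of_nonneg_right hb hA

theorem ar_star {θ x : ℝ} (h : Num.Par θ x) (C : ℝ) (hC : 0 < C) : ∃ C1 : ℝ, 0 < C1 ∧ ∀ᶠ q in RB.Fth θ,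
    (q.1 : ℝ) * (({T : Tri (Fin (6 * q.1)) | T ∈ Trn q.1 q.2 ∧
      ¬ ArS T (C * Real.log q.1) (C1 * Real.log q.1)}.ncard : ℕ) : ℝ) ≤ (Trn q.1 q.2).ncard := by
  obtain ⟨C1, hC1, hev⟩ := reg h C hC
  refine ⟨C1, hC1, hev.mono fun q hq => ?_⟩
  refine le_trans (mul_le_mul_of_nonneg_left ?_ (Nat.cast_nonneg _)) hq
  have h1 : {T : Tri (Fin (6 * q.1)) | T ∈ Trn q.1 q.2 ∧
      ¬ ArS T (C * Real.log q.1) (C1 * Real.log q.1)} ⊆
      {T : Tri (Fin (6 * q.1)) | T ∈ Trn q.1 q.2 ∧ ∃ S : Part (Fin (6 * q.1)), S.Le T ∧ S.Con ∧ S.HConn T ∧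
      (S.B.ncard : ℝ) ≤ C * Real.log q.1 ∧ C1 * Real.log q.1 ≤ S.R.ncard ∧
      (S.R.ncard : ℝ) + C1 * Real.log q.1 ≤ 6 * q.1} := by
    rintro T ⟨hT, hA⟩
    refine ⟨hT, ?_⟩
    by_contra hcon
    apply hA
    refine ars_of hT.1 (mul_nonneg hC1.le (Real.log_natCast_nonneg _)) ?_
    intro S h2 h3 h4 h5 h6
    exact hcon ⟨S, h2, h3, h4, h5, h6.1, h6.2⟩
  exact_mod_cast Set.ncard_le_ncard h1 (Set.toFinite _)

end SYS
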