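import Pool.Agent.SYS.Lib.Cyl
import Pool.Agent.SYS.Lib.Alt
import Pool.Agent.SYS.BD.MgT

/-!
# SYS-LA-GoodC: number of pairs (triangulation, dart) such that the run from the face of the dart passes through a word of a given set

PROOF. `all_card`: `{q | q.1 ∈ Trn n g}` is the product of `Trn n g` and the darts: `6 n * (Trn n g).ncard`; `Num.muG_three` with `Q = 0`, `F = 2 n - 1`, `Num.muG_nu`, definition of `nu` (`n ≥ 1`).
`good_card`: for fixed `w ∈ A` the set of the pairs with this `w` is the set of `src_eq` (with `S = emp`, `typ_emp`, `F + 1 = 2 n`, `Z T S₀ y := ∃ S' x', Rch ρ [] S₀ y w S' x' ∧ S'.Le T ∧ S'.HConn T`; `emp.HConn T` holds for `T.Conn`: `emp.X = univ`, the set of the `e` with `emp.Hc T d e` is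
closed under `T.a`, `T.f`; `emp.Ext g = Trn n g` by `emp_le`; `S₀.Le T` follows from `S'.Le T` by `rch_sub`, `sub_le`). The hypothesis of `src_eq`: `typ_newTri` (`S₀.Typ [t0] [3] (2 n - 1) 0`), `cyl_eq` with `Z = True` and `typ_card` for `S'` (`rch_typ`; `h + 0 = g`; `(3 F')! = (3 (2 n - 1 - wvol w))!`; the
multiset of the list `[wend 3 w]` is `wend 3 w ::ₘ 0`). In `src_eq` one needs the set with `S₀.HConn T`: it follows from `S'.HConn T` by `rch_hconn`.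
The sets for different `w` are disjoint: for given `T`, `t` the region `S₀` is unique (`t1 = T.f t`, `t2 = T.f t1` by `Le`), and two words of the same run are comparable (`rch_cmp` with `κ = 0 < g`), hence equal (`PF A`). So `ncard` of the union over `w ∈ A` is the sum.
-/

namespace SYS
namespace Part

open Classical SST

/-- The run (rule `ρ`) from the face of `t` passes through a word of `A`. -/
def Good {n : ℕ} (ρ : List Stp → ℕ) (A : Finset (List Stp)) (T : Tri (Fin (6 * n))) (t : Fin (6 * n)) : Prop :=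
  ∃ w ∈ A, ∃ (t1 t2 : Fin (6 * n)) (h0 : t ∉ (emp : Part (Fin (6 * n))).R) (h1 : t1 ∉ (emp : Part (Fin (6 * n))).R)
    (h2 : t2 ∉ (emp : Part (Fin (6 * n))).R) (h01 : t ≠ t1) (h12 : t1 ≠ t2) (h20 : t2 ≠ t) (S' : Part (Fin (6 * n)))
    (x' : Fin (6 * n)), Rch ρ [] ((emp : Part (Fin (6 * n))).newTri t t1 t2 h0 h1 h2 h01 h12 h20) t w S' x' ∧
      S'.Le T ∧ S'.HConn T

private theorem gc_emp_hconn {D : Type} [Finite D] {T : Tri D} (hT : T.Conn) : (emp : Part D).HConn T := by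
  have hR : ∀ x : D, x ∉ (emp : Part D).R := fun x hx => hx rfl
  intro d _ e _
  have h := hT {e | (emp : Part D).Hc T d e} ⟨d, hc_refl _ _ d⟩ (fun x hx => ⟨?_, ?_⟩)
  · have h1 : e ∈ {e | (emp : Part D).Hc T d e} := by
      rw [h]
      exact Set.mem_univ e
    exact h1
  · exact hc_trans hx (Relation.EqvGen.rel _ _ ⟨Or.inl (hR x), Or.inl rfl⟩)
  · exact hc_trans hx (Relation.EqvGen.rel _ _ ⟨Or.inl (hR x), Or.inr (Or.inl ⟨hR x, rfl⟩)⟩)

private theorem gc_le_f {D : Type} {S : Part D} {t0 t1 t2 : D} (h0 : t0 ∉ S.R) (h1 : t1 ∉ S.R)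
    (h2 : t2 ∉ S.R) (h01 : t0 ≠ t1) (h12 : t1 ≠ t2) (h20 : t2 ≠ t0) {T : Tri D}
    (h : (S.newTri t0 t1 t2 h0 h1 h2 h01 h12 h20).Le T) : T.f t0 = t1 ∧ T.f t1 = t2 := by
  have c0 : cyc3 t0 t1 t2 t0 = t1 := by
    unfold cyc3
    rw [Equiv.Perm.mul_apply, Equiv.swap_apply_of_ne_of_ne h01 h20.symm, Equiv.swap_apply_left]
  have c1 : cyc3 t0 t1 t2 t1 = t2 := by
    unfold cyc3
    rw [Equiv.Perm.mul_apply, Equiv.swap_apply_left, Equiv.swap_apply_of_ne_of_ne h20 h12.symm]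
  have f0 : (S.newTri t0 t1 t2 h0 h1 h2 h01 h12 h20).f t0 = t1 := by
    show S.f (cyc3 t0 t1 t2 t0) = t1
    rw [c0]
    exact not_not.1 h1
  have f1 : (S.newTri t0 t1 t2 h0 h1 h2 h01 h12 h20).f t1 = t2 := by
    show S.f (cyc3 t0 t1 t2 t1) = t2
    rw [c1]
    exact not_not.1 h2
  constructor
  · rw [h.1 t0 (by rw [f0]; exact h01.symm), f0]
  · rw [h.1 t1 (by rw [f1]; exact h12.symm), f1]

private theorem gc_union {α ι : Type} [Finite α] [DecidableEq ι] (A : Finset ι) (B : ι → Set α)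
    (hd : ∀ u ∈ A, ∀ w ∈ A, ∀ q, q ∈ B u → q ∈ B w → u = w) :
    {q | ∃ w ∈ A, q ∈ B w}.ncard = ∑ w ∈ A, (B w).ncard := by
  induction A using Finset.induction_on with
  | empty =>
    have : {q : α | ∃ w ∈ (∅ : Finset ι), q ∈ B w} = ∅ := by
      ext q
      constructor
      · rintro ⟨w, hw, _⟩
        exact absurd hw (Finset.notMem_empty w)
      · intro h
        exact absurd h (Set.notMem_empty q)
    rw [this, Set.ncard_empty, Finset.sum_empty]
  | insert a A ha ih =>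
    have h1 : {q : α | ∃ w ∈ insert a A, q ∈ B w} = B a ∪ {q | ∃ w ∈ A, q ∈ B w} := by
      ext q
      constructor
      · rintro ⟨w, hw, hq⟩
        rcases Finset.mem_insert.1 hw with rfl | hw
        · exact Or.inl hq
        · exact Or.inr ⟨w, hw, hq⟩
      · rintro (hq | ⟨w, hw, hq⟩)
        · exact ⟨a, Finset.mem_insert_self a A, hq⟩
        · exact ⟨w, Finset.mem_insert_of_mem hw, hq⟩
    have h2 : Disjoint (B a) {q | ∃ w ∈ A, q ∈ B w} := by
      rw [Set.disjoint_left]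
      rintro q hq ⟨w, hw, hq'⟩
      have h3 := hd a (Finset.mem_insert_self a A) w (Finset.mem_insert_of_mem hw) q hq hq'
      rw [h3] at ha
      exact ha hw
    rw [h1, Set.ncard_union_eq h2, Finset.sum_insert ha, ih fun u hu w hw => hd u
      (Finset.mem_insert_of_mem hu) w (Finset.mem_insert_of_mem hw)]

/-- the pairs whose run passes through `w` -/
private def GW {n : ℕ} (g : ℕ) (ρ : List Stp → ℕ) (w : List Stp) : Set (Tri (Fin (6 * n)) × Fin (6 * n)) :=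
  {q | q.1 ∈ Trn n g ∧ ∃ (t1 t2 : Fin (6 * n)) (h0 : q.2 ∉ (emp : Part (Fin (6 * n))).R)
    (h1 : t1 ∉ (emp : Part (Fin (6 * n))).R) (h2 : t2 ∉ (emp : Part (Fin (6 * n))).R) (h01 : q.2 ≠ t1) (h12 : t1 ≠ t2)
    (h20 : t2 ≠ q.2) (S' : Part (Fin (6 * n))) (x' : Fin (6 * n)),
    Rch ρ [] ((emp : Part (Fin (6 * n))).newTri q.2 t1 t2 h0 h1 h2 h01 h12 h20) q.2 w S' x' ∧
      S'.Le q.1 ∧ S'.HConn q.1}

private theorem gc_typ0 {n : ℕ} (hn : 1 ≤ n) : (emp : Part (Fin (6 * n))).Typ [] [] (2 * n - 1 + 1) 0 := by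
  rw [Nat.sub_add_cancel (by omega : 1 ≤ 2 * n)]
  exact typ_emp hn

private theorem gc_ext {n g : ℕ} {T : Tri (Fin (6 * n))} : T ∈ (emp : Part (Fin (6 * n))).Ext g ↔ T ∈ Trn n g :=
  ⟨fun h => h.1, fun h => ⟨h, emp_le T⟩⟩

private theorem gc_card {n g : ℕ} (hn : 1 ≤ n) (ρ : List Stp → ℕ) {w : List Stp} (hw : WOk 3 w)
    (hv : wvol w ≤ 2 * n - 1) :
    (((GW (n := n) g ρ w).ncard : ℕ) : ℝ) = ((6 * n).factorial : ℝ) *
      (wwt 1 Num.W w * Num.muG (wend 3 w ::ₘ 0) (2 * n - 1 - wvol w) g) := by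
  have h := src_eq (g := g) (gc_typ0 hn)
    (fun T S₀ y => ∃ S' x', Rch ρ [] S₀ y w S' x' ∧ S'.Le T ∧ S'.HConn T)
    (c := wwt 1 Num.W w * Num.muG (wend 3 w ::ₘ 0) (2 * n - 1 - wvol w) g) ?_
  · have h6 : 3 * (2 * n - 1 + 1) = 6 * n := by omega
    rw [h6] at h
    rw [← h]
    congr 2
    ext q
    constructor
    · rintro ⟨hq, t1, t2, h0, h1, h2, h01, h12, h20, S', x', hr, hL, hc⟩
      exact ⟨gc_ext.2 hq, gc_emp_hconn hq.1, _, sub_le (rch_sub hr) hL, ⟨S', x', hr, hL, hc⟩,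
        t1, t2, h0, h1, h2, h01, h12, h20, rfl⟩
    · rintro ⟨hq, _, S₀, _, ⟨S', x', hr, hL, hc⟩, t1, t2, h0, h1, h2, h01, h12, h20, rfl⟩
      exact ⟨gc_ext.1 hq, t1, t2, h0, h1, h2, h01, h12, h20, S', x', hr, hL, hc⟩
  · intro t0 t1 t2 h0 h1 h2 h01 h12 h20
    have hS := typ_newTri (gc_typ0 hn) h0 h1 h2 h01 h12 h20
    have h3 := cyl_eq (g := g) (ρ := ρ) (h := []) hS hw hv (fun _ _ _ => True)
      (c := Num.muG (wend 3 w ::ₘ 0) (2 * n - 1 - wvol w) g) ?_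
    · rw [← mul_assoc, ← h3]
      congr 2
      ext T
      constructor
      · rintro ⟨hT, _, S', x', hr, hL, hc⟩
        exact ⟨hT, S', x', hr, hL, hc, trivial⟩
      · rintro ⟨hT, S', x', hr, hL, hc, _⟩
        exact ⟨hT, rch_hconn hr hL hc, S', x', hr, hL, hc⟩
    · intro S' x' hr
      obtain ⟨_, F', hF, hT⟩ := rch_typ hS hr
      have h4 := typ_card (h := g) hT
      have h5 : F' = 2 * n - 1 - wvol w := by omega
      rw [h5] at h4
      have h7 : {T | T ∈ S'.Ext g ∧ S'.HConn T ∧ True} = {T | T ∈ S'.Ext (g + 0) ∧ S'.HConn T} := by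
        ext T
        constructor
        · rintro ⟨a, b, _⟩
          exact ⟨a, b⟩
        · rintro ⟨a, b⟩
          exact ⟨a, b, trivial⟩
      rw [h7, h4]
      rfl

private theorem gc_disj {n g : ℕ} (hn : 1 ≤ n) (hg : 1 ≤ g) (ρ : List Stp → ℕ) {u w : List Stp}
    {q : Tri (Fin (6 * n)) × Fin (6 * n)} (h : q ∈ GW g ρ u) (h' : q ∈ GW g ρ w) : u <+: w ∨ w <+: u := by
  obtain ⟨hq, t1, t2, h0, h1, h2, h01, h12, h20, S', x', hr, hL, hc⟩ := h
  obtain ⟨_, t1', t2', h0', h1', h2', h01', h12', h20', S'', x'', hr', hL', hc'⟩ := h'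
  have hS := typ_newTri (gc_typ0 hn) h0 h1 h2 h01 h12 h20
  have k := sub_le (rch_sub hr) hL
  have k' := sub_le (rch_sub hr') hL'
  obtain ⟨e1, e2⟩ := gc_le_f h0 h1 h2 h01 h12 h20 k
  obtain ⟨e1', e2'⟩ := gc_le_f h0' h1' h2' h01' h12' h20' k'
  have a1 : t1 = t1' := e1.symm.trans e1'
  subst a1
  have a2 : t2 = t2' := e2.symm.trans e2'
  subst a2
  exact rch_cmp (g := g) hS ⟨hq, k⟩ (Or.inl (by omega)) hr hr' hL hL' hc hc'

theorem all_card {n g : ℕ} (hn : 1 ≤ n) :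
    (({q : Tri (Fin (6 * n)) × Fin (6 * n) | q.1 ∈ Trn n g}.ncard : ℕ) : ℝ) =
      ((6 * n).factorial : ℝ) * Num.muG (3 ::ₘ 0) (2 * n - 1) g := by
  have h1 : {q : Tri (Fin (6 * n)) × Fin (6 * n) | q.1 ∈ Trn n g} = Trn n g ×ˢ Set.univ := by
    ext q
    constructor
    · intro h
      exact ⟨h, Set.mem_univ _⟩
    · intro h
      exact h.1
  have h2 : 2 * n - 1 + 1 = 2 * n := by omega
  have h3 : ((2 * n - 1 : ℕ) : ℝ) + 1 = 2 * n := by
    rw [← Nat.cast_add_one, h2]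
    push_cast
    ring
  have h4 : ((6 * n).factorial : ℝ) ≠ 0 := by positivity
  rw [h1, Set.ncard_prod, Set.ncard_univ, Nat.card_eq_fintype_card, Fintype.card_fin, Num.muG_three, h2,
    Num.muG_nu n g hn, h3, SST.nu]
  push_cast
  field_simp
  ring

theorem good_card {n g : ℕ} (hn : 1 ≤ n) (hg : 1 ≤ g) (ρ : List Stp → ℕ) (A : Finset (List Stp)) (hA : PF A)
    (hok : ∀ w ∈ A, WOk 3 w ∧ wvol w ≤ 2 * n - 1) :
    (({q : Tri (Fin (6 * n)) × Fin (6 * n) | q.1 ∈ Trn n g ∧ Good ρ A q.1 q.2}.ncard : ℕ) : ℝ) =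
      ((6 * n).factorial : ℝ) *
        ∑ w ∈ A, wwt 1 Num.W w * Num.muG (wend 3 w ::ₘ 0) (2 * n - 1 - wvol w) g := by
  have h1 : {q : Tri (Fin (6 * n)) × Fin (6 * n) | q.1 ∈ Trn n g ∧ Good ρ A q.1 q.2} =
      {q | ∃ w ∈ A, q ∈ GW (n := n) g ρ w} := by
    ext q
    constructor
    · rintro ⟨hq, w, hw, h⟩
      exact ⟨w, hw, hq, h⟩
    · rintro ⟨w, hw, hq, h⟩
      exact ⟨hq, w, hw, h⟩
  rw [h1, gc_union A (fun w => GW (n := n) g ρ w) ?_, Nat.cast_sum, Finset.mul_sum]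
  · exact Finset.sum_congr rfl fun w hw => gc_card hn ρ (hok w hw).1 (hok w hw).2
  · intro u hu w hw q hq hq'
    rcases gc_disj hn hg ρ hq hq' with h | h
    · exact hA u hu w hw h
    · exact (hA w hw u hu h).symm

end Part
end SYS
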