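import Pool.Agent.SYS.LA.Defi
import Pool.Agent.SYS.LA.GoodC
import Pool.Agent.SYS.UT.Run

/-!
# SYS-LA-Badv: the number of darts whose tail carries a short essential closed walk has bounded expectation

PROOF. Let `r = L / 2 + 2` (natural division), so `L ≤ 2 * (r - 1)`, `1 ≤ r`; `A = WdL r (2 n - 1)`. `defi h r`: `C`. A pair `(T, t)` of the set is not `Good (lrule 3) A T t` (`LRNul`). So the set is contained in `{q | q.1 ∈ Trn} \ {q | q.1 ∈ Trn ∧ Good ..}`, its size is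
(`all_card`, `good_card` with `WdL_pf`, `mem_WdL`) `(6 n)! * (muG (3 ::ₘ 0) (2 n - 1) g - ∑_{w ∈ A} ..) ≤ (6 n)! * (C / n) * muG (3 ::ₘ 0) (2 n - 1) g = (C / n) * (number of all pairs) = (C / n) * 6 n * (Trn n g).ncard = 6 C (Trn n g).ncard` (`{q | q.1 ∈ Trn n g}` is the product with the set of the
`6 n` darts, `Set.ncard_prod`). Eventually `1 ≤ n`, `1 ≤ g` (`θ > 0`).
-/

namespace SYS

open Classical SST Filter

/-- In the good case short closed walks are null-homotopic (block LR). -/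
def LRNul : Prop := ∀ (n g r : ℕ) (T : Tri (Fin (6 * n))) (t : Fin (6 * n)), T ∈ Trn n g → 1 ≤ g → 1 ≤ r →
  Part.Good (lrule 3) (Num.WdL r (2 * n - 1)) T t → ∀ c : List (Fin (6 * n)), T.IsWalk (T.tl t) c (T.tl t) →
    c.length ≤ 2 * (r - 1) → T.NullHtp c

theorem badv {θ x : ℝ} (h : Num.Par θ x) (hLR : LRNul) (L : ℕ) : ∃ C : ℝ, 0 < C ∧ ∀ᶠ q in RB.Fth θ,
    (({z : Tri (Fin (6 * q.1)) × Fin (6 * q.1) | z.1 ∈ Trn q.1 q.2 ∧ ∃ c : List (Fin (6 * q.1)),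
      z.1.IsWalk (z.1.tl z.2) c (z.1.tl z.2) ∧ c.length ≤ L ∧ ¬ z.1.NullHtp c}.ncard : ℕ) : ℝ) ≤
      C * (Trn q.1 q.2).ncard := by
  obtain ⟨C, hC, hev⟩ := Num.defi h (L / 2 + 2) (by omega)
  have hev' : ∀ᶠ q in RB.Fth θ, (q.1 : ℝ) * (Num.muG (3 ::ₘ 0) (2 * q.1 - 1) q.2 -
      ∑ w ∈ Num.WdL (L / 2 + 2) (2 * q.1 - 1), wwt 1 Num.W w *
        Num.muG (wend 3 w ::ₘ 0) (2 * q.1 - 1 - wvol w) q.2) ≤
      C * Num.muG (3 ::ₘ 0) (2 * q.1 - 1) q.2 := hev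
  have hn1 : ∀ᶠ q in RB.Fth θ, 1 ≤ q.1 :=
    ((eventually_ge_atTop 1).comap (Prod.fst : ℕ × ℕ → ℕ)).filter_mono inf_le_left
  have hg1 : ∀ᶠ q in RB.Fth θ, 1 ≤ q.2 := by
    have h1 : ∀ᶠ q in RB.Fth θ, 0 < (q.2 : ℝ) / q.1 :=
      ((lt_mem_nhds h.1).comap (fun p : ℕ × ℕ => (p.2 : ℝ) / p.1)).filter_mono inf_le_right
    filter_upwards [h1] with q hq
    rw [Nat.one_le_iff_ne_zero]
    intro h0
    rw [h0, Nat.cast_zero, zero_div] at hq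
    exact lt_irrefl _ hq
  refine ⟨6 * C, by positivity, ?_⟩
  filter_upwards [hev', hn1, hg1] with q hq hn hg
  obtain ⟨n, g⟩ := q
  dsimp only at hq hn hg ⊢
  have hA := Part.all_card (n := n) (g := g) hn
  have hG := Part.good_card hn hg (lrule 3) (Num.WdL (L / 2 + 2) (2 * n - 1))
    (Num.WdL_pf _ _) (fun w hw => ⟨(Num.mem_WdL.1 hw).1, (Num.mem_WdL.1 hw).2.1⟩)
  have hsubG : {q : Tri (Fin (6 * n)) × Fin (6 * n) | q.1 ∈ Trn n g ∧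
      Part.Good (lrule 3) (Num.WdL (L / 2 + 2) (2 * n - 1)) q.1 q.2} ⊆
      {q : Tri (Fin (6 * n)) × Fin (6 * n) | q.1 ∈ Trn n g} := fun q hq => hq.1
  have hsub : {z : Tri (Fin (6 * n)) × Fin (6 * n) | z.1 ∈ Trn n g ∧ ∃ c : List (Fin (6 * n)),
      z.1.IsWalk (z.1.tl z.2) c (z.1.tl z.2) ∧ c.length ≤ L ∧ ¬ z.1.NullHtp c} ⊆
      {q : Tri (Fin (6 * n)) × Fin (6 * n) | q.1 ∈ Trn n g} \
      {q : Tri (Fin (6 * n)) × Fin (6 * n) | q.1 ∈ Trn n g ∧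
      Part.Good (lrule 3) (Num.WdL (L / 2 + 2) (2 * n - 1)) q.1 q.2} := by
    rintro z ⟨hz, c, hc, hcL, hcn⟩
    refine ⟨hz, fun hgood => hcn ?_⟩
    exact hLR n g (L / 2 + 2) z.1 z.2 hz hg (by omega) hgood.2 c hc (by omega)
  have hle := Set.ncard_le_ncard hsub (Set.toFinite _)
  have hdiff := Set.ncard_sdiff_add_ncard_of_subset hsubG (Set.toFinite _)
  have hall : {q : Tri (Fin (6 * n)) × Fin (6 * n) | q.1 ∈ Trn n g}.ncard =
      (Trn n g).ncard * (6 * n) := by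
    have h1 : {q : Tri (Fin (6 * n)) × Fin (6 * n) | q.1 ∈ Trn n g} = Trn n g ×ˢ Set.univ := by
      ext q
      simp
    rw [h1, Set.ncard_prod, Set.ncard_univ, Nat.card_fin]
  have hle' : (({z : Tri (Fin (6 * n)) × Fin (6 * n) | z.1 ∈ Trn n g ∧ ∃ c : List (Fin (6 * n)),
      z.1.IsWalk (z.1.tl z.2) c (z.1.tl z.2) ∧ c.length ≤ L ∧ ¬ z.1.NullHtp c}.ncard : ℕ) : ℝ) +
      (({q : Tri (Fin (6 * n)) × Fin (6 * n) | q.1 ∈ Trn n g ∧
        Part.Good (lrule 3) (Num.WdL (L / 2 + 2) (2 * n - 1)) q.1 q.2}.ncard : ℕ) : ℝ) ≤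
      (({q : Tri (Fin (6 * n)) × Fin (6 * n) | q.1 ∈ Trn n g}.ncard : ℕ) : ℝ) := by
    rw [← Nat.cast_add, Nat.cast_le, ← hdiff]
    exact Nat.add_le_add_right hle _
  have hnpos : (0 : ℝ) < n := by exact_mod_cast hn
  have hfac : (0 : ℝ) ≤ ((6 * n).factorial : ℝ) := Nat.cast_nonneg _
  have hAr : (((Trn n g).ncard : ℕ) : ℝ) * (6 * n) =
      ((6 * n).factorial : ℝ) * Num.muG (3 ::ₘ 0) (2 * n - 1) g := by
    rw [← hA, hall]
    push_cast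
    ring
  rw [hA, hG] at hle'
  have hmul := mul_le_mul_of_nonneg_left hq hfac
  have hfin : (n : ℝ) * (({z : Tri (Fin (6 * n)) × Fin (6 * n) | z.1 ∈ Trn n g ∧
      ∃ c : List (Fin (6 * n)), z.1.IsWalk (z.1.tl z.2) c (z.1.tl z.2) ∧ c.length ≤ L ∧
      ¬ z.1.NullHtp c}.ncard : ℕ) : ℝ) ≤ (n : ℝ) * (6 * C * (Trn n g).ncard) := by
    have h1 := mul_le_mul_of_nonneg_left hle' hnpos.le
    have h2 : ((6 * n).factorial : ℝ) * (C * Num.muG (3 ::ₘ 0) (2 * n - 1) g) =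
        (n : ℝ) * (6 * C * (Trn n g).ncard) := by
      rw [mul_left_comm, ← hAr]
      ring
    rw [← h2]
    refine le_trans ?_ hmul
    rw [mul_left_comm, mul_sub]
    rw [mul_add] at h1
    have h3 : (n : ℝ) * (((6 * n).factorial : ℝ) * Num.muG (3 ::ₘ 0) (2 * n - 1) g -
        ((6 * n).factorial : ℝ) * ∑ w ∈ Num.WdL (L / 2 + 2) (2 * n - 1), wwt 1 Num.W w *
          Num.muG (wend 3 w ::ₘ 0) (2 * n - 1 - wvol w) g) =
        (n : ℝ) * (((6 * n).factorial : ℝ) * Num.muG (3 ::ₘ 0) (2 * n - 1) g) -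
        (n : ℝ) * (((6 * n).factorial : ℝ) * ∑ w ∈ Num.WdL (L / 2 + 2) (2 * n - 1), wwt 1 Num.W w *
          Num.muG (wend 3 w ::ₘ 0) (2 * n - 1 - wvol w) g) := by ring
    rw [h3]
    linarith
  exact le_of_mul_le_mul_left hfin hnpos

end SYS
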