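import Pool.Agent.SYS.LA.AreaP
import Pool.Agent.SYS.LR.Brg
import Pool.Agent.SYS.LP.Main
import Pool.Agent.SYS.UP.MainF

/-!
# SYS-LA-T1L: the lower bound for `sepsys` from the first moment of the systems of islands (`LowG`)
-/

namespace SYS

open Classical SST Filter Topology

/-- A null-homologous, not null-homotopic closed walk `W` of length at most `L` and at most `K` centres: distinct centres are not within
`2 m`, the centres are connected by steps of length at most `2 m + 1`, and every vertex of `W` is within `2 m` of a centre. -/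
def LowCfg {D : Type} (T : Tri D) (m : ℕ) (L K : ℝ) : Prop :=
  ∃ (W : List D) (C : Finset T.V), T.Closed W ∧ T.NullHom W ∧ ¬ T.NullHtp W ∧ (W.length : ℝ) ≤ L ∧ C.Nonempty ∧
    (∀ x ∈ C, ∃ d ∈ W, x = T.tl d) ∧ (∀ x ∈ C, ∀ y ∈ C, x ≠ y → ¬ Dle T (2 * m) x y) ∧
    (∀ Z ⊆ C, Z.Nonempty → Z ≠ C → ∃ x ∈ Z, ∃ y ∈ C \ Z, Dle T (2 * m + 1) x y) ∧
    (∀ d ∈ W, ∃ x ∈ C, Dle T (2 * m) x (T.tl d)) ∧ (C.card : ℝ) ≤ K

/-- The first moment. -/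
def LowG (θ x : ℝ) : Prop := ∀ ε : ℝ, 0 < ε → ∃ m1 : ℕ, ∀ m : ℕ, m1 ≤ m → ∀ A : ℝ, 0 < A → ∀ δ : ℝ, 0 < δ → ∀ᶠ q in RB.Fth θ,
  (({T : Tri (Fin (6 * q.1)) | T ∈ Trn q.1 q.2 ∧
    LowCfg T m (A * Real.log q.1) ((1 / x - ε) * Real.log q.1 / (4 * m))}.ncard : ℕ) : ℝ) ≤ δ * (Trn q.1 q.2).ncard

/-- Darts whose tail carries a short essential closed walk. -/
def BadD {D : Type} (T : Tri D) (L : ℕ) : Set D :=
  {t | ∃ c : List D, T.IsWalk (T.tl t) c (T.tl t) ∧ c.length ≤ L ∧ ¬ T.NullHtp c}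

theorem lowCfg_of {n : ℕ} {T : Tri (Fin (6 * n))} (hT : T.Conn) {L A η : ℝ} {m M1 : ℕ} (hη : 0 < η) (hη1 : η ≤ 1)
    (hm : 1 ≤ η * m) (hA : AreaOK T L A) (hb : (BadD T (4 * m)).ncard ≤ M1) (hs : T.HasSep L) :
    ∃ K : ℕ, 4 * m * (1 - η) * K ≤ L + 4 * m * ((M1 : ℝ) + 4 * A / (η * m) ^ 2) ∧ LowCfg T m L K := by
  obtain ⟨W0, -, h1, h2, h3, h4⟩ := hs
  obtain ⟨P, hP⟩ : ∃ P : ℕ → Prop, P = fun k => ∃ W : List (Fin (6 * n)), T.Closed W ∧ T.NullHom W ∧ ¬ T.NullHtp W ∧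
    W.length = k := ⟨_, rfl⟩
  have hex : ∃ k, P k := by
    rw [hP]
    exact ⟨_, W0, h1, h2, h3, rfl⟩
  have hfs := Nat.find_spec hex
  have hfm := fun k => Nat.find_min' (m := k) hex
  generalize Nat.find hex = l at hfs hfm
  rw [hP] at hfs
  obtain ⟨W, w1, w2, w3, w4⟩ := hfs
  have hmin : ∀ c : List (Fin (6 * n)), T.Closed c → T.NullHom c → ¬ T.NullHtp c → W.length ≤ c.length := by
    intro c c1 c2 c3
    rw [w4]
    apply hfm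
    rw [hP]
    exact ⟨c, c1, c2, c3, rfl⟩
  have hWL : (W.length : ℝ) ≤ L := by
    have h5 : (W.length : ℝ) ≤ W0.length := by exact_mod_cast hmin W0 h1 h2 h3
    exact h5.trans h4
  obtain ⟨k, k1, k2, k3⟩ := hA W w1 w2 hWL
  have hA0 : 0 ≤ A := (Nat.cast_nonneg _).trans k3
  have hM : {v : T.V | ∃ c, T.IsWalk v c v ∧ c.length ≤ 4 * m ∧ ¬ T.NullHtp c}.ncard ≤ M1 := by
    refine le_trans ?_ hb
    have h5 : {v : T.V | ∃ c, T.IsWalk v c v ∧ c.length ≤ 4 * m ∧ ¬ T.NullHtp c} ⊆ T.tl '' BadD T (4 * m) := by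
      rintro v ⟨c, c1, c2, c3⟩
      obtain ⟨t, rfl⟩ := Quotient.exists_rep v
      exact ⟨t, ⟨c, c1, c2, c3⟩, rfl⟩
    exact (Set.ncard_le_ncard h5 (Set.toFinite _)).trans (Set.ncard_image_le (Set.toFinite _))
  obtain ⟨C, c1, c2, c3, c4, c5, c6⟩ := packing hT w1 w2 w3 hmin k1 k2 hη hη1 hm hM (A := ⌊A⌋₊) (Nat.le_floor k3)
  refine ⟨C.card, ?_, W, C, w1, w2, w3, hWL, c1, c2, c3, c4, c5, le_rfl⟩
  refine c6.trans ?_
  have h5 : (⌊A⌋₊ : ℝ) ≤ A := Nat.floor_le hA0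
  have h6 : 4 * (⌊A⌋₊ : ℝ) / (η * m) ^ 2 ≤ 4 * A / (η * m) ^ 2 := by
    gcongr
  have h7 : (0 : ℝ) ≤ 4 * m := by positivity
  nlinarith [mul_le_mul_of_nonneg_left h6 h7]

private theorem low_num {x ε η S ℓ C1 : ℝ} {m K M1 : ℕ} (hx : 0 < x) (hε : 0 < ε) (hη : 0 < η) (hη2 : η < 1) (hηx : η ≤ ε * x / 2)
    (hS : S = 1 / x - ε) (hl : 0 ≤ ℓ) (hm : 1 ≤ m) (hC : 0 < C1) (hmC : 256 * C1 ≤ η ^ 2 * ε * m)
    (hM : (M1 : ℝ) ≤ ε / (64 * m) * ℓ)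
    (hK : 4 * m * (1 - η) * (K : ℝ) ≤ S * ℓ + 4 * m * ((M1 : ℝ) + 4 * (C1 * ℓ) / (η * m) ^ 2)) :
    (K : ℝ) ≤ (1 / x - ε / 4) * ℓ / (4 * m) := by
  have hm0 : (0 : ℝ) < m := by exact_mod_cast hm
  have h1 : 4 * m * (M1 : ℝ) ≤ ε / 16 * ℓ := by
    calc 4 * m * (M1 : ℝ) ≤ 4 * m * (ε / (64 * m) * ℓ) := mul_le_mul_of_nonneg_left hM (by positivity)
      _ = ε / 16 * ℓ := by
        field_simp
        ring
  have h2 : 4 * m * (4 * (C1 * ℓ) / (η * m) ^ 2) ≤ ε / 16 * ℓ := by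
    have h3 : 4 * m * (4 * (C1 * ℓ) / (η * m) ^ 2) = 16 * C1 / (η ^ 2 * m) * ℓ := by
      field_simp
      ring
    rw [h3]
    refine mul_le_mul_of_nonneg_right ?_ hl
    rw [div_le_iff₀ (by positivity)]
    nlinarith
  have h3 : 4 * m * (1 - η) * (K : ℝ) ≤ (S + ε / 8) * ℓ := by
    rw [mul_add] at hK
    nlinarith
  rw [le_div_iff₀ (by positivity)]
  by_contra hcon
  rw [not_le] at hcon
  have h4 : (1 - η) * ((1 / x - ε / 4) * ℓ) < (1 - η) * ((K : ℝ) * (4 * m)) :=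
    mul_lt_mul_of_pos_left hcon (by linarith)
  have h5 : (1 - η) * ((1 / x - ε / 4) * ℓ) < (1 / x - ε + ε / 8) * ℓ := by
    rw [← hS]
    nlinarith
  have h6 : η * (1 / x) ≤ ε / 2 := by
    calc η * (1 / x) ≤ ε * x / 2 * (1 / x) := mul_le_mul_of_nonneg_right hηx (by positivity)
      _ = ε / 2 := by
        field_simp
  have h7 : 0 ≤ (1 - η) * (1 / x - ε / 4) - (1 / x - ε + ε / 8) := by
    nlinarith [mul_pos hη hε]
  nlinarith [mul_nonneg h7 hl]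

private theorem low_markov {n g : ℕ} (L M : ℕ) :
    ((M : ℝ) + 1) * (({T : Tri (Fin (6 * n)) | T ∈ Trn n g ∧ M < (BadD T L).ncard}.ncard : ℕ) : ℝ) ≤
      (({z : Tri (Fin (6 * n)) × Fin (6 * n) | z.1 ∈ Trn n g ∧ ∃ c : List (Fin (6 * n)),
        z.1.IsWalk (z.1.tl z.2) c (z.1.tl z.2) ∧ c.length ≤ L ∧ ¬ z.1.NullHtp c}.ncard : ℕ) : ℝ) := by
  obtain ⟨s, hs⟩ : ∃ s : Finset (Tri (Fin (6 * n))), s = (Set.toFinite
    {T : Tri (Fin (6 * n)) | T ∈ Trn n g ∧ M < (BadD T L).ncard}).toFinset := ⟨_, rfl⟩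
  have hms : ∀ T, T ∈ s ↔ T ∈ Trn n g ∧ M < (BadD T L).ncard := by
    intro T
    rw [hs, Set.Finite.mem_toFinset]
    rfl
  have h1 : s.card * (M + 1) ≤ (s.sigma fun T => (Set.toFinite (BadD T L)).toFinset).card := by
    rw [Finset.card_sigma, ← smul_eq_mul]
    refine Finset.card_nsmul_le_sum _ _ _ fun T hT => ?_
    rw [← Set.ncard_eq_toFinset_card _ (Set.toFinite _)]
    exact ((hms T).1 hT).2
  have h2 : (s.sigma fun T => (Set.toFinite (BadD T L)).toFinset).card ≤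
      {z : Tri (Fin (6 * n)) × Fin (6 * n) | z.1 ∈ Trn n g ∧ ∃ c : List (Fin (6 * n)),
        z.1.IsWalk (z.1.tl z.2) c (z.1.tl z.2) ∧ c.length ≤ L ∧ ¬ z.1.NullHtp c}.ncard := by
    rw [Set.ncard_eq_toFinset_card _ (Set.toFinite _)]
    refine Finset.card_le_card_of_injOn (fun y => (y.1, y.2)) ?_ ?_
    · rintro ⟨T, t⟩ hy
      rw [Finset.mem_coe, Finset.mem_sigma] at hy
      obtain ⟨h3, h4⟩ := hy
      rw [Set.Finite.mem_toFinset] at h4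
      rw [Finset.mem_coe, Set.Finite.mem_toFinset]
      exact ⟨((hms T).1 h3).1, h4⟩
    · rintro ⟨T, t⟩ _ ⟨T', t'⟩ _ h
      simp only [Prod.mk.injEq] at h
      obtain ⟨rfl, rfl⟩ := h
      rfl
  have h3 : s.card = {T : Tri (Fin (6 * n)) | T ∈ Trn n g ∧ M < (BadD T L).ncard}.ncard := by
    rw [hs, Set.ncard_eq_toFinset_card _ (Set.toFinite _)]
  rw [h3] at h1
  have h4 := h1.trans h2
  have h5 : ((({T : Tri (Fin (6 * n)) | T ∈ Trn n g ∧ M < (BadD T L).ncard}.ncard * (M + 1) : ℕ)) : ℝ) ≤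
      (({z : Tri (Fin (6 * n)) × Fin (6 * n) | z.1 ∈ Trn n g ∧ ∃ c : List (Fin (6 * n)),
        z.1.IsWalk (z.1.tl z.2) c (z.1.tl z.2) ∧ c.length ≤ L ∧ ¬ z.1.NullHtp c}.ncard : ℕ) : ℝ) := by
    exact_mod_cast h4
  push_cast at h5
  linarith

theorem low_ps {θ x : ℝ} (h : Num.Par θ x) (hG : LowG θ x) (ε : ℝ) (hε : 0 < ε) :
    Tendsto (PS (1 / x - ε)) (Num.Fth θ) (𝓝 0) := by
  have hx : 0 < x := h.2.2.1
  have hFF : Num.Fth θ = RB.Fth θ := rfl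
  rw [hFF]
  obtain ⟨C1, hC1, hA⟩ := area_prob h (1 / x) (by positivity)
  obtain ⟨m1, hm1⟩ := hG (ε / 4) (by linarith)
  obtain ⟨η, hη, hη2, hηx⟩ : ∃ η : ℝ, 0 < η ∧ η < 1 ∧ η ≤ ε * x / 2 :=
    ⟨min (1 / 2) (ε * x / 2), lt_min (by norm_num) (by positivity), (min_le_left _ _).trans_lt (by norm_num), min_le_right _ _⟩
  obtain ⟨m, hmm1, hm0, hmη, hmC⟩ : ∃ m : ℕ, m1 ≤ m ∧ 1 ≤ m ∧ 1 ≤ η * m ∧ 256 * C1 ≤ η ^ 2 * ε * m := by
    have e1 : ∀ᶠ m : ℕ in atTop, 1 ≤ η * m :=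
      (tendsto_natCast_atTop_atTop.const_mul_atTop hη).eventually_ge_atTop 1
    have e2 : ∀ᶠ m : ℕ in atTop, 256 * C1 ≤ η ^ 2 * ε * m :=
      (tendsto_natCast_atTop_atTop.const_mul_atTop (by positivity)).eventually_ge_atTop _
    obtain ⟨m, hm⟩ := ((eventually_ge_atTop m1).and ((eventually_ge_atTop 1).and (e1.and e2))).exists
    exact ⟨m, hm.1, hm.2.1, hm.2.2.1, hm.2.2.2⟩
  have hmp : (0 : ℝ) < m := by exact_mod_cast hm0
  obtain ⟨Cb, hCb, hB⟩ := badv h lrNul (4 * m)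
  have hG' := hm1 m hmm1 (1 / x) (by positivity)
  rw [tendsto_order]
  constructor
  · intro a ha
    filter_upwards with q
    refine ha.trans_le ?_
    unfold PS Pr
    positivity
  intro δ hδ
  have hlog : Tendsto (fun q : ℕ × ℕ => Real.log q.1) (RB.Fth θ) atTop := Real.tendsto_log_atTop.comp (RB.fst_atTop θ)
  have e1 : ∀ᶠ q in RB.Fth θ, 4 * Cb / δ ≤ ε / (64 * m) * Real.log ((q : ℕ × ℕ).1 : ℝ) :=
    (hlog.const_mul_atTop (by positivity)).eventually_ge_atTop _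
  have e2 : ∀ᶠ q in RB.Fth θ, 4 / δ ≤ ((q : ℕ × ℕ).1 : ℝ) := (RB.fst_atTop θ).eventually_ge_atTop _
  filter_upwards [hA, hB, hG' (δ / 4) (by positivity), e1, e2, RB.ge_ev θ 1] with q qA qB qG q1 q2 q3
  obtain ⟨N, hN⟩ : ∃ N : ℝ, N = ((Trn q.1 q.2).ncard : ℝ) := ⟨_, rfl⟩
  have hN0 : 0 ≤ N := by
    rw [hN]
    positivity
  obtain ⟨ℓ, hℓ⟩ : ∃ ℓ : ℝ, ℓ = Real.log q.1 := ⟨_, rfl⟩
  have hℓ0 : 0 ≤ ℓ := by
    rw [hℓ]
    exact Real.log_natCast_nonneg _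
  obtain ⟨M1, hM1⟩ : ∃ M1 : ℕ, M1 = ⌊ε / (64 * m) * ℓ⌋₊ := ⟨_, rfl⟩
  have hM1l : (M1 : ℝ) ≤ ε / (64 * m) * ℓ := by
    rw [hM1]
    exact Nat.floor_le (by positivity)
  have hM1u : ε / (64 * m) * ℓ < M1 + 1 := by
    rw [hM1]
    exact Nat.lt_floor_add_one _
  have hq1 : (0 : ℝ) < q.1 := by exact_mod_cast q3
  unfold PS
  rw [UP.frac_sep q3]
  have hsub : {T : Tri (Fin (6 * q.1)) | T ∈ Trn q.1 q.2 ∧ T.HasSep ((1 / x - ε) * Real.log q.1)} ⊆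
      {T : Tri (Fin (6 * q.1)) | T ∈ Trn q.1 q.2 ∧ ¬ AreaOK T (1 / x * Real.log q.1) (C1 * Real.log q.1)} ∪
        ({T : Tri (Fin (6 * q.1)) | T ∈ Trn q.1 q.2 ∧ M1 < (BadD T (4 * m)).ncard} ∪
        {T : Tri (Fin (6 * q.1)) | T ∈ Trn q.1 q.2 ∧
          LowCfg T m (1 / x * Real.log q.1) ((1 / x - ε / 4) * Real.log q.1 / (4 * m))}) := by
    rintro T ⟨hT, hs⟩
    by_cases hA' : AreaOK T (1 / x * Real.log q.1) (C1 * Real.log q.1)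
    · right
      rcases Nat.lt_or_ge M1 (BadD T (4 * m)).ncard with hb | hb
      · left
        exact ⟨hT, hb⟩
      · right
        refine ⟨hT, ?_⟩
        have hLL : (1 / x - ε) * Real.log q.1 ≤ 1 / x * Real.log q.1 := by
          rw [← hℓ]
          nlinarith
        have hA'' : AreaOK T ((1 / x - ε) * Real.log q.1) (C1 * Real.log q.1) :=
          fun W w1 w2 w3 => hA' W w1 w2 (w3.trans hLL)
        obtain ⟨K, hK, W, C, c1, c2, c3, c4, c5, c6, c7, c8, c9, c10⟩ := lowCfg_of hT.1 hη hη2.le hmη hA'' hb hs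
        refine ⟨W, C, c1, c2, c3, c4.trans hLL, c5, c6, c7, c8, c9, c10.trans ?_⟩
        rw [← hℓ] at hK ⊢
        exact low_num hx hε hη hη2 hηx rfl hℓ0 hm0 hC1 hmC hM1l hK
    · left
      exact ⟨hT, hA'⟩
  have h1 := (Set.ncard_le_ncard hsub (Set.toFinite _)).trans ((Set.ncard_union_le _ _).trans
    (Nat.add_le_add_left (Set.ncard_union_le _ _) _))
  have h2 : (({T : Tri (Fin (6 * q.1)) | T ∈ Trn q.1 q.2 ∧ T.HasSep ((1 / x - ε) * Real.log q.1)}.ncard : ℕ) : ℝ) ≤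
      (({T : Tri (Fin (6 * q.1)) | T ∈ Trn q.1 q.2 ∧ ¬ AreaOK T (1 / x * Real.log q.1) (C1 * Real.log q.1)}.ncard : ℕ) : ℝ) +
      ((({T : Tri (Fin (6 * q.1)) | T ∈ Trn q.1 q.2 ∧ M1 < (BadD T (4 * m)).ncard}.ncard : ℕ) : ℝ) +
      (({T : Tri (Fin (6 * q.1)) | T ∈ Trn q.1 q.2 ∧
          LowCfg T m (1 / x * Real.log q.1) ((1 / x - ε / 4) * Real.log q.1 / (4 * m))}.ncard : ℕ) : ℝ)) := by
    exact_mod_cast h1
  rw [← hN] at qA qB qG ⊢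
  have h3 : (({T : Tri (Fin (6 * q.1)) | T ∈ Trn q.1 q.2 ∧
      ¬ AreaOK T (1 / x * Real.log q.1) (C1 * Real.log q.1)}.ncard : ℕ) : ℝ) ≤ δ / 4 * N := by
    have h4 : 4 / δ * (({T : Tri (Fin (6 * q.1)) | T ∈ Trn q.1 q.2 ∧
      ¬ AreaOK T (1 / x * Real.log q.1) (C1 * Real.log q.1)}.ncard : ℕ) : ℝ) ≤ N :=
      (mul_le_mul_of_nonneg_right q2 (Nat.cast_nonneg _)).trans qA
    have h5 := mul_le_mul_of_nonneg_left h4 (show 0 ≤ δ / 4 by positivity)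
    rw [← mul_assoc] at h5
    have h6 : δ / 4 * (4 / δ) = 1 := by field_simp
    rwa [h6, one_mul] at h5
  have h4 : (({T : Tri (Fin (6 * q.1)) | T ∈ Trn q.1 q.2 ∧ M1 < (BadD T (4 * m)).ncard}.ncard : ℕ) : ℝ) ≤ δ / 4 * N := by
    have h5 := (low_markov (n := q.1) (g := q.2) (4 * m) M1).trans qB
    rw [← hℓ] at q1
    have h6 : 4 * Cb / δ * (({T : Tri (Fin (6 * q.1)) | T ∈ Trn q.1 q.2 ∧ M1 < (BadD T (4 * m)).ncard}.ncard : ℕ) : ℝ) ≤ Cb * N :=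
      (mul_le_mul_of_nonneg_right (q1.trans hM1u.le) (Nat.cast_nonneg _)).trans h5
    have h7 := mul_le_mul_of_nonneg_left h6 (show 0 ≤ δ / (4 * Cb) by positivity)
    rw [← mul_assoc] at h7
    have h8 : δ / (4 * Cb) * (4 * Cb / δ) = 1 := by field_simp
    rw [h8, one_mul] at h7
    refine h7.trans_eq ?_
    field_simp
  have hlt : (({T : Tri (Fin (6 * q.1)) | T ∈ Trn q.1 q.2 ∧ T.HasSep ((1 / x - ε) * Real.log q.1)}.ncard : ℕ) : ℝ) ≤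
      3 * δ / 4 * N := by linarith
  rcases hN0.eq_or_lt with h0 | h0
  · rw [← h0, div_zero]
    exact hδ
  · rw [div_lt_iff₀ h0]
    refine hlt.trans_lt ?_
    have := mul_pos hδ h0
    linarith

/-- T1 from the first moment `LowG`. -/
theorem t1_of {θ x : ℝ} (h : Num.Par θ x) (hG : LowG θ x) : SepLim θ (1 / x) :=
  sepLim (fun ε hε => UP.up_ps h ε hε) (fun ε hε => low_ps h hG ε hε)

end SYS
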