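import Pool.Agent.SYS.LA.Side

/-!
# SYS-LA-Area: a short null-homologous closed walk encloses few faces
-/

namespace SYS

open Classical SST

variable {D : Type} [Finite D]

theorem area_det {T : Tri D} (hT : T.Conn) {W : List D} (hW : T.Closed W) (hN : T.NullHom W) {A : ℕ} (hA1 : 1 ≤ A)
    (hA : 2 * W.length * A ≤ Nat.card D)
    (hreg : ∀ S : Part D, S.Le T → S.Con → S.HConn T → S.R.Nonempty → S.B.ncard ≤ 2 * W.length →
      S.R.ncard < A ∨ Nat.card D < S.R.ncard + A) :
    ∃ k : D → ℤ, (∀ d, k (T.f d) = k d) ∧ (∀ d, T.chain W d = k d - k (T.a d)) ∧ {d | k d ≠ 0}.ncard ≤ A := by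
  rcases eq_or_ne W [] with rfl | hne
  · refine ⟨fun _ => 0, fun _ => rfl, fun d => by simp [Tri.chain], ?_⟩
    simp
  obtain ⟨C, hC⟩ : ∃ C : D → Set D, ∀ d, C d = {e | Sd T W d e} := ⟨_, fun _ => rfl⟩
  have hself : ∀ d, d ∈ C d := fun d => by
    rw [hC]
    exact Relation.EqvGen.refl _
  by_cases hbig : ∃ d, Nat.card D < (C d).ncard + A
  · obtain ⟨d0, hd0⟩ := hbig
    obtain ⟨k0, hk0, hc0⟩ := hN
    refine ⟨fun d => k0 d - k0 d0, fun d => by simp only [hk0], fun d => by simp only [hc0]; ring, ?_⟩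
    show {d | k0 d - k0 d0 ≠ 0}.ncard ≤ A
    have hsub : {d | k0 d - k0 d0 ≠ 0} ⊆ (C d0)ᶜ := by
      intro d hd hcd
      apply hd
      rw [hC] at hcd
      rw [sd_k hk0 hc0 hcd, sub_self]
    have h1 := Set.ncard_le_ncard hsub (Set.toFinite _)
    have h2 := Set.ncard_add_ncard_compl (C d0)
    omega
  · exfalso
    have hsmall : ∀ d, (C d).ncard < A := by
      intro d
      obtain ⟨S, h1, h2, h3, h4, h5⟩ := sd_part hT hW hne d
      have h4' : S.R = C d := by rw [h4, hC]
      rcases hreg S h1 h2 h3 (by rw [h4']; exact ⟨d, hself d⟩) h5 with h6 | h6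
      · rw [h4'] at h6
        exact h6
      · rw [h4'] at h6
        exact absurd ⟨d, h6⟩ hbig
    have hfin : Fintype D := Fintype.ofFinite D
    obtain ⟨E, hE⟩ : ∃ E : Finset D, E = W.toFinset ∪ W.toFinset.image T.a := ⟨_, rfl⟩
    have hEc : E.card ≤ 2 * W.length := by
      rw [hE]
      refine (Finset.card_union_le _ _).trans ?_
      have h1 := List.toFinset_card_le W
      have h2 := (Finset.card_image_le (s := W.toFinset) (f := T.a)).trans h1
      omega
    have hcov : (Finset.univ : Finset D) ⊆ E.biUnion fun e => (Set.toFinite (C e)).toFinset := by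
      intro d _
      obtain ⟨e, he, hde⟩ := sd_meet hT hne d
      rw [Finset.mem_biUnion]
      refine ⟨e, ?_, ?_⟩
      · rw [hE, Finset.mem_union, List.mem_toFinset, Finset.mem_image]
        rcases he with he | he
        · exact Or.inl he
        · exact Or.inr ⟨T.a e, List.mem_toFinset.2 he, T.aa e⟩
      · rw [Set.Finite.mem_toFinset, hC]
        exact Relation.EqvGen.symm _ _ hde
    have h1 := Finset.card_le_card hcov
    have h2 := Finset.card_biUnion_le_card_mul E (fun e => (Set.toFinite (C e)).toFinset) (A - 1) (by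
      intro e _
      rw [← Set.ncard_eq_toFinset_card]
      have := hsmall e
      omega)
    rw [Finset.card_univ, ← Nat.card_eq_fintype_card] at h1
    have h3 : E.card * (A - 1) ≤ 2 * W.length * (A - 1) := Nat.mul_le_mul_right _ hEc
    have hl : 0 < W.length := List.length_pos_iff.2 hne
    have h4 : 2 * W.length * (A - 1) < 2 * W.length * A :=
      Nat.mul_lt_mul_of_pos_left (by omega) (by omega)
    omega

end SYS
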