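import Pool.Agent.SYS.LA.Reg
import Pool.Agent.SYS.LA.Area

/-!
# SYS-LA-AreaP: AREA: short null-homologous closed walks enclose at most `C1 log n` faces, with high probability

PROOF. `reg h (2 * C)` gives `C1`; take `C2 = C1 + 1` and `A = ⌈C1 * log n⌉₊ + 1` (`A ≤ C2 log n` eventually needs `2 ≤ log n`: take `C2 = C1 + 2`). If `T ∈ Trn n g` is not in the set of `reg` then for every closed `W` with `W.length ≤ C log n` the hypotheses of `area_det` hold: `2 * W.length * A ≤ 6 n` eventually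
(`(log n)^2 = o (n)`), and for a region `S` with `S.B.ncard ≤ 2 * W.length ≤ 2 C log n` (`S.R` nonempty is not needed): not (`C1 log n ≤ |S.R|` and `|S.R| + C1 log n ≤ 6 n`), so `|S.R| < C1 log n ≤ A` or `6 n < |S.R| + C1 log n ≤ |S.R| + A`; `Nat.card (Fin (6 n)) = 6 n`.
-/

namespace SYS

open Classical SST Filter

/-- Every null-homologous closed walk of length at most `L` bounds a 2-chain with at most `A` nonzero darts. -/
def AreaOK {n : ℕ} (T : Tri (Fin (6 * n))) (L A : ℝ) : Prop :=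
  ∀ W : List (Fin (6 * n)), T.Closed W → T.NullHom W → (W.length : ℝ) ≤ L →
    ∃ k : Fin (6 * n) → ℤ, (∀ d, k (T.f d) = k d) ∧ (∀ d, T.chain W d = k d - k (T.a d)) ∧
      ({d | k d ≠ 0}.ncard : ℝ) ≤ A

theorem area_prob {θ x : ℝ} (h : Num.Par θ x) (C : ℝ) (hC : 0 < C) : ∃ C1 : ℝ, 0 < C1 ∧ ∀ᶠ q in RB.Fth θ,
    (q.1 : ℝ) * (({T : Tri (Fin (6 * q.1)) | T ∈ Trn q.1 q.2 ∧
      ¬ AreaOK T (C * Real.log q.1) (C1 * Real.log q.1)}.ncard : ℕ) : ℝ) ≤ (Trn q.1 q.2).ncard := by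
  obtain ⟨C1, hC1, hev⟩ := reg h (2 * C) (by positivity)
  refine ⟨C1 + 1, by positivity, ?_⟩
  have hfst : ∀ P : ℕ → Prop, (∀ᶠ n in atTop, P n) → ∀ᶠ q in RB.Fth θ, P q.1 := fun P hP =>
    (hP.comap (Prod.fst : ℕ × ℕ → ℕ)).filter_mono inf_le_left
  have hlog1 : ∀ᶠ n : ℕ in atTop, (1 : ℝ) ≤ Real.log n :=
    (Real.tendsto_log_atTop.comp tendsto_natCast_atTop_atTop).eventually_ge_atTop 1
  have hlog2 : ∀ᶠ n : ℕ in atTop, 2 * C * (C1 + 1) * Real.log n ^ 2 ≤ 6 * n := by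
    have hc : (0 : ℝ) < 6 / (2 * C * (C1 + 1)) := by positivity
    have h1 := (Real.isLittleO_pow_log_id_atTop (n := 2)).bound hc
    filter_upwards [tendsto_natCast_atTop_atTop.eventually h1] with n hn
    rw [Real.norm_of_nonneg (by positivity), id, Real.norm_of_nonneg (Nat.cast_nonneg n)] at hn
    rw [div_mul_eq_mul_div, le_div_iff₀ (by positivity)] at hn
    linarith
  filter_upwards [hev, hfst _ hlog1, hfst _ hlog2] with q hq hL hL2
  refine le_trans ?_ hq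
  refine mul_le_mul_of_nonneg_left ?_ (Nat.cast_nonneg _)
  rw [Nat.cast_le]
  refine Set.ncard_le_ncard ?_ (Set.toFinite _)
  rintro T ⟨hT, hno⟩
  refine ⟨hT, ?_⟩
  by_contra hcon
  apply hno
  intro W hW hN hlen
  have hLpos : 0 < Real.log (q.1 : ℝ) := by linarith
  have hA0 : 0 < C1 * Real.log (q.1 : ℝ) := by positivity
  have hA1 : 1 ≤ ⌈C1 * Real.log (q.1 : ℝ)⌉₊ := Nat.one_le_iff_ne_zero.2 (Nat.ceil_pos.2 hA0).ne'
  have hAr : (⌈C1 * Real.log (q.1 : ℝ)⌉₊ : ℝ) ≤ (C1 + 1) * Real.log q.1 := by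
    have h1 := Nat.ceil_lt_add_one hA0.le
    nlinarith
  have hcard : Nat.card (Fin (6 * q.1)) = 6 * q.1 := Nat.card_fin _
  obtain ⟨k, hk1, hk2, hk3⟩ := area_det hT.1 hW hN hA1 (by
    rw [hcard]
    have h1 : ((2 * W.length * ⌈C1 * Real.log (q.1 : ℝ)⌉₊ : ℕ) : ℝ) ≤ ((6 * q.1 : ℕ) : ℝ) := by
      push_cast
      calc (2 : ℝ) * W.length * ⌈C1 * Real.log (q.1 : ℝ)⌉₊
          ≤ 2 * (C * Real.log q.1) * ((C1 + 1) * Real.log q.1) := by
            gcongr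
        _ = 2 * C * (C1 + 1) * Real.log q.1 ^ 2 := by ring
        _ ≤ 6 * q.1 := hL2
    exact_mod_cast h1) (by
    intro S hS1 hS2 hS3 _ hB
    rw [hcard]
    have hBr : (S.B.ncard : ℝ) ≤ 2 * C * Real.log q.1 := by
      have h1 : (S.B.ncard : ℝ) ≤ 2 * W.length := by exact_mod_cast hB
      nlinarith
    have hceil := Nat.le_ceil (C1 * Real.log (q.1 : ℝ))
    by_contra hcon2
    push Not at hcon2
    obtain ⟨h1, h2⟩ := hcon2
    refine hcon ⟨S, hS1, hS2, hS3, hBr, ?_, ?_⟩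
    · have h3 : (⌈C1 * Real.log (q.1 : ℝ)⌉₊ : ℝ) ≤ S.R.ncard := by exact_mod_cast h1
      linarith
    · have h3 : (S.R.ncard : ℝ) + (⌈C1 * Real.log (q.1 : ℝ)⌉₊ : ℝ) ≤ 6 * q.1 := by exact_mod_cast h2
      linarith)
  exact ⟨k, hk1, hk2, le_trans (by exact_mod_cast hk3) hAr⟩

end SYS
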