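import Pool.Agent.SYS.LA.IntW

/-!
# SYS-LA-Defi: the words with `r` layers carry all but `O (1 / n)` of the maps

By `np_tree`, `int_np` and the window of `Fth θ`.
-/

namespace SYS.Num

open Real Filter Classical

variable {θ x : ℝ}

/-- The words with `r` layers (minimal). -/
noncomputable def WdL (r F : ℕ) : Finset (List Stp) :=
  (Wds 3 F).filter fun w => GR.lay 3 w = r ∧ ∀ u, u <+: w → u ≠ w → GR.lay 3 u < r

theorem mem_WdL {r F : ℕ} {w : List Stp} : w ∈ WdL r F ↔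
    WOk 3 w ∧ wvol w ≤ F ∧ GR.lay 3 w = r ∧ ∀ u, u <+: w → u ≠ w → GR.lay 3 u < r := by
  unfold WdL
  rw [Finset.mem_filter, mem_Wds, and_assoc]

theorem WdL_pf (r F : ℕ) : PF (WdL r F) := by
  intro u hu w hw huw
  by_contra hne
  have h1 := (mem_WdL.1 hw).2.2.2 u huw hne
  have h2 := (mem_WdL.1 hu).2.2.1
  omega

private theorem step_r (l : GR.LS) (s : Stp) : l.r ≤ (l.step s).r ∧ (l.step s).r ≤ l.r + 1 := by
  cases s with
  | T =>
    constructor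
    · exact le_rfl
    · exact Nat.le_succ _
  | L k a =>
    unfold GR.LS.step
    dsimp only
    split_ifs
    · exact ⟨le_rfl, Nat.le_succ _⟩
    · exact ⟨le_rfl, Nat.le_succ _⟩
  | R k a =>
    unfold GR.LS.step
    dsimp only
    split_ifs
    · exact ⟨le_rfl, Nat.le_succ _⟩
    · exact ⟨le_rfl, Nat.le_succ _⟩
    · exact ⟨Nat.le_succ _, le_rfl⟩

private theorem lay_snoc (u : List Stp) (s : Stp) : GR.lay 3 u ≤ GR.lay 3 (u ++ [s]) ∧
    GR.lay 3 (u ++ [s]) ≤ GR.lay 3 u + 1 := by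
  unfold GR.lay
  rw [GR.lrun_append]
  exact step_r _ s

private theorem lay_pre {u w : List Stp} (h : u <+: w) : GR.lay 3 u ≤ GR.lay 3 w := by
  obtain ⟨v, rfl⟩ := h
  induction v using List.reverseRecOn with
  | nil => rw [List.append_nil]
  | append_singleton v s ih =>
    rw [← List.append_assoc]
    exact ih.trans (lay_snoc _ s).1

private theorem lay_lt {r : ℕ} (hr : 1 ≤ r) (w : List Stp) (h : ∀ u, u <+: w → ¬ GR.lay 3 u = r) :
    GR.lay 3 w < r := by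
  induction w using List.reverseRecOn with
  | nil =>
    have h1 : GR.lay 3 [] = 0 := rfl
    omega
  | append_singleton w s ih =>
    have h1 := ih fun u hu => h u (hu.trans (List.prefix_append w [s]))
    have h2 := (lay_snoc w s).2
    have h3 := h (w ++ [s]) (List.prefix_refl _)
    omega

private theorem defi_win (hθ : 0 < θ) (hθ1 : θ < 1) {δ : ℝ} (hδ : 0 < δ) (M : ℕ) : ∀ᶠ p in Fth θ,
    Win θ δ M (3 ::ₘ 0) (2 * p.1 - 1) p.2 ∧ p.2 ≠ 0 ∧ 1 ≤ p.1 := by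
  rw [show Fth θ = RB.Fth θ from rfl, RB.Fth_ev]
  obtain ⟨n1, hn1⟩ := exists_nat_ge ((3 + 3 * δ) / δ)
  refine ⟨min (δ / 4) θ, by positivity, max n1 (max M 1), fun n hn g hg => ?_⟩
  have a1 : n1 ≤ n := (le_max_left _ _).trans hn
  have a2 : M ≤ n := ((le_max_left _ _).trans (le_max_right _ _)).trans hn
  have a3 : 1 ≤ n := ((le_max_right _ _).trans (le_max_right _ _)).trans hn
  have hn0 : (1 : ℝ) ≤ n := by exact_mod_cast a3
  have hnp : (0 : ℝ) < n := by linarith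
  have b1 : 3 + 3 * δ ≤ n * δ := by
    rw [div_le_iff₀ hδ] at hn1
    have : (n1 : ℝ) ≤ n := by exact_mod_cast a1
    exact hn1.trans (mul_le_mul_of_nonneg_right this hδ.le)
  have hF : ((2 * n - 1 : ℕ) : ℝ) = 2 * n - 1 := by
    rw [Nat.cast_sub (by omega)]
    push_cast
    ring
  have hg1 : |(g : ℝ) / n - θ| < δ / 4 := lt_of_lt_of_le hg (min_le_left _ _)
  have hg2 : |(g : ℝ) / n - θ| < θ := lt_of_lt_of_le hg (min_le_right _ _)
  have hgn : |(g : ℝ) - θ * n| ≤ δ / 4 * n := by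
    have e : (g : ℝ) - θ * n = ((g : ℝ) / n - θ) * n := by field_simp
    rw [e, abs_mul, abs_of_pos hnp]
    exact mul_le_mul_of_nonneg_right hg1.le hnp.le
  refine ⟨⟨?_, ?_, ?_, ?_⟩, ?_, a3⟩
  · show M ≤ 2 * n - 1
    omega
  · show |2 * (g : ℝ) - θ * ((2 * n - 1 : ℕ) : ℝ)| ≤ δ * ((2 * n - 1 : ℕ) : ℝ)
    rw [hF]
    rw [abs_le] at hgn ⊢
    constructor
    · nlinarith [hgn.1]
    · nlinarith [hgn.2]
  · show (((3 ::ₘ 0 : Multiset ℕ).sum : ℕ) : ℝ) ≤ δ * ((2 * n - 1 : ℕ) : ℝ)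
    rw [hF]
    have : (((3 ::ₘ 0 : Multiset ℕ).sum : ℕ) : ℝ) = 3 := by simp
    rw [this]
    nlinarith
  · intro q hq
    rw [Multiset.mem_cons] at hq
    rcases hq with rfl | hq
    · omega
    · exact absurd hq (Multiset.notMem_zero q)
  · show g ≠ 0
    rintro rfl
    rw [Nat.cast_zero, zero_div, zero_sub, abs_neg, abs_of_pos hθ] at hg2
    exact lt_irrefl _ hg2

theorem defi (h : Par θ x) (r : ℕ) (hr : 1 ≤ r) : ∃ C : ℝ, 0 < C ∧ ∀ᶠ p in Fth θ,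
    (p.1 : ℝ) * (muG (3 ::ₘ 0) (2 * p.1 - 1) p.2 -
      ∑ w ∈ WdL r (2 * p.1 - 1), wwt 1 W w * muG (wend 3 w ::ₘ 0) (2 * p.1 - 1 - wvol w) p.2) ≤
      C * muG (3 ::ₘ 0) (2 * p.1 - 1) p.2 := by
  obtain ⟨C, δ, M, hC, hδ, hI⟩ := int_np h r
  have hθ : 0 < θ := h.1
  have hθ1 : θ < 1 := by
    have := h.2.1
    linarith
  refine ⟨C, hC, ?_⟩
  filter_upwards [defi_win hθ hθ1 hδ M] with p hp
  obtain ⟨hw, hg, hn⟩ := hp
  have hodd : Odd (2 * p.1 - 1) := ⟨p.1 - 1, by omega⟩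
  have h1 := hI (2 * p.1 - 1) p.2 ((Wds 3 (2 * p.1 - 1)).filter fun w => GR.lay 3 w < r) hodd hw (by
    intro u hu
    rw [Finset.mem_filter, mem_Wds] at hu
    exact ⟨hu.1.1, hu.1.2, hu.2⟩)
  have h2 := np_tree p.2 hg 3 (2 * p.1 - 1) (by omega) (fun w => GR.lay 3 w = r) (WdL r (2 * p.1 - 1))
    ((Wds 3 (2 * p.1 - 1)).filter fun w => GR.lay 3 w < r) (by
      intro w h3 h4 h5 h6
      refine mem_WdL.2 ⟨h3, h4, h5, fun u hu hne => ?_⟩
      have h7 := lay_pre hu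
      have h8 := h6 u hu hne
      omega) (by
      intro w h3 h4 h5
      rw [Finset.mem_filter, mem_Wds]
      exact ⟨⟨h3, h4⟩, lay_lt hr w h5⟩)
  have h3 : 0 ≤ ∑ u ∈ (Wds 3 (2 * p.1 - 1)).filter fun w => GR.lay 3 w < r,
      wwt 1 W u * NP p.2 (wend 3 u) (2 * p.1 - 1 - wvol u) :=
    Finset.sum_nonneg fun u _ => mul_nonneg (wwt_nonneg zero_le_one (fun k a => W_nonneg k a) u) (NP_nonneg _ _ _)
  have h4 : (p.1 : ℝ) ≤ ((2 * p.1 - 1 : ℕ) : ℝ) := by exact_mod_cast (show p.1 ≤ 2 * p.1 - 1 by omega)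
  have h5 : (0 : ℝ) ≤ p.1 := Nat.cast_nonneg _
  generalize (∑ u ∈ (Wds 3 (2 * p.1 - 1)).filter fun w => GR.lay 3 w < r,
      wwt 1 W u * NP p.2 (wend 3 u) (2 * p.1 - 1 - wvol u)) = X at h1 h2 h3
  refine le_trans ?_ h1
  calc (p.1 : ℝ) * (muG (3 ::ₘ 0) (2 * p.1 - 1) p.2 -
      ∑ w ∈ WdL r (2 * p.1 - 1), wwt 1 W w * muG (wend 3 w ::ₘ 0) (2 * p.1 - 1 - wvol w) p.2)
      ≤ (p.1 : ℝ) * X := mul_le_mul_of_nonneg_left (by linarith) h5
    _ ≤ ((2 * p.1 - 1 : ℕ) : ℝ) * X := mul_le_mul_of_nonneg_right h4 h3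

end SYS.Num
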