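import Pool.Agent.SYS.Lib.HidB

/-!
# SYS-LA-HcV: hidden darts at one vertex are in the same hidden component
-/

namespace SYS
namespace Part

open Classical SST

variable {D : Type} [Finite D]

private theorem hcv_pow {τ : Equiv.Perm D} (i : ℕ) (d : D) : (τ ^ (i + 1)) d = τ ((τ ^ i) d) := by
  rw [pow_succ', Equiv.Perm.mul_apply]

private theorem hcv_step {S : Part D} {T : Tri D} (h : S.Le T) {e : D} (he : e ∈ S.X) :
    ∃ j : ℕ, (T.s ^ (j + 1)) e ∈ S.X ∧ S.Hc T e ((T.s ^ (j + 1)) e) ∧ ∀ i < j, (T.s ^ (i + 1)) e ∉ S.X := by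
  have h1 : T.a e ∈ S.X := (X_a h e).2 he
  have h2 : S.Hc T e (T.a e) := hc_a he
  by_cases hR : T.a e ∈ S.R
  · have hB : T.a e ∈ S.B := by
      rcases h1 with h3 | h3
      · exact absurd hR h3
      · exact h3
    obtain ⟨j, a1, a2, a3⟩ := ret_spec S.s hB
    have key : ∀ i, i ≤ j → (S.s ^ (i + 1)) (T.a e) = (T.s ^ (i + 1)) e ∧ (S.s ^ (i + 1)) (T.a e) ∈ S.R := by
      intro i
      induction i with
      | zero =>
        intro _
        rw [zero_add, pow_one, pow_one]
        refine ⟨?_, (mem_R_s S _).2 hR⟩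
        show S.f (S.a (T.a e)) = T.f (T.a e)
        rw [hB.2]
        exact (h.1 _ hR).symm
      | succ i ih =>
        intro hi
        obtain ⟨b1, b2⟩ := ih (by omega)
        have b3 : (S.s ^ (i + 1)) (T.a e) ∉ S.B := a3 i (by omega)
        rw [hcv_pow (i + 1), hcv_pow (i + 1), ← b1]
        exact ⟨(le_s h b2 b3).symm, (mem_R_s S _).2 b2⟩
    refine ⟨j, ?_, ?_, ?_⟩
    · rw [← (key j le_rfl).1]
      rw [← a1]
      exact Or.inr a2
    · rw [← (key j le_rfl).1]
      have h3 := hc_nx (T := T) hB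
      have h4 : S.nx (T.a e) = (S.s ^ (j + 1)) (T.a e) := a1
      rw [h4] at h3
      exact hc_trans h2 h3
    · intro i hi hx
      rw [← (key i hi.le).1] at hx
      rcases hx with hx | hx
      · exact hx (key i hi.le).2
      · exact a3 i hi hx
  · refine ⟨0, ?_, ?_, fun i hi => absurd hi (Nat.not_lt_zero i)⟩
    · rw [zero_add, pow_one]
      exact Or.inl fun h3 => hR ((le_f_mem h _).1 h3)
    · rw [zero_add, pow_one]
      exact hc_trans h2 (hc_f hR)

theorem hc_vert {S : Part D} {T : Tri D} (h : S.Le T) {u u' : D} (hu : u ∈ S.X) (hu' : u' ∈ S.X)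
    (hs : T.s.SameCycle u u') : S.Hc T u u' := by
  obtain ⟨n, -, hn⟩ := hs.exists_pow_eq'
  induction n using Nat.strong_induction_on generalizing u with
  | _ n ih =>
    rcases Nat.eq_zero_or_pos n with h0 | h0
    · subst h0
      rw [pow_zero, Equiv.Perm.one_apply] at hn
      rw [hn]
      exact hc_refl S T u'
    · obtain ⟨j, h1, h2, h3⟩ := hcv_step h hu
      have hj : j < n := by
        by_contra hcon
        have h4 := h3 (n - 1)
        rcases Nat.lt_or_ge (n - 1) j with h5 | h5
        · apply h4 h5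
          rw [Nat.sub_add_cancel h0, hn]
          exact hu'
        · omega
      refine hc_trans h2 (ih (n - (j + 1)) (by omega) h1 ?_ ?_)
      · have h5 : T.s.SameCycle ((T.s ^ (j + 1)) u) u' := by
          have h6 : T.s.SameCycle u ((T.s ^ (j + 1)) u) := ⟨((j + 1 : ℕ) : ℤ), by rw [zpow_natCast]⟩
          exact h6.symm.trans hs
        exact h5
      · rw [← Equiv.Perm.mul_apply, ← pow_add, Nat.sub_add_cancel (by omega)]
        exact hn

theorem hc_walk {S : Part D} {T : Tri D} (h : S.Le T) {W : List D} {v v' : T.V} (hW : T.IsWalk v W v')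
    (hX : ∀ d ∈ W, d ∈ S.X) : ∀ d ∈ W, ∀ e ∈ W, S.Hc T d e := by
  have key : ∀ (W : List D) (v v' : T.V), T.IsWalk v W v' → (∀ d ∈ W, d ∈ S.X) →
      ∀ d W', W = d :: W' → ∀ e ∈ W, S.Hc T d e := by
    intro W
    induction W with
    | nil =>
      intro v v' _ _ d W' hc
      exact absurd hc (List.cons_ne_nil d W').symm
    | cons d W ih =>
      intro v v' hW hX d' W' hc e he
      obtain ⟨rfl, rfl⟩ := List.cons.inj hc
      rcases List.mem_cons.1 he with rfl | he
      · exact hc_refl S T e
      · cases W with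
        | nil => exact absurd he List.not_mem_nil
        | cons d1 W1 =>
          have hd : d ∈ S.X := hX d List.mem_cons_self
          have hX1 : ∀ d ∈ d1 :: W1, d ∈ S.X := fun k hk => hX k (List.mem_cons_of_mem _ hk)
          have h1 := ih _ _ hW.2 hX1 d1 W1 rfl e he
          have h2 : T.s.SameCycle (T.a d) d1 := by
            have h3 : T.tl d1 = T.hd d := hW.2.1
            exact Quotient.exact h3.symm
          exact hc_trans (hc_a hd) (hc_trans (hc_vert h ((X_a h d).2 hd) (hX1 d1 List.mem_cons_self) h2) h1)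
  intro d hd e he
  cases W with
  | nil => exact absurd hd List.not_mem_nil
  | cons d0 W0 =>
    have h1 := key _ _ _ hW hX d0 W0 rfl
    exact hc_trans (hc_symm (h1 d hd)) (h1 e he)

end Part
end SYS
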