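import Pool.Agent.SYS.LA.Tree
import Pool.Agent.SYS.PL.Gr
import Pool.Agent.SYS.PL.RwB
import Pool.Agent.SYS.PL.RwC
import Pool.Agent.SYS.GR.Plus
import Pool.Agent.SYS.GR.Pre

/-!
# SYS-LA-LayE: the words with less than `r` layers: exponential moments of the total number

PROOF. `lay_mono`: `LS.step` does not decrease `r`.
`lay_vis`: the mass of the words of `I` which end at perimeter `p` is at most `C e^(- c p)`. `gro_plus' (law hx) 1` gives `ε, c₀, C₁`; let `E = exp (2 * kap * r)` (`lay + 1 ≤ r`). For `p ≤ 3 s₀ E` use only `visits` (with `ε = 0`): mass `≤ C`.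
For `p > 3 s₀ E`, `b = p / E ≥ s₀`: every word of `I` which ends at `p` is `u ++ w` with `u` its first prefix with `wend s u = p` and `w` a word from `p` to `p` (`u` determines `w`; the set `V` of the `u` is prefix-free and finite). `PRW x (u ++ w) = PRW x u * PRW x w`
(`wwt_append`); the sum over `w` is `≤ C` by `visits` (`ε = 0`, `s = e = p`) for every `u`; `∑_{u ∈ V} PRW x u ≤ C₁ e^(- c₀ b)` by `gro_plus'` with `U = 1` (a supermartingale: the law has total mass one: `fun _ _ => 1`, `SM` from `tot_pr` / `PRW_pf` for words of length one, or `prod_pf`), `K = 1`,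
`P` larger than `wend` of all prefixes of the words of `V` (finitely many; or `P = s + (max wvol) + 1` by `wend_le`); `law_ww : (law hx).ww = PRW x`.
`lay_exp`: for fixed `p`, by Cauchy-Schwarz (`Finset.sum_mul_sq_le_sq_mul_sq` or `Finset.inner_mul_le_norm_mul_norm`), `(∑_{wend = p} PRW e^(ε wvol))^2 ≤ (∑ PRW) (∑ PRW e^(2 ε wvol)) ≤ C e^(- c p) * C e^(C 2 ε p)` (`visits` with `2 ε ≤ ε₀`). With `C 2 ε ≤ c / 2` this gives
`∑_{wend = p} PRW e^(ε wvol) ≤ C e^(- c p / 4)`; with `ε ≤ c / 8` the sum over `p` of `e^(ε p) C e^(- c p / 4)` is at most `C / (1 - e^(- c / 8))`. (`Finset.sum_fiberwise` over `I.image (wend s)`, then a geometric series.)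
-/

namespace SYS.Num

open Real

variable {x : ℝ}

theorem lay_mono {s : ℕ} {u w : List Stp} (h : u <+: w) : GR.lay s u ≤ GR.lay s w := by
  obtain ⟨v, rfl⟩ := h
  unfold GR.lay
  rw [GR.lrun_append]
  exact GR.lrun_r_le _ v

private theorem le_fh_nil {s p : ℕ} (h : s = p) : FH s p [] := by
  refine ⟨trivial, h, ?_⟩
  intro u hu hn
  exact (hn (List.prefix_nil.1 hu)).elim

private theorem le_fh_cons {s p : ℕ} {t : Stp} {w : List Stp} (h1 : s ≠ p) (h2 : t.Ok s) (h3 : FH (t.nx s) p w) :
    FH s p (t :: w) := by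
  obtain ⟨h3, h4, h5⟩ := h3
  refine ⟨⟨h2, h3⟩, h4, ?_⟩
  intro u hu hn
  cases u with
  | nil => exact h1
  | cons t' u =>
    obtain ⟨h6, h7⟩ := List.cons_prefix_cons.1 hu
    rw [h6] at hn ⊢
    exact h5 u h7 (fun h => hn (by rw [h]))

private theorem le_pfx {a : ℕ} : ∀ {s : ℕ} {w : List Stp}, WOk s w → wend s w = a → FH s a (pfx a s w) := by
  intro s w
  induction w generalizing s with
  | nil => exact fun _ h => le_fh_nil h
  | cons t w ih =>
    intro h he
    have e1 : pfx a s (t :: w) = if s = a then [] else t :: pfx a (t.nx s) w := rfl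
    rw [e1]
    by_cases h1 : s = a
    · rw [if_pos h1]
      exact le_fh_nil h1
    · rw [if_neg h1]
      exact le_fh_cons h1 h.1 (ih h.2 he)

private theorem le_sm (hx : 0 < x) : GR.SM (law hx) (fun _ _ => 1) := by
  refine ⟨fun _ _ => zero_le_one, fun p v F _ _ => ?_⟩
  have h1 := GR.fin_le_E (law hx) (GR.gr_const (law hx) 1) (fun _ => zero_le_one) F
  rwa [GR.E_one] at h1

private theorem le_pnn (hx : 0 < x) (w : List Stp) : 0 ≤ PRW x w := (law hx).ww_nonneg w

theorem lay_vis (hx : 0 < x) (s₀ r : ℕ) : ∃ c C : ℝ, 0 < c ∧ 0 < C ∧ ∀ (s p : ℕ) (I : Finset (List Stp)), 1 ≤ s → s ≤ s₀ →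
    (∀ w ∈ I, WOk s w ∧ GR.lay s w < r ∧ wend s w = p) → ∑ w ∈ I, PRW x w ≤ C * exp (-c * p) := by
  classical
  obtain ⟨Cv, cv, εv, hCv, hcv, hεv, hv⟩ := visits hx
  have hv0 : ∀ (s e : ℕ) (S : Finset (List Stp)), (∀ w ∈ S, WOk s w ∧ wend s w = e) →
      ∑ w ∈ S, PRW x w ≤ Cv := by
    intro s e S hS
    have h1 := hv 0 le_rfl hεv.le s e S hS
    have h2 : ∑ w ∈ S, PRW x w = ∑ w ∈ S, PRW x w * exp (0 * wvol w) := by
      refine Finset.sum_congr rfl fun w _ => ?_
      rw [zero_mul, exp_zero, mul_one]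
    rw [h2]
    refine h1.trans ?_
    have h3 : exp (Cv * 0 * ((e - s : ℕ) : ℝ) - cv * ((s - e : ℕ) : ℝ)) ≤ 1 := by
      rw [exp_le_one_iff, mul_zero, zero_mul, zero_sub]
      have : 0 ≤ cv * ((s - e : ℕ) : ℝ) := by positivity
      linarith
    calc Cv * exp (Cv * 0 * ((e - s : ℕ) : ℝ) - cv * ((s - e : ℕ) : ℝ)) ≤ Cv * 1 :=
          mul_le_mul_of_nonneg_left h3 hCv.le
      _ = Cv := mul_one _
  obtain ⟨ε, c₀, C₁, hε, hc₀, hC₁, hg⟩ := GR.gro_plus' (law hx) 1 one_pos
  set E : ℝ := exp ((1 + 1) * (law hx).kap * r) with hE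
  have hEpos : 0 < E := exp_pos _
  have hE1 : 1 ≤ E := by
    rw [hE]
    apply one_le_exp
    have := (law hx).kap_pos
    positivity
  refine ⟨c₀ / E, Cv * (C₁ + 1) * exp (c₀ * s₀), by positivity, by positivity, ?_⟩
  intro s p I hs hs₀ hI
  by_cases hp : (s₀ : ℝ) * E ≤ p
  · -- large perimeter
    set V : Finset (List Stp) := I.image (pfx p s) with hV
    have hfh : ∀ w ∈ I, FH s p (pfx p s w) := fun w hw => le_pfx (hI w hw).1 (hI w hw).2.2
    have hVfh : ∀ u ∈ V, FH s p u ∧ GR.lay s u < r := by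
      intro u hu
      rw [hV, Finset.mem_image] at hu
      obtain ⟨w, hw, rfl⟩ := hu
      refine ⟨hfh w hw, lt_of_le_of_lt (lay_mono ?_) (hI w hw).2.1⟩
      exact ⟨sfx p s w, pfx_sfx p s w⟩
    have h1 : ∑ w ∈ I, PRW x w ≤ ∑ u ∈ V, PRW x u * Cv := by
      rw [← Finset.sum_fiberwise_of_maps_to (g := pfx p s) (t := V)
        (fun w hw => Finset.mem_image_of_mem _ hw)]
      refine Finset.sum_le_sum fun u hu => ?_
      have h2 : ∑ w ∈ I.filter (fun w => pfx p s w = u), PRW x w =
          PRW x u * ∑ w ∈ (I.filter (fun w => pfx p s w = u)).image (sfx p s), PRW x w := by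
        rw [Finset.sum_image, Finset.mul_sum]
        · refine Finset.sum_congr rfl fun w hw => ?_
          have h3 := (Finset.mem_filter.1 hw).2
          have h4 := pfx_sfx p s w
          rw [h3] at h4
          show wwt _ _ w = wwt _ _ u * wwt _ _ (sfx p s w)
          rw [← wwt_append, h4]
        · intro w hw w' hw' he
          have h3 := (Finset.mem_filter.1 hw).2
          have h3' := (Finset.mem_filter.1 hw').2
          rw [← pfx_sfx p s w, ← pfx_sfx p s w', h3, h3', he]
      rw [h2]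
      refine mul_le_mul_of_nonneg_left ?_ (le_pnn hx u)
      refine hv0 p p _ fun w hw => ?_
      rw [Finset.mem_image] at hw
      obtain ⟨w', hw', rfl⟩ := hw
      have hw'I := (Finset.mem_filter.1 hw').1
      have h5 := hfh w' hw'I
      have h6 := (hI w' hw'I).1
      have h7 := (hI w' hw'I).2.2
      rw [← pfx_sfx p s w', WOk_append, h5.2.1] at h6
      rw [← pfx_sfx p s w', wend_append, h5.2.1] at h7
      exact ⟨h6.2, h7⟩
    have h2 : ∑ u ∈ V, PRW x u ≤ C₁ * exp (-(c₀ / E) * p) := by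
      have h3 := hg s (p / E) ((s : ℝ) + (V.sup wvol : ℕ) + 1) 1 (fun _ _ => 1) V hs ?_ zero_le_one (le_sm hx) ?_ ?_ ?_
      · have h4 : ∑ w ∈ V, (law hx).ww w * (1 : ℝ) = ∑ u ∈ V, PRW x u := by
          refine Finset.sum_congr rfl fun w _ => ?_
          rw [mul_one, law_ww]
        have h5 : -c₀ * (p / E) = -(c₀ / E) * p := by ring
        rw [h4, mul_one, h5] at h3
        exact h3
      · rw [le_div_iff₀ hEpos]
        refine le_trans ?_ hp
        exact mul_le_mul_of_nonneg_right (by exact_mod_cast hs₀) hEpos.le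
      · intro p' v' _ _
        rw [one_mul]
        apply one_le_exp
        positivity
      · intro u hu w hw huw
        exact FH_eq (hVfh u hu).1 (hVfh w hw).1 huw
      · intro u hu
        obtain ⟨h4, h5⟩ := hVfh u hu
        refine ⟨h4.1, ?_, Or.inl ?_⟩
        · intro u' hu' _
          obtain ⟨v, rfl⟩ := hu'
          have h6 : WOk s u' := ((WOk_append s u' v).1 h4.1).1
          have h7 := GR.wend_le s u' h6
          have h8 : wvol u' ≤ V.sup wvol := by
            have h9 := Finset.le_sup (f := wvol) hu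
            rw [wvol_append] at h9
            omega
          have h10 : wend s u' < s + V.sup wvol + 1 := by omega
          exact_mod_cast h10
        · rw [h4.2.1]
          have h6 : exp ((1 + 1) * (law hx).kap * ((GR.lay s u : ℝ) + 1)) ≤ E := by
            rw [hE]
            apply exp_le_exp.2
            refine mul_le_mul_of_nonneg_left ?_ ?_
            · exact_mod_cast h5
            · have := (law hx).kap_pos
              positivity
          calc (p : ℝ) / E * exp ((1 + 1) * (law hx).kap * ((GR.lay s u : ℝ) + 1)) ≤ p / E * E :=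
                mul_le_mul_of_nonneg_left h6 (by positivity)
            _ = p := div_mul_cancel₀ _ hEpos.ne'
    have h3 : 1 ≤ exp (c₀ * s₀) := one_le_exp (by positivity)
    calc ∑ w ∈ I, PRW x w ≤ ∑ u ∈ V, PRW x u * Cv := h1
      _ = Cv * ∑ u ∈ V, PRW x u := by rw [← Finset.sum_mul, mul_comm]
      _ ≤ Cv * (C₁ * exp (-(c₀ / E) * p)) := mul_le_mul_of_nonneg_left h2 hCv.le
      _ = Cv * C₁ * 1 * exp (-(c₀ / E) * p) := by ring
      _ ≤ Cv * (C₁ + 1) * exp (c₀ * s₀) * exp (-(c₀ / E) * p) := by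
        refine mul_le_mul_of_nonneg_right ?_ (exp_pos _).le
        refine mul_le_mul ?_ h3 zero_le_one (by positivity)
        exact mul_le_mul_of_nonneg_left (by linarith) hCv.le
  · -- small perimeter
    push Not at hp
    have h1 := hv0 s p I fun w hw => ⟨(hI w hw).1, (hI w hw).2.2⟩
    have h2 : 1 ≤ exp (c₀ * s₀) * exp (-(c₀ / E) * p) := by
      rw [← exp_add]
      apply one_le_exp
      have h3 : c₀ / E * p ≤ c₀ * s₀ := by
        rw [div_mul_eq_mul_div, div_le_iff₀ hEpos, mul_assoc]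
        exact mul_le_mul_of_nonneg_left hp.le hc₀.le
      linarith
    calc ∑ w ∈ I, PRW x w ≤ Cv := h1
      _ = Cv * 1 * 1 := by ring
      _ ≤ Cv * (C₁ + 1) * (exp (c₀ * s₀) * exp (-(c₀ / E) * p)) := by
        refine mul_le_mul ?_ h2 zero_le_one (by positivity)
        exact mul_le_mul_of_nonneg_left (by linarith) hCv.le
      _ = _ := by ring

private theorem le_amgm (a τ : ℝ) : exp a ≤ (exp τ + exp (2 * a - τ)) / 2 := by
  have h1 : exp τ = exp (τ / 2) ^ 2 := by
    rw [← exp_nat_mul]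
    congr 1
    push_cast
    ring
  have h2 : exp (2 * a - τ) = exp (a - τ / 2) ^ 2 := by
    rw [← exp_nat_mul]
    congr 1
    push_cast
    ring
  have h3 : exp a = exp (τ / 2) * exp (a - τ / 2) := by
    rw [← exp_add]
    congr 1
    ring
  rw [h1, h2, h3]
  nlinarith [sq_nonneg (exp (τ / 2) - exp (a - τ / 2))]

private theorem le_geo (c : ℝ) (hc : 0 < c) (P : Finset ℕ) : ∑ p ∈ P, exp (-c * p) ≤ (1 - exp (-c))⁻¹ := by
  have h0 : 0 ≤ exp (-c) := (exp_pos _).le
  have h1 : exp (-c) < 1 := by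
    rw [exp_lt_one_iff]
    linarith
  have h2 : ∑ p ∈ P, exp (-c * p) = ∑ p ∈ P, exp (-c) ^ p := by
    refine Finset.sum_congr rfl fun p _ => ?_
    rw [← exp_nat_mul, mul_comm]
  rw [h2, ← tsum_geometric_of_lt_one h0 h1]
  exact (summable_geometric_of_lt_one h0 h1).sum_le_tsum P fun _ _ => pow_nonneg h0 _

theorem lay_exp (hx : 0 < x) (s₀ r : ℕ) : ∃ ε C : ℝ, 0 < ε ∧ 0 < C ∧ ∀ (s : ℕ) (I : Finset (List Stp)), 1 ≤ s → s ≤ s₀ →
    (∀ w ∈ I, WOk s w ∧ GR.lay s w < r) →
    ∑ w ∈ I, PRW x w * exp (ε * ((wend s w : ℝ) + wvol w)) ≤ C := by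
  classical
  obtain ⟨c, C₂, hc, hC₂, hl⟩ := lay_vis hx s₀ r
  obtain ⟨Cv, cv, εv, hCv, hcv, hεv, hv⟩ := visits hx
  obtain ⟨ε, hε, h2ε, hε1, hε2⟩ : ∃ ε : ℝ, 0 < ε ∧ 2 * ε ≤ εv ∧ Cv * (2 * ε) ≤ c / 4 ∧ ε ≤ c / 8 := by
    refine ⟨min (εv / 2) (min (c / (8 * Cv)) (c / 8)), ?_, ?_, ?_, ?_⟩
    · refine lt_min (by positivity) (lt_min (by positivity) (by positivity))
    · have := min_le_left (εv / 2) (min (c / (8 * Cv)) (c / 8))
      linarith
    · have h1 : min (εv / 2) (min (c / (8 * Cv)) (c / 8)) ≤ c / (8 * Cv) :=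
        (min_le_right _ _).trans (min_le_left _ _)
      calc Cv * (2 * min (εv / 2) (min (c / (8 * Cv)) (c / 8))) ≤ Cv * (2 * (c / (8 * Cv))) := by
            refine mul_le_mul_of_nonneg_left (by linarith) hCv.le
        _ = c / 4 := by
          field_simp
          norm_num
    · exact (min_le_right _ _).trans (min_le_right _ _)
  have hd : 0 < 1 - exp (-(c / 8)) := by
    have : exp (-(c / 8)) < 1 := by
      rw [exp_lt_one_iff]
      linarith [div_pos hc (by norm_num : (0 : ℝ) < 8)]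
    linarith
  refine ⟨ε, (C₂ + Cv) * (1 - exp (-(c / 8)))⁻¹, hε, by positivity, ?_⟩
  intro s I hs hs₀ hI
  -- one fibre
  have hfib : ∀ p : ℕ, ∑ w ∈ I.filter (fun w => wend s w = p), PRW x w * exp (ε * ((wend s w : ℝ) + wvol w)) ≤
      (C₂ + Cv) * exp (-(c / 8) * p) := by
    intro p
    have h1 := hl s p (I.filter fun w => wend s w = p) hs hs₀ fun w hw => by
      rw [Finset.mem_filter] at hw
      exact ⟨(hI w hw.1).1, (hI w hw.1).2, hw.2⟩
    have h2 := hv (2 * ε) (by positivity) h2ε s p (I.filter fun w => wend s w = p) fun w hw => by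
      rw [Finset.mem_filter] at hw
      exact ⟨(hI w hw.1).1, hw.2⟩
    have h3 : exp (Cv * (2 * ε) * ((p - s : ℕ) : ℝ) - cv * ((s - p : ℕ) : ℝ)) ≤ exp (c / 4 * p) := by
      apply exp_le_exp.2
      have h4 : ((p - s : ℕ) : ℝ) ≤ p := by exact_mod_cast Nat.sub_le p s
      have h5 : 0 ≤ cv * ((s - p : ℕ) : ℝ) := by positivity
      have h6 : Cv * (2 * ε) * ((p - s : ℕ) : ℝ) ≤ c / 4 * p :=
        mul_le_mul hε1 h4 (Nat.cast_nonneg _) (by positivity)
      linarith
    have h4 : ∑ w ∈ I.filter (fun w => wend s w = p), PRW x w * exp (ε * ((wend s w : ℝ) + wvol w)) ≤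
        ∑ w ∈ I.filter (fun w => wend s w = p), exp (c / 8 * p) *
          ((exp (c / 2 * p) * PRW x w + exp (-(c / 2) * p) * (PRW x w * exp (2 * ε * wvol w))) / 2) := by
      refine Finset.sum_le_sum fun w hw => ?_
      rw [Finset.mem_filter] at hw
      rw [hw.2, mul_add, exp_add]
      have h5 : exp (ε * p) ≤ exp (c / 8 * p) := exp_le_exp.2 (mul_le_mul_of_nonneg_right hε2 (Nat.cast_nonneg _))
      have h6 := le_amgm (ε * wvol w) (c / 2 * p)
      have h7 : exp (2 * (ε * (wvol w : ℝ)) - c / 2 * p) = exp (-(c / 2) * p) * exp (2 * ε * wvol w) := by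
        rw [← exp_add]
        congr 1
        ring
      rw [h7] at h6
      have h8 := le_pnn hx w
      calc PRW x w * (exp (ε * p) * exp (ε * wvol w)) ≤ PRW x w * (exp (c / 8 * p) *
            ((exp (c / 2 * p) + exp (-(c / 2) * p) * exp (2 * ε * wvol w)) / 2)) := by
              refine mul_le_mul_of_nonneg_left ?_ h8
              exact mul_le_mul h5 h6 (exp_pos _).le (exp_pos _).le
        _ = _ := by ring
    refine h4.trans ?_
    rw [← Finset.mul_sum, ← Finset.sum_div, Finset.sum_add_distrib, ← Finset.mul_sum, ← Finset.mul_sum]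
    have h5 : exp (c / 2 * p) * ∑ w ∈ I.filter (fun w => wend s w = p), PRW x w ≤ C₂ * exp (-(c / 4) * p) := by
      calc exp (c / 2 * p) * ∑ w ∈ I.filter (fun w => wend s w = p), PRW x w ≤
            exp (c / 2 * p) * (C₂ * exp (-c * p)) := mul_le_mul_of_nonneg_left h1 (exp_pos _).le
        _ = C₂ * exp (-(c / 2) * p) := by
          have h6 : exp (-(c / 2) * p) = exp (c / 2 * p) * exp (-c * p) := by
            rw [← exp_add]
            congr 1
            ring
          rw [h6]
          ring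
        _ ≤ C₂ * exp (-(c / 4) * p) := by
          refine mul_le_mul_of_nonneg_left (exp_le_exp.2 ?_) hC₂.le
          have : 0 ≤ c * p := by positivity
          linarith
    have h6 : exp (-(c / 2) * p) * ∑ w ∈ I.filter (fun w => wend s w = p), PRW x w * exp (2 * ε * wvol w) ≤
        Cv * exp (-(c / 4) * p) := by
      calc exp (-(c / 2) * p) * ∑ w ∈ I.filter (fun w => wend s w = p), PRW x w * exp (2 * ε * wvol w) ≤
            exp (-(c / 2) * p) * (Cv * exp (c / 4 * p)) := by
              refine mul_le_mul_of_nonneg_left (h2.trans ?_) (exp_pos _).le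
              exact mul_le_mul_of_nonneg_left h3 hCv.le
        _ = Cv * exp (-(c / 4) * p) := by
          have h6 : exp (-(c / 4) * p) = exp (-(c / 2) * p) * exp (c / 4 * p) := by
            rw [← exp_add]
            congr 1
            ring
          rw [h6]
          ring
    calc exp (c / 8 * p) * ((exp (c / 2 * p) * ∑ w ∈ I.filter (fun w => wend s w = p), PRW x w +
          exp (-(c / 2) * p) * ∑ w ∈ I.filter (fun w => wend s w = p), PRW x w * exp (2 * ε * wvol w)) / 2) ≤
          exp (c / 8 * p) * ((C₂ * exp (-(c / 4) * p) + Cv * exp (-(c / 4) * p)) / 2) := by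
            refine mul_le_mul_of_nonneg_left ?_ (exp_pos _).le
            linarith
      _ = (C₂ + Cv) * exp (-(c / 8) * p) / 2 := by
        have h7 : exp (-(c / 8) * p) = exp (c / 8 * p) * exp (-(c / 4) * p) := by
          rw [← exp_add]
          congr 1
          ring
        rw [h7]
        ring
      _ ≤ (C₂ + Cv) * exp (-(c / 8) * p) := by
        have : 0 ≤ (C₂ + Cv) * exp (-(c / 8) * p) := by positivity
        linarith
  rw [← Finset.sum_fiberwise_of_maps_to (g := wend s) (t := I.image (wend s))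
    (fun w hw => Finset.mem_image_of_mem _ hw)]
  calc ∑ p ∈ I.image (wend s), ∑ w ∈ I.filter (fun w => wend s w = p), PRW x w * exp (ε * ((wend s w : ℝ) + wvol w)) ≤
        ∑ p ∈ I.image (wend s), (C₂ + Cv) * exp (-(c / 8) * p) := Finset.sum_le_sum fun p _ => hfib p
    _ = (C₂ + Cv) * ∑ p ∈ I.image (wend s), exp (-(c / 8) * p) := by rw [Finset.mul_sum]
    _ ≤ (C₂ + Cv) * (1 - exp (-(c / 8)))⁻¹ :=
      mul_le_mul_of_nonneg_left (le_geo _ (by positivity) _) (by positivity)

end SYS.Num
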