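import Pool.Agent.SYS.LA.NpLe
import Pool.Agent.SYS.LA.LayE
import Pool.Agent.SYS.VI.GroS
import Pool.Agent.SYS.VI.GroW

/-!
# SYS-LA-IntW: a non-planar step before `r` layers are completed has probability `O (1 / F)`

PROOF. Start `s = 3`, no other holes (`Q = 0`, `p = 0`: `(0 + wend) ::ₘ 0`). Notation: `lay_exp hx 3 r`: `ε, C₁`. `np_le` with this `ε`: `K, δa, Ma`. `UM_le h` (with the `ε` of `GR.gro_plus' (law hx) 1`), `far_vol_s h 3`, as in `VI/GroK.lean`: `K₂, δ₂, M₂`, `c₁, δ₄, M₄` for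
`δN = min δ₂ (min (δa / 4) 1)`; `N = ⌊δN F⌋`, `P = min δ₄ (δa / 4) * F` (all prefixes of a word with `wend < P`, `wvol ≤ N` are in the window of `np_le`: `(wend + wvol) ≤ δa F`).
(1) good words of `I`: `wvol u ≤ N` and `wend 3 v < P` for all prefixes `v` of `u`. `np_le` at `p = wend 3 u`, `v = wvol u`, and `wwt 1 W u * gam x ^ (wend 3 u) * √(yy x) ^ (wvol u) = PRW x u * gam x ^ 3` (from `PRW_eq`, `gam x = AA x / √(yy x)`): so
`F * ∑ wwt 1 W u * NP g (wend 3 u) (F - wvol u) ≤ K gam x ^ 3 * muG (3 ::ₘ 0) F g * ∑ PRW x u e^(ε (wend + wvol)) ≤ K gam x ^ 3 C₁ muG (3 ::ₘ 0) F g`.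
(2) the other words of `I`: every such `u` has a least prefix `v` with `P ≤ wend 3 v` or `N < wvol v`; `u = v ++ w`, `wwt 1 W u = wwt 1 W v * wwt 1 W w`; for fixed `v` the sum over `w` (a finite set of words from `wend 3 v` with `wvol w ≤ F - wvol v`) of
`wwt 1 W w * NP g (wend (wend 3 v) w) (F - wvol v - wvol w)` is `≤ muG (wend 3 v ::ₘ 0) (F - wvol v) g` by `hist_abs_all` and `np_stepw`. The set `V` of the `v` is finite, prefix-free, `lay 3 v < r` (`lay_mono`). `∑_{v ∈ V} wwt 1 W v * muG (wend 3 v ::ₘ 0) (F - wvol v) g ≤ (1 / F) muG (3 ::ₘ 0) F g`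
for large `F` exactly as for the far words in `VI/GroK.lean` (`hA`: `N < wvol v`, `far_vol_s`; `hB`: `wvol v ≤ N`, `P ≤ wend 3 v`, `gro_plus'` with `b = P / E`, `E = exp (2 * kap * (r + 1))`, and `UM_sum`).
-/

namespace SYS.Num

open Real

variable {θ x : ℝ}

private theorem iw_g {θ : ℝ} {δ : ℝ} (hδ : δ < θ) {M : ℕ} (hM : 1 ≤ M) {P : Multiset ℕ}
    {F g : ℕ} (h : Win θ δ M P F g) : g ≠ 0 := by
  intro h0
  have h1 := h.2.1
  rw [h0, Nat.cast_zero, mul_zero, zero_sub, abs_neg] at h1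
  have h2 : (1 : ℝ) ≤ F := by exact_mod_cast hM.trans h.1
  have h3 : θ * (F : ℝ) ≤ δ * F := (le_abs_self _).trans h1
  nlinarith

private theorem iw_dec {a : ℝ} (ha : 0 < a) {η : ℝ} (hη : 0 < η) :
    ∃ M : ℕ, ∀ F : ℕ, M ≤ F → (F : ℝ) * Real.exp (-a * F) ≤ η := by
  have h1 := (Real.summable_pow_mul_exp_neg_nat_mul 1 ha).tendsto_atTop_zero
  obtain ⟨M, hM⟩ := Filter.eventually_atTop.1 (h1.eventually (ge_mem_nhds hη))
  refine ⟨M, fun F hF => ?_⟩
  have h2 := hM F hF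
  rw [pow_one] at h2
  exact h2

private theorem iw_eq0 (hx : 0 < x) {Q : Multiset ℕ} {g p s F : ℕ} {w : List Stp} (hs : 1 ≤ s)
    (h : Q ≠ 0 ∨ g ≠ 0) (hw : WOk s w) (hv : wvol w ≤ F) :
    wwt 1 W w * muG ((p + wend s w) ::ₘ Q) (F - wvol w) g =
      (law hx).ww w * UM x Q g p s F F (wend s w) (wvol w) * muG ((p + s) ::ₘ Q) F g := by
  obtain ⟨h1, h2⟩ := WOk_shift p hw
  have hA : 0 < AA x := by
    have := AA_gt x
    linarith
  have hy : 0 < √(yy x) := Real.sqrt_pos.2 (yy_pos x)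
  have h3 := word_UU x Q g (s + p) F w h1 hv
  rw [h2] at h3
  have e1 : wend s w + p = p + wend s w := add_comm _ _
  have e2 : s + p = p + s := add_comm _ _
  rw [e1, e2] at h3
  have hcc : 0 < √(yy x) ^ (F + (p + s)) / AA x ^ (p + s) := by positivity
  have hUU : UU x Q g (p + s) F =
      muG ((p + s) ::ₘ Q) F g * (√(yy x) ^ (F + (p + s)) / AA x ^ (p + s)) := by
    unfold UU
    rw [mul_div_assoc]
  rcases eq_or_ne (muG ((p + s) ::ₘ Q) F g) 0 with h0 | h0
  · rw [h0, mul_zero]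
    have h4 := hist (p + s) (by omega) Q F g h {w} (by
      intro u hu v hv' _
      rw [Finset.mem_singleton.1 hu, Finset.mem_singleton.1 hv']) (by
      intro v hv'
      rw [Finset.mem_singleton.1 hv', ← e2]
      exact ⟨h1, hv⟩)
    rw [Finset.sum_singleton, h0, ← e2, h2, e1] at h4
    exact le_antisymm h4 (mul_nonneg (wwt_nonneg zero_le_one (fun k a => muG_nonneg _ _ _) w)
      (muG_nonneg _ _ _))
  · unfold UM
    rw [if_pos hv, hUU, law_ww]
    have h5 : wwt 1 W w * muG ((p + wend s w) ::ₘ Q) (F - wvol w) g =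
        PRW x w * UU x Q g (p + wend s w) (F - wvol w) /
          (√(yy x) ^ (F + (p + s)) / AA x ^ (p + s)) := by
      rw [eq_div_iff hcc.ne']
      exact h3
    rw [h5]
    generalize √(yy x) ^ (F + (p + s)) / AA x ^ (p + s) = cc at hcc
    field_simp

private theorem iw_eq (hx : 0 < x) {g s F : ℕ} {w : List Stp} (hs : 1 ≤ s)
    (h : g ≠ 0) (hw : WOk s w) (hv : wvol w ≤ F) :
    wwt 1 W w * muG (wend s w ::ₘ 0) (F - wvol w) g =
      (law hx).ww w * UM x 0 g 0 s F F (wend s w) (wvol w) * muG (s ::ₘ 0) F g := by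
  have h1 := iw_eq0 hx (Q := 0) (p := 0) hs (Or.inr h) hw hv
  rw [Nat.zero_add, Nat.zero_add] at h1
  exact h1

private theorem iw_split {Z Φ : ℕ → ℕ → ℝ} (h0 : ∀ p F, 0 ≤ Φ p F) (hZ : ∀ p F, 0 ≤ Z p F)
    (hs : Stepw Z Φ) (s F : ℕ) (hs1 : 1 ≤ s) (B : Finset (List Stp))
    (hB : ∀ u ∈ B, WOk s u ∧ wvol u ≤ F) (b : List Stp → Prop)
    (hb : ∀ u ∈ B, ∃ v, v <+: u ∧ b v) :
    ∃ V : Finset (List Stp), PF V ∧
      (∀ v ∈ V, b v ∧ (∀ v', v' <+: v → v' ≠ v → ¬ b v') ∧ ∃ u ∈ B, v <+: u) ∧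
      ∑ u ∈ B, wwt 1 W u * Z (wend s u) (F - wvol u) ≤
        ∑ v ∈ V, wwt 1 W v * Φ (wend s v) (F - wvol v) := by
  classical
  have hex : ∀ u ∈ B, ∃ v, v <+: u ∧ b v ∧ ∀ v', v' <+: v → v' ≠ v → ¬ b v' := by
    intro w hw
    have h0 : ∃ n, b (w.take n) := by
      obtain ⟨u, hu, hbu⟩ := hb w hw
      exact ⟨u.length, by rw [← List.prefix_iff_eq_take.mp hu]; exact hbu⟩
    refine ⟨w.take (Nat.find h0), List.take_prefix _ _, Nat.find_spec h0, ?_⟩
    intro v' hv' hne hbv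
    have h1 : v'.length < Nat.find h0 := by
      have h2 : v'.length < (w.take (Nat.find h0)).length := by
        refine lt_of_le_of_ne hv'.length_le ?_
        intro h3
        exact hne (hv'.eq_of_length h3)
      rw [List.length_take] at h2
      omega
    refine Nat.find_min h0 h1 ?_
    have h3 : v' <+: w := hv'.trans (List.take_prefix _ _)
    rw [← List.prefix_iff_eq_take.mp h3]
    exact hbv
  choose! fp h1 h2 h3 using hex
  refine ⟨B.image fp, ?_, ?_, ?_⟩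
  · intro u hu w hw huw
    obtain ⟨u', hu', rfl⟩ := Finset.mem_image.1 hu
    obtain ⟨w', hw', rfl⟩ := Finset.mem_image.1 hw
    by_contra hne
    exact h3 w' hw' _ huw hne (h2 u' hu')
  · intro v hv
    obtain ⟨u, hu, rfl⟩ := Finset.mem_image.1 hv
    exact ⟨h2 u hu, h3 u hu, u, hu, h1 u hu⟩
  · have hmap : ∀ u ∈ B, fp u ∈ B.image fp := fun u hu => Finset.mem_image_of_mem fp hu
    rw [← Finset.sum_fiberwise_of_maps_to hmap]
    refine Finset.sum_le_sum fun v hv => ?_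
    obtain ⟨u₀, hu₀, hv₀⟩ := Finset.mem_image.1 hv
    have hpre : ∀ u ∈ B.filter (fun u => fp u = v), v ++ u.drop v.length = u := by
      intro u hu
      obtain ⟨a1, a2⟩ := Finset.mem_filter.1 hu
      have a3 := h1 u a1
      rw [a2] at a3
      obtain ⟨t, rfl⟩ := a3
      rw [List.drop_left]
    have hinj : Set.InjOn (fun u : List Stp => u.drop v.length)
        (B.filter (fun u => fp u = v) : Finset (List Stp)) := by
      intro u hu u' hu' huu
      have huu' : u.drop v.length = u'.drop v.length := huu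
      rw [← hpre u hu, ← hpre u' hu', huu']
    have hok : WOk s v ∧ wvol v ≤ F := by
      obtain ⟨t, ht⟩ := h1 u₀ hu₀
      rw [hv₀] at ht
      obtain ⟨b1, b2⟩ := hB u₀ hu₀
      rw [← ht] at b1 b2
      rw [wvol_append] at b2
      exact ⟨((WOk_append s v t).1 b1).1, by omega⟩
    have hsum := hist_abs_all h0 hZ hs (wend s v) (F - wvol v) (one_le_wend hs1 hok.1)
      ((B.filter (fun u => fp u = v)).image (fun u : List Stp => u.drop v.length)) (by
        intro w hw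
        obtain ⟨u, hu, rfl⟩ := Finset.mem_image.1 hw
        obtain ⟨b1, b2⟩ := hB u (Finset.mem_filter.1 hu).1
        rw [← hpre u hu] at b1 b2
        rw [wvol_append] at b2
        refine ⟨((WOk_append s v _).1 b1).2, ?_⟩
        show wvol (u.drop v.length) ≤ F - wvol v
        omega)
    rw [Finset.sum_image hinj] at hsum
    have hv0 : 0 ≤ wwt 1 W v := wwt_nonneg zero_le_one W_nonneg v
    have hsum2 := mul_le_mul_of_nonneg_left hsum hv0
    refine le_trans (le_of_eq ?_) hsum2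
    rw [Finset.mul_sum]
    refine Finset.sum_congr rfl fun u hu => ?_
    have e := hpre u hu
    have e1 : wwt 1 W u = wwt 1 W v * wwt 1 W (u.drop v.length) := by
      rw [← wwt_append, e]
    have e2 : wend s u = wend (wend s v) (u.drop v.length) := by
      rw [← wend_append, e]
    have e3 : wvol u = wvol v + wvol (u.drop v.length) := by
      rw [← wvol_append, e]
    rw [e1, e2, e3, Nat.sub_sub, mul_assoc]

private theorem iw_prw (x : ℝ) (u : List Stp) (h : WOk 3 u) :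
    wwt 1 W u * gam x ^ (wend 3 u) * √(yy x) ^ (wvol u) = PRW x u * gam x ^ 3 := by
  have hy : 0 < √(yy x) := Real.sqrt_pos.2 (yy_pos x)
  have h1 := PRW_eq x 3 u h
  unfold gam
  rw [div_pow, div_pow, mul_div_assoc', div_mul_eq_mul_div, mul_div_assoc', div_eq_div_iff
    (by positivity) (by positivity)]
  rw [h1, pow_add]
  ring

theorem int_np (h : Par θ x) (r : ℕ) : ∃ (C δ : ℝ) (M : ℕ), 0 < C ∧ 0 < δ ∧
    ∀ (F g : ℕ) (I : Finset (List Stp)), Odd F → Win θ δ M (3 ::ₘ 0) F g →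
      (∀ u ∈ I, WOk 3 u ∧ wvol u ≤ F ∧ GR.lay 3 u < r) →
      (F : ℝ) * ∑ u ∈ I, wwt 1 W u * NP g (wend 3 u) (F - wvol u) ≤ C * muG (3 ::ₘ 0) F g := by
  classical
  have hx : 0 < x := h.2.2.1
  obtain ⟨ε, C₁, hε, hC₁, hlay⟩ := lay_exp hx 3 r
  obtain ⟨Kn, δa, Ma, hKn, hδa, hnp⟩ := np_le h hε
  obtain ⟨ε₂, c, C₂, hε₂, hc, hC₂, hgro⟩ := GR.gro_plus' (law hx) 1 one_pos
  obtain ⟨K, δ₂, M₂, hK, hδ₂, hUM⟩ := UM_le h hε₂ 3
  obtain ⟨δN, hδN, hδN2, hδNa, hδN1⟩ : ∃ δN : ℝ, 0 < δN ∧ δN ≤ δ₂ ∧ δN ≤ δa / 4 ∧ δN ≤ 1 :=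
    ⟨min δ₂ (min (δa / 4) 1), lt_min hδ₂ (lt_min (by positivity) one_pos), min_le_left _ _,
      (min_le_right _ _).trans (min_le_left _ _), (min_le_right _ _).trans (min_le_right _ _)⟩
  obtain ⟨c₁, δ₄, M₄, hc₁, hδ₄, hfar⟩ := far_vol_s h 3 hδN
  obtain ⟨δP, hδP, hδP4, hδPa⟩ : ∃ δP : ℝ, 0 < δP ∧ δP ≤ δ₄ ∧ δP ≤ δa / 4 :=
    ⟨min δ₄ (δa / 4), lt_min hδ₄ (by positivity), min_le_left _ _, min_le_right _ _⟩
  obtain ⟨E, hE⟩ : ∃ E, E = Real.exp ((1 + 1) * (law hx).kap * ((r : ℝ) + 1)) := ⟨_, rfl⟩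
  have hE0 : 0 < E := by rw [hE]; exact Real.exp_pos _
  have hgam : 0 < gam x := by
    unfold gam
    have h1 := AA_gt x
    have h2 : 0 < √(yy x) := Real.sqrt_pos.2 (yy_pos x)
    have h3 : 0 < AA x := by linarith
    positivity
  obtain ⟨Mb, hMb⟩ := iw_dec hc₁ (show (0 : ℝ) < 1 / 2 by norm_num)
  obtain ⟨Mc, hMc⟩ := iw_dec (show 0 < c * δP / E by positivity)
    (show (0 : ℝ) < 1 / (2 * (C₂ * K)) by positivity)
  obtain ⟨Md, hMd⟩ := exists_nat_gt (1 / δP)
  obtain ⟨Me, hMe⟩ := exists_nat_gt (3 * E / δP)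
  refine ⟨Kn * gam x ^ 3 * C₁ + 1, min (min (min δa δ₂) δ₄) (θ / 2),
    Ma + M₂ + M₄ + Mb + Mc + Md + Me + 1, by positivity,
    lt_min (lt_min (lt_min hδa hδ₂) hδ₄) (by have := h.1; linarith), ?_⟩
  intro F g I hodd hwin hI
  have hθ := h.1
  have hg : g ≠ 0 :=
    iw_g (δ := θ / 2) (by linarith) (le_refl 1) (hwin.mono (min_le_right _ _) (by omega))
  have hwina : Win θ δa Ma (3 ::ₘ 0) F g :=
    hwin.mono (((min_le_left _ _).trans (min_le_left _ _)).trans (min_le_left _ _)) (by omega)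
  have hwin2 : Win θ δ₂ M₂ ((0 + 3) ::ₘ 0) F g :=
    hwin.mono (((min_le_left _ _).trans (min_le_left _ _)).trans (min_le_right _ _)) (by omega)
  have hwin4 : Win θ δ₄ M₄ ((0 + 3) ::ₘ 0) F g :=
    hwin.mono ((min_le_left _ _).trans (min_le_right _ _)) (by omega)
  have hFM := hwin.1
  have hF0 : (0 : ℝ) ≤ F := Nat.cast_nonneg F
  obtain ⟨N, hN⟩ : ∃ N, N = ⌊δN * (F : ℝ)⌋₊ := ⟨_, rfl⟩
  have hN1 : (N : ℝ) ≤ δN * F := by rw [hN]; exact Nat.floor_le (by positivity)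
  have hN2 : δN * (F : ℝ) < N + 1 := by rw [hN]; exact Nat.lt_floor_add_one _
  have hNF : N ≤ F := by
    have : (N : ℝ) ≤ F := by nlinarith
    exact_mod_cast this
  have hNδ : (N : ℝ) ≤ δ₂ * F := by nlinarith
  have hNa : (N : ℝ) ≤ δa / 4 * F := by nlinarith
  obtain ⟨P, hP⟩ : ∃ P, P = δP * (F : ℝ) := ⟨_, rfl⟩
  have hP4 : P ≤ δ₄ * F := by rw [hP]; exact mul_le_mul_of_nonneg_right hδP4 hF0
  have hPa : P ≤ δa / 4 * F := by rw [hP]; exact mul_le_mul_of_nonneg_right hδPa hF0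
  have hP1 : 1 ≤ P := by
    have h1 : (Md : ℝ) ≤ F := by exact_mod_cast (show Md ≤ F by omega)
    have h2 : 1 / δP ≤ F := by linarith
    rw [div_le_iff₀ hδP] at h2
    rw [hP]
    linarith
  have hPs : (3 : ℝ) ≤ P / E := by
    have h1 : (Me : ℝ) ≤ F := by exact_mod_cast (show Me ≤ F by omega)
    have h2 : 3 * E / δP ≤ F := by linarith
    rw [div_le_iff₀ hδP] at h2
    rw [le_div_iff₀ hE0, hP]
    linarith
  obtain ⟨mu, hmu⟩ : ∃ mu, mu = muG (3 ::ₘ 0) F g := ⟨_, rfl⟩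
  have hmu0 : 0 ≤ mu := by rw [hmu]; exact muG_nonneg _ _ _
  rw [← hmu]
  have hSMN := UM_SM hx 0 g 0 3 F N hNF (Or.inr hg)
  have hUb : ∀ q v : ℕ, q ≤ 3 + v → UM x 0 g 0 3 F N q v ≤ K * Real.exp (ε₂ * ((q : ℝ) + v)) :=
    hUM 0 F g 0 3 N (by norm_num) (le_refl 3) hNδ hwin2
  have hUMeq : ∀ q v : ℕ, v ≤ N → UM x 0 g 0 3 F F q v = UM x 0 g 0 3 F N q v := by
    intro q v hv
    unfold UM
    rw [if_pos hv, if_pos (hv.trans hNF)]
  obtain ⟨b, hb⟩ : ∃ b : List Stp → Prop, ∀ v, b v ↔ (P ≤ (wend 3 v : ℝ) ∨ N < wvol v) :=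
    ⟨_, fun _ => Iff.rfl⟩
  obtain ⟨bad, hbad⟩ : ∃ bad : List Stp → Prop, ∀ u, bad u ↔ ∃ v, v <+: u ∧ b v :=
    ⟨_, fun _ => Iff.rfl⟩
  rw [← Finset.sum_filter_add_sum_filter_not I bad, mul_add]
  have part1 : (F : ℝ) * ∑ u ∈ I with ¬ bad u, wwt 1 W u * NP g (wend 3 u) (F - wvol u) ≤
      Kn * gam x ^ 3 * C₁ * mu := by
    have h1 := hlay 3 (I.filter fun u => ¬ bad u) (by norm_num) (le_refl 3) (by
      intro w hw
      obtain ⟨a1, a2⟩ := Finset.mem_filter.1 hw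
      exact ⟨(hI w a1).1, (hI w a1).2.2⟩)
    have h2 : (F : ℝ) * ∑ u ∈ I with ¬ bad u, wwt 1 W u * NP g (wend 3 u) (F - wvol u) ≤
        ∑ u ∈ I with ¬ bad u, Kn * gam x ^ 3 * mu *
          (PRW x u * Real.exp (ε * ((wend 3 u : ℝ) + wvol u))) := by
      rw [Finset.mul_sum]
      refine Finset.sum_le_sum fun u hu => ?_
      obtain ⟨a1, a2⟩ := Finset.mem_filter.1 hu
      obtain ⟨b1, b2, b3⟩ := hI u a1
      have hb' : ¬ b u := fun hbu => a2 ((hbad u).2 ⟨u, List.prefix_refl u, hbu⟩)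
      rw [hb] at hb'
      push Not at hb'
      obtain ⟨c1, c2⟩ := hb'
      have hwend : 1 ≤ wend 3 u := one_le_wend (by norm_num) b1
      have c3 : ((wvol u : ℕ) : ℝ) ≤ N := by exact_mod_cast c2
      have hw1 : Win θ δa Ma ((wend 3 u + wvol u) ::ₘ 0) F g := by
        refine ⟨hwina.1, hwina.2.1, ?_, ?_⟩
        · rw [Multiset.sum_cons, Multiset.sum_zero, add_zero]
          push_cast
          nlinarith
        · intro q hq
          rw [Multiset.mem_cons] at hq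
          rcases hq with hq | hq
          · omega
          · exact absurd hq (Multiset.notMem_zero q)
      have h3 := hnp F g (wend 3 u) (wvol u) hwend hodd hw1
      rw [← hmu] at h3
      have h4 : 0 ≤ wwt 1 W u := wwt_nonneg zero_le_one W_nonneg u
      have h5 := iw_prw x u b1
      calc (F : ℝ) * (wwt 1 W u * NP g (wend 3 u) (F - wvol u))
          = wwt 1 W u * ((F : ℝ) * NP g (wend 3 u) (F - wvol u)) := by ring
        _ ≤ wwt 1 W u * (Kn * exp (ε * ((wend 3 u : ℝ) + wvol u)) * gam x ^ (wend 3 u) *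
            √(yy x) ^ (wvol u) * mu) := mul_le_mul_of_nonneg_left h3 h4
        _ = Kn * exp (ε * ((wend 3 u : ℝ) + wvol u)) * mu *
            (wwt 1 W u * gam x ^ (wend 3 u) * √(yy x) ^ (wvol u)) := by ring
        _ = _ := by rw [h5]; ring
    refine h2.trans ?_
    rw [← Finset.mul_sum]
    calc Kn * gam x ^ 3 * mu *
          ∑ u ∈ I with ¬ bad u, PRW x u * Real.exp (ε * ((wend 3 u : ℝ) + wvol u))
        ≤ Kn * gam x ^ 3 * mu * C₁ := mul_le_mul_of_nonneg_left h1 (by positivity)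
      _ = _ := by ring
  have part2 : (F : ℝ) * ∑ u ∈ I with bad u, wwt 1 W u * NP g (wend 3 u) (F - wvol u) ≤
      1 * mu := by
    obtain ⟨V, hVP, hV, hsum⟩ := iw_split (Z := NP g) (Φ := fun p F => muG (p ::ₘ 0) F g)
      (fun _ _ => muG_nonneg _ _ _) (fun _ _ => NP_nonneg _ _ _) (np_stepw g hg) 3 F
      (by norm_num) (I.filter bad) (fun u hu => by
        obtain ⟨b1, b2, b3⟩ := hI u (Finset.mem_filter.1 hu).1
        exact ⟨b1, b2⟩) b (fun u hu => (hbad u).1 (Finset.mem_filter.1 hu).2)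
    have hVpre : ∀ v ∈ V, WOk 3 v ∧ wvol v ≤ F ∧ GR.lay 3 v < r ∧
        (∀ v', v' <+: v → v' ≠ v → (wend 3 v' : ℝ) < P) := by
      intro v hv
      obtain ⟨b1, b2, u, hu, huv⟩ := hV v hv
      obtain ⟨d1, d2, d3⟩ := hI u (Finset.mem_filter.1 hu).1
      have hl := lay_mono (s := 3) huv
      obtain ⟨t, rfl⟩ := huv
      rw [wvol_append] at d2
      refine ⟨((WOk_append 3 v t).1 d1).1, by omega, by omega, ?_⟩
      intro v' hv' hne
      have := b2 v' hv' hne
      rw [hb] at this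
      push Not at this
      exact this.1
    have hA : ∑ v ∈ V with N < wvol v, wwt 1 W v * muG (wend 3 v ::ₘ 0) (F - wvol v) g ≤
        Real.exp (-c₁ * F) * mu := by
      have h1 := hfar 0 F g 0 3 P (V.filter fun u => N < wvol u) (by norm_num) (le_refl 3) hP1
        hP4 hwin4 (fun u hu w hw huw => hVP u (Finset.mem_filter.1 hu).1 w
          (Finset.mem_filter.1 hw).1 huw) (by
          intro u hu
          obtain ⟨a1, a2⟩ := Finset.mem_filter.1 hu
          obtain ⟨b1, b2, b3, b4⟩ := hVpre u a1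
          refine ⟨b1, b2, ?_, b4⟩
          have : (N : ℝ) + 1 ≤ wvol u := by exact_mod_cast a2
          linarith)
      rw [Nat.zero_add, ← hmu] at h1
      refine le_trans (le_of_eq ?_) h1
      refine Finset.sum_congr rfl fun u hu => ?_
      rw [Nat.zero_add]
    have hB : ∑ v ∈ V with ¬ N < wvol v, wwt 1 W v * muG (wend 3 v ::ₘ 0) (F - wvol v) g ≤
        C₂ * K * Real.exp (-c * (P / E)) * mu := by
      have h1 := hgro 3 (P / E) P K (UM x 0 g 0 3 F N) (V.filter fun u => ¬ N < wvol u)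
        (by norm_num) (by exact_mod_cast hPs) hK.le hSMN (fun q v hq _ => hUb q v hq)
        (fun u hu w hw huw => hVP u (Finset.mem_filter.1 hu).1 w
          (Finset.mem_filter.1 hw).1 huw) (by
          intro u hu
          obtain ⟨a1, a2⟩ := Finset.mem_filter.1 hu
          obtain ⟨b1, b2, b3, b4⟩ := hVpre u a1
          refine ⟨b1, b4, Or.inl ?_⟩
          have h5 : P ≤ (wend 3 u : ℝ) := by
            rcases (hb u).1 (hV u a1).1 with h6 | h6
            · exact h6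
            · exact absurd h6 a2
          have h6 : Real.exp ((1 + 1) * (law hx).kap * (GR.lay 3 u + 1)) ≤ E := by
            rw [hE]
            apply Real.exp_le_exp.2
            have h7 : (GR.lay 3 u : ℝ) ≤ r := by exact_mod_cast b3.le
            have h8 := (law hx).kap_pos
            have h9 : 0 ≤ (1 + 1) * (law hx).kap := by positivity
            nlinarith
          calc P / E * Real.exp ((1 + 1) * (law hx).kap * (GR.lay 3 u + 1)) ≤ P / E * E :=
                mul_le_mul_of_nonneg_left h6 (by positivity)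
            _ = P := div_mul_cancel₀ P hE0.ne'
            _ ≤ _ := h5)
      refine le_trans (le_of_eq ?_) (mul_le_mul_of_nonneg_right h1 hmu0)
      rw [Finset.sum_mul]
      refine Finset.sum_congr rfl fun u hu => ?_
      obtain ⟨a1, a2⟩ := Finset.mem_filter.1 hu
      obtain ⟨b1, b2, b3, b4⟩ := hVpre u a1
      have h3 := iw_eq hx (s := 3) (by norm_num) hg b1 b2
      rw [← hmu, hUMeq _ _ (not_lt.1 a2)] at h3
      exact h3
    have hsplit := Finset.sum_filter_add_sum_filter_not V (fun v => N < wvol v)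
      (fun v => wwt 1 W v * muG (wend 3 v ::ₘ 0) (F - wvol v) g)
    have hMb' := hMb F (by omega)
    have hMc' := hMc F (by omega)
    have hexp : -c * (P / E) = -(c * δP / E) * F := by
      rw [hP]
      ring
    rw [hexp] at hB
    have hCK : 0 < C₂ * K := by positivity
    have hMc2 : (F : ℝ) * (C₂ * K * Real.exp (-(c * δP / E) * F)) ≤ 1 / 2 := by
      calc (F : ℝ) * (C₂ * K * Real.exp (-(c * δP / E) * F))
          = C₂ * K * ((F : ℝ) * Real.exp (-(c * δP / E) * F)) := by ring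
        _ ≤ C₂ * K * (1 / (2 * (C₂ * K))) := mul_le_mul_of_nonneg_left hMc' hCK.le
        _ = 1 / 2 := by field_simp
    calc (F : ℝ) * ∑ u ∈ I with bad u, wwt 1 W u * NP g (wend 3 u) (F - wvol u)
        ≤ (F : ℝ) * ∑ v ∈ V, wwt 1 W v * muG (wend 3 v ::ₘ 0) (F - wvol v) g :=
          mul_le_mul_of_nonneg_left hsum hF0
      _ ≤ (F : ℝ) * (Real.exp (-c₁ * F) * mu + C₂ * K * Real.exp (-(c * δP / E) * F) * mu) := by
          refine mul_le_mul_of_nonneg_left ?_ hF0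
          rw [← hsplit]
          exact add_le_add hA hB
      _ = ((F : ℝ) * Real.exp (-c₁ * F) + (F : ℝ) * (C₂ * K * Real.exp (-(c * δP / E) * F))) *
          mu := by ring
      _ ≤ 1 * mu := mul_le_mul_of_nonneg_right (by linarith) hmu0
  linarith

end SYS.Num
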