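import Pool.Agent.SYS.LA.Tree

/-!
# SYS-LA-Np: the non-planar steps from one hole

`NP g p F` = number of the maps with one hole of perimeter `p`, `F` triangles, genus `g` whose gate is glued to the same hole in a non-planar way: the two new holes are in one hidden component (`NS`) or the
hidden part is cut into two components of positive genus (`SEP`).

PROOF. `tutO` with `Q = 0` (`MRG` of the empty multiset is `0`) for `p ≥ 2`, `tutG_one` for `p = 1` (`NS 1 0 F g = 0` as in `stepw_muG` in `BD/Hist.lean`; only `0 ≤ NP` is needed for `np_tree`; for `np_stepw` one needs `NP g 1 F = 0`: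
`antidiagonal 0` gives `muG (0 ::ₘ ..) = 0` by `tutG_zero` and `muN 0 0 F z = 0`: if `z = 0` by definition, otherwise by `tutG_zero`).
-/

namespace SYS.Num

/-- Non-planar steps. -/
noncomputable def NP (g p F : ℕ) : ℝ := NS p 0 F g + SEP p 0 F g

theorem NP_nonneg (g p F : ℕ) : 0 ≤ NP g p F := add_nonneg (NS_nonneg _ _ _ _) (SEP_nonneg _ _ _ _)

private theorem muN_zz (a u : ℕ) : muN 0 0 a u = 0 := by
  unfold muN
  by_cases hu : u = 0
  · rw [if_pos ⟨rfl, hu⟩]
  · rw [if_neg (fun h => hu h.2), tutG_zero, if_neg (fun h => hu h.2.2)]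

private theorem NP_one (g F : ℕ) (hg : g ≠ 0) : NP g 1 F = 0 := by
  have h1 : NS 1 0 F g = 0 := by
    unfold NS
    rw [if_neg hg, show 1 - 2 = 0 from rfl, Finset.HasAntidiagonal.antidiagonal_zero, Finset.sum_singleton,
      tutG_zero, if_neg]
    rintro ⟨h5, -, -⟩
    exact Multiset.cons_ne_zero h5
  have h2 : SEP 1 0 F g = 0 := by
    unfold SEP
    rw [show 1 - 2 = 0 from rfl, Finset.HasAntidiagonal.antidiagonal_zero, Finset.sum_singleton]
    refine Finset.sum_eq_zero fun y _ => Finset.sum_eq_zero fun z _ => ?_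
    rw [SYS.A.conv_zero]
    show muN 0 0 y.1 z.1 * muN 0 0 y.2 z.2 = 0
    rw [muN_zz, zero_mul]
  unfold NP
  rw [h1, h2, add_zero]

theorem np_eq (g : ℕ) (hg : g ≠ 0) (p F : ℕ) (hp : 1 ≤ p) : muG (p ::ₘ 0) F g = NP g p F +
    (if F = 0 then 0 else muG ((p + 1) ::ₘ 0) (F - 1) g) +
      2 * (∑ k ∈ Finset.range (p - 2), ∑ a ∈ Finset.range (F + 1), W k a * muG ((p - 2 - k) ::ₘ 0) (F - a) g) := by
  by_cases h2 : 2 ≤ p
  · rw [tutO p 0 F g h2 (Or.inr hg)]
    have h3 : MRG p 0 F g = 0 := by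
      unfold MRG
      rw [Multiset.map_zero, Multiset.sum_zero]
    rw [h3]
    unfold NP
    ring
  · have h3 : p = 1 := by omega
    subst h3
    rw [tutG_one, NP_one g F hg, Multiset.map_zero, Multiset.sum_zero, show 1 - 2 = 0 from rfl,
      Finset.sum_range_zero]
    ring

theorem np_stepw (g : ℕ) (hg : g ≠ 0) : Stepw (NP g) (fun p F => muG (p ::ₘ 0) F g) := by
  intro p F hp
  exact (np_eq g hg p F hp).symm.le

/-- Stopping property `b`. -/
theorem np_tree (g : ℕ) (hg : g ≠ 0) (s F : ℕ) (hs : 1 ≤ s) (b : List Stp → Prop) (A I : Finset (List Stp))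
    (hA : ∀ w, WOk s w → wvol w ≤ F → b w → (∀ u, u <+: w → u ≠ w → ¬ b u) → w ∈ A)
    (hI : ∀ w, WOk s w → wvol w ≤ F → (∀ u, u <+: w → ¬ b u) → w ∈ I) :
    muG (s ::ₘ 0) F g ≤ ∑ w ∈ A, wwt 1 W w * muG (wend s w ::ₘ 0) (F - wvol w) g +
      ∑ u ∈ I, wwt 1 W u * NP g (wend s u) (F - wvol u) := by
  exact tree_le (Z := NP g) (Φ := fun p F => muG (p ::ₘ 0) F g) (fun _ _ => muG_nonneg _ _ _)
    (fun _ _ => NP_nonneg _ _ _) (fun p F hp => (np_eq g hg p F hp).le) s F hs b A I hA hI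

end SYS.Num
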