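import Pool.Agent.SYS.LA.Np
import Pool.Agent.SYS.SH.Out
import Pool.Agent.SYS.SH.Nf

/-!
# SYS-LA-NpLe: the non-planar steps cost a factor `1 / F`

PROOF. Put `n = (F + 1) / 2` (`F` odd, `F + 1 = 2 n`), `F' = F - v`. As `v ≤ δ F` the window of `F` with `δ` small is contained in a window of `F'` (see `Win.shift`).
* `NS p 0 F' g = ∑_{p₁ + p₂ = p - 2} muG {p₁, p₂} F' (g - 1)` (`g ≠ 0` in the window for `δ < θ`, `M ≥ 1`); terms with `p₁ = 0` or `p₂ = 0` vanish (`tutG_zero`, the other holes are not `0`; `Multiset.cons_swap`). `nf_up` with `j = 1`, `k₀ = 2`: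
  `F'^2 muG {p₁, p₂} F' (g - 1) ≤ K e^(ε (p - 2)) gam^(p - 2) F'^2 nu ((F' + 1) / 2) g`.
* `SEP p 0 F' g = ∑_{p₁ + p₂ = p - 2} LL 2 {p₁} {p₂} F' g` (`conv_zero`; `muN k 0 F z` is `0` for `z = 0` and `muG {k} F z` otherwise; `2 + 1 ≤ 1 + 2 e ↔ e ≠ 0`; if `p₁ = 0` or `p₂ = 0` the terms vanish by `tutG_zero`).
  `seph` with `a = 2`, `k₀ = 1`: `F'^3 LL ≤ K e^(ε (p - 2)) gam^(p - 2) F'^2 nu ((F' + 1) / 2) g`.
* so `NP g p F' ≤ 2 K (p - 1) e^(ε p) gam^(p - 2) nu ((F' + 1) / 2) g` (`F' ≥ 1`), `p - 1 ≤ e^(ε p) / ε`. (`p ≤ 1`: both are `0`.) `gam x > 0`.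
* `(F' + 1) / 2 = n - l` with `l = (v + 1) / 2` (`F + 1 = 2 n`): `nu_up` with `ε' = yy x * ε`: `nu (n - l) g ≤ (yy x (1 + ε))^l nu n g ≤ √(yy x)^v e^(ε (v + 1)) nu n g` (`yy x ≤ 1`, `2 l ≥ v`, `l ≤ v + 1`, `1 + ε ≤ e^ε`).
* `muG (3 ::ₘ 0) F g = 3 (F + 1) muG 0 (F + 1) g = 3 (F + 1) nu n g` (`muG_three`, `muG_nu`).
-/

namespace SYS.Num

open Real

variable {θ x : ℝ}

private theorem npl_gam (x : ℝ) : 0 < gam x := by
  unfold gam
  have h1 : 0 < AA x := by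
    have := AA_gt x
    linarith
  exact div_pos h1 (Real.sqrt_pos.2 (yy_pos x))

private theorem npl_yy (x : ℝ) : yy x ≤ 1 := by
  have h1 : 1 ≤ cosh x := one_le_cosh x
  have h2 : cosh x < rr x := by
    unfold rr
    rw [Real.lt_sqrt (by linarith)]
    linarith
  have h3 : 0 < rr x := by linarith
  have h4 : cosh x < rr x ^ 3 := by
    have h5 : 1 < rr x := by linarith
    have h6 : rr x ≤ rr x ^ 3 := by nlinarith [mul_pos h3 h3]
    linarith
  unfold yy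
  rw [div_le_one (by positivity)]
  have : 0 < rr x ^ 3 := by positivity
  linarith

/-- final computation -/
private theorem npl_fin {ε p v K A E₀ G G2 R N F : ℝ} (hε : 0 < ε) (hv0 : 0 ≤ v) (hA : 0 < A)
    (hE₀ : A = ε / 2) (hK : 0 ≤ K) (hG : 0 ≤ G) (hG2 : 0 < G2) (hR : 0 ≤ R) (hN : 0 ≤ N) (hF : 0 ≤ F)
    (h : E₀ ≤ exp (A * p) / A * (K * (exp (A * p) * (G / G2) * (R * exp (A * (v + 1)) * N)))) :
    F * E₀ ≤ K / A * exp A / G2 * exp (ε * (p + v)) * G * R * (3 * (F + 1) * N) := by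
  have hee : exp (A * p) * exp (A * p) * exp (A * (v + 1)) ≤ exp A * exp (ε * (p + v)) := by
    rw [← exp_add, ← exp_add, ← exp_add]
    refine exp_le_exp.2 ?_
    rw [hE₀]
    have := mul_nonneg hε.le hv0
    linarith
  have hY : exp (A * p) / A * (K * (exp (A * p) * (G / G2) * (R * exp (A * (v + 1)) * N))) =
      (exp (A * p) * exp (A * p) * exp (A * (v + 1))) * (K / A / G2 * G * R * N) := by
    field_simp
  rw [hY] at h
  have hQ : 0 ≤ K / A / G2 * G * R * N := by positivity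
  have hZ := h.trans (mul_le_mul_of_nonneg_right hee hQ)
  have hfin := mul_le_mul_of_nonneg_left hZ hF
  refine hfin.trans ?_
  have hR' : exp A * exp (ε * (p + v)) * (K / A / G2 * G * R * N) =
      K / A * exp A / G2 * exp (ε * (p + v)) * G * R * N := by ring
  rw [hR']
  have hR0 : 0 ≤ K / A * exp A / G2 * exp (ε * (p + v)) * G * R * N := by positivity
  have hR1 : F * (K / A * exp A / G2 * exp (ε * (p + v)) * G * R * N) ≤
      (3 * (F + 1)) * (K / A * exp A / G2 * exp (ε * (p + v)) * G * R * N) :=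
    mul_le_mul_of_nonneg_right (by linarith) hR0
  refine hR1.trans (le_of_eq ?_)
  ring

private theorem npl_nn (n g : ℕ) : 0 ≤ SST.nu n g := by
  unfold SST.nu
  exact div_nonneg (Nat.cast_nonneg _) (Nat.cast_nonneg _)

private theorem npl_zero {a : ℕ} {F g : ℕ} : muG (0 ::ₘ a ::ₘ 0) F g = 0 := by
  rw [tutG_zero, if_neg]
  rintro ⟨h, -, -⟩
  exact Multiset.cons_ne_zero h

private theorem npl_muN (k F z : ℕ) : muN k 0 F z = if z = 0 then 0 else muG (k ::ₘ 0) F z := by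
  unfold muN
  by_cases h : z = 0
  · rw [if_pos ⟨rfl, h⟩, if_pos h]
  · rw [if_neg (fun h' => h h'.2), if_neg h]

/-- the separating steps are pairs of hidden components -/
private theorem npl_sep (p F g : ℕ) :
    SEP p 0 F g = ∑ x ∈ Finset.HasAntidiagonal.antidiagonal (p - 2), LL 2 (x.1 ::ₘ 0) (x.2 ::ₘ 0) F g := by
  unfold SEP LL
  refine Finset.sum_congr rfl fun x _ => Finset.sum_congr rfl fun y _ =>
    Finset.sum_congr rfl fun z _ => ?_
  rw [SYS.A.conv_zero]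
  show muN x.1 0 y.1 z.1 * muN x.2 0 y.2 z.2 = _
  rw [npl_muN, npl_muN, Multiset.card_cons, Multiset.card_cons, Multiset.card_zero]
  by_cases h1 : z.1 = 0
  · rw [if_pos h1, zero_mul, if_neg]
    rintro ⟨h2, -⟩
    omega
  · by_cases h2 : z.2 = 0
    · rw [if_pos h2, mul_zero, if_neg]
      rintro ⟨-, h3⟩
      omega
    · rw [if_neg h1, if_neg h2, if_pos ⟨by omega, by omega⟩]

private theorem npl_LL0 (a : Multiset ℕ) (F g : ℕ) : LL 2 (0 ::ₘ 0) a F g = 0 := by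
  unfold LL
  refine Finset.sum_eq_zero fun y _ => Finset.sum_eq_zero fun z _ => ?_
  split_ifs with h
  · have h1 := h.1
    rw [Multiset.card_cons, Multiset.card_zero] at h1
    rw [tutG_zero, if_neg, zero_mul]
    rintro ⟨-, -, h3⟩
    omega
  · rfl

private theorem npl_LL0' (a : Multiset ℕ) (F g : ℕ) : LL 2 a (0 ::ₘ 0) F g = 0 := by
  unfold LL
  refine Finset.sum_eq_zero fun y _ => Finset.sum_eq_zero fun z _ => ?_
  split_ifs with h
  · have h1 := h.2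
    rw [Multiset.card_cons, Multiset.card_zero] at h1
    rw [tutG_zero, if_neg, mul_zero]
    rintro ⟨-, -, h3⟩
    omega
  · rfl

private theorem npl_sum (p : ℕ) (hp : 1 ≤ p) (f : ℕ × ℕ → ℝ) (B : ℝ) (hB : 0 ≤ B)
    (h0 : ∀ a, f (0, a) = 0) (h0' : ∀ a, f (a, 0) = 0)
    (h : ∀ a b, 1 ≤ a → 1 ≤ b → a + b = p - 2 → f (a, b) ≤ B) :
    ∑ x ∈ Finset.HasAntidiagonal.antidiagonal (p - 2), f x ≤ p * B := by
  have h1 : ∀ x ∈ (Finset.HasAntidiagonal.antidiagonal (p - 2) : Finset (ℕ × ℕ)), f x ≤ B := by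
    rintro ⟨a, b⟩ hx
    rw [Finset.HasAntidiagonal.mem_antidiagonal] at hx
    rcases Nat.eq_zero_or_pos a with ha | ha
    · rw [ha, h0]
      exact hB
    · rcases Nat.eq_zero_or_pos b with hb | hb
      · rw [hb, h0']
        exact hB
      · exact h a b ha hb hx
  have h2 := Finset.sum_le_card_nsmul _ _ _ h1
  rw [Finset.Nat.card_antidiagonal, nsmul_eq_mul] at h2
  refine h2.trans (mul_le_mul_of_nonneg_right ?_ hB)
  have h3 : p - 2 + 1 ≤ p := by omega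
  exact_mod_cast h3

theorem np_le (h : Par θ x) {ε : ℝ} (hε : 0 < ε) : ∃ (K δ : ℝ) (M : ℕ), 0 < K ∧ 0 < δ ∧
    ∀ F g p v : ℕ, 1 ≤ p → Odd F → Win θ δ M ((p + v) ::ₘ 0) F g →
      (F : ℝ) * NP g p (F - v) ≤
        K * exp (ε * ((p : ℝ) + v)) * gam x ^ p * √(yy x) ^ v * muG (3 ::ₘ 0) F g := by
  obtain ⟨ε₁, hε₁⟩ : ∃ e : ℝ, e = ε / 2 := ⟨_, rfl⟩
  have hε₁0 : 0 < ε₁ := by rw [hε₁]; linarith
  obtain ⟨K₁, δ₁, M₁, hK₁, hδ₁, H₁⟩ := nf_up h hε₁0 2 1
  obtain ⟨K₂, δ₂, M₂, hK₂, hδ₂, H₂⟩ := seph h hε₁0 1 2 (by norm_num)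
  have hy : 0 < yy x := yy_pos x
  have hy1 : yy x ≤ 1 := npl_yy x
  obtain ⟨δ₃, M₃, hδ₃, H₃⟩ := nu_up h (ε := yy x * ε₁) (mul_pos hy hε₁0)
  have hg : 0 < gam x := npl_gam x
  have hr : 0 < √(yy x) := Real.sqrt_pos.2 hy
  have hr1 : √(yy x) ≤ 1 := by
    rw [Real.sqrt_le_one]
    exact hy1
  obtain ⟨m, hm⟩ : ∃ m : ℝ, m = min 1 (min δ₁ (min δ₂ δ₃)) := ⟨_, rfl⟩
  have hm0 : 0 < m := by
    rw [hm]
    exact lt_min one_pos (lt_min hδ₁ (lt_min hδ₂ hδ₃))
  have hm1 : m ≤ 1 := by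
    rw [hm]
    exact min_le_left _ _
  have hmA : m ≤ δ₁ := by
    rw [hm]
    exact (min_le_right _ _).trans (min_le_left _ _)
  have hmB : m ≤ δ₂ := by
    rw [hm]
    exact (min_le_right _ _).trans ((min_le_right _ _).trans (min_le_left _ _))
  have hmC : m ≤ δ₃ := by
    rw [hm]
    exact (min_le_right _ _).trans ((min_le_right _ _).trans (min_le_right _ _))
  obtain ⟨N, hN⟩ := exists_nat_ge (1 / m)
  refine ⟨(K₁ + K₂) / ε₁ * exp ε₁ / gam x ^ 2, m / 4, 2 * (M₁ + M₂ + M₃ + N + 1), by positivity,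
    by positivity, ?_⟩
  intro F g p v hp hodd hW
  obtain ⟨w1, w2, w3, w4⟩ := id hW
  have hF0 : (0 : ℝ) ≤ F := Nat.cast_nonneg F
  have w3' : (p : ℝ) + v ≤ m / 4 * F := by
    rw [Multiset.sum_cons, Multiset.sum_zero, Nat.add_zero] at w3
    push_cast at w3
    exact w3
  have hp0 : (0 : ℝ) ≤ p := Nat.cast_nonneg p
  have hv0 : (0 : ℝ) ≤ v := Nat.cast_nonneg v
  have hF1 : 1 ≤ F := by omega
  have hF1' : (1 : ℝ) ≤ F := by exact_mod_cast hF1
  have hmF : m / 4 * (F : ℝ) ≤ 1 / 4 * F := mul_le_mul_of_nonneg_right (by linarith) hF0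
  have hvF : v ≤ F := by
    have h1 : (v : ℝ) ≤ F := by linarith
    exact_mod_cast h1
  have hcast : ((F - v : ℕ) : ℝ) = F - v := Nat.cast_sub hvF
  have hF' : 1 ≤ F - v := by
    have h1 : (0 : ℝ) < ((F - v : ℕ) : ℝ) := by
      rw [hcast]
      linarith
    exact_mod_cast h1
  have hF'R : (1 : ℝ) ≤ ((F - v : ℕ) : ℝ) := by exact_mod_cast hF'
  have hF'0 : (0 : ℝ) < ((F - v : ℕ) : ℝ) := by linarith
  obtain ⟨n, hn⟩ : ∃ n, F + 1 = 2 * n := by
    obtain ⟨a, ha⟩ := hodd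
    exact ⟨a + 1, by omega⟩
  -- the windows of `F - v`
  have hwin : ∀ P : Multiset ℕ, P.sum ≤ p → (∀ q ∈ P, 1 ≤ q) →
      Win θ m (M₁ + M₂ + M₃ + N + 1) P (F - v) g := by
    intro P hP hP1
    have hW' : Win θ (m / 4) (2 * (M₁ + M₂ + M₃ + N + 1)) ((p + v) ::ₘ 0) F g := hW
    refine hW'.shift h.1.le h.2.1.le hm0.le hm1 ?_ ?_ ?_ hP1
    · rw [hcast]
      linarith
    · rw [hcast]
      have : 0 ≤ m / 4 * (F : ℝ) := by positivity
      linarith
    · have h1 : (P.sum : ℝ) ≤ p := by exact_mod_cast hP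
      linarith
  obtain ⟨ν, hν⟩ : ∃ ν, ν = SST.nu ((F - v + 1) / 2) g := ⟨_, rfl⟩
  have hν0 : 0 ≤ ν := by
    rw [hν]
    exact npl_nn _ _
  obtain ⟨E, hE⟩ : ∃ E, E = exp (ε₁ * p) * (gam x ^ p / gam x ^ 2) * ν := ⟨_, rfl⟩
  have hE0 : 0 ≤ E := by
    rw [hE]
    positivity
  have hexp : ∀ a b : ℕ, 1 ≤ a → 1 ≤ b → a + b = p - 2 → ∀ K : ℝ, 0 < K →
      K * exp (ε₁ * ((a + b : ℕ) : ℝ)) * gam x ^ (a + b) * ν ≤ K * E := by
    intro a b ha hb hab K hK
    have h1 : gam x ^ (a + b) = gam x ^ p / gam x ^ 2 := by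
      rw [eq_div_iff (by positivity), ← pow_add]
      congr 1
      omega
    have h2 : exp (ε₁ * ((a + b : ℕ) : ℝ)) ≤ exp (ε₁ * p) := by
      refine exp_le_exp.2 (mul_le_mul_of_nonneg_left ?_ hε₁0.le)
      have : a + b ≤ p := by omega
      exact_mod_cast this
    rw [hE, h1]
    have h3 : 0 ≤ K * (gam x ^ p / gam x ^ 2) * ν := by positivity
    calc K * exp (ε₁ * ((a + b : ℕ) : ℝ)) * (gam x ^ p / gam x ^ 2) * ν
        = exp (ε₁ * ((a + b : ℕ) : ℝ)) * (K * (gam x ^ p / gam x ^ 2) * ν) := by ring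
      _ ≤ exp (ε₁ * p) * (K * (gam x ^ p / gam x ^ 2) * ν) := mul_le_mul_of_nonneg_right h2 h3
      _ = K * (exp (ε₁ * p) * (gam x ^ p / gam x ^ 2) * ν) := by ring
  have hNS : NS p 0 (F - v) g ≤ p * (K₁ * E) := by
    unfold NS
    by_cases hg0 : g = 0
    · rw [if_pos hg0]
      positivity
    · rw [if_neg hg0]
      refine npl_sum p hp (fun x => muG (x.1 ::ₘ x.2 ::ₘ 0) (F - v) (g - 1)) (K₁ * E) (by positivity)
        (fun a => npl_zero) (fun a => ?_) ?_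
      · show muG (a ::ₘ 0 ::ₘ 0) (F - v) (g - 1) = 0
        rw [Multiset.cons_swap]
        exact npl_zero
      · intro a b ha hb hab
        show muG (a ::ₘ b ::ₘ 0) (F - v) (g - 1) ≤ K₁ * E
        have hs : (a ::ₘ b ::ₘ (0 : Multiset ℕ)).sum = a + b := by
          rw [Multiset.sum_cons, Multiset.sum_cons, Multiset.sum_zero, Nat.add_zero]
        have hc : Multiset.card (a ::ₘ b ::ₘ (0 : Multiset ℕ)) = 2 := rfl
        have h1 := H₁ (a ::ₘ b ::ₘ 0) (F - v) g (Multiset.cons_ne_zero) (le_of_eq hc)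
          ((hwin (a ::ₘ b ::ₘ 0) (by rw [hs]; omega) (by
            intro q hq
            rcases Multiset.mem_cons.1 hq with h2 | h2
            · omega
            · rcases Multiset.mem_cons.1 h2 with h3 | h3
              · omega
              · exact absurd h3 (Multiset.notMem_zero _))).mono hmA (by omega))
        rw [hs, hc, ← hν] at h1
        have h2 : ((F - v : ℕ) : ℝ) ^ 2 * muG (a ::ₘ b ::ₘ 0) (F - v) (g - 1) ≤
            ((F - v : ℕ) : ℝ) ^ 2 * (K₁ * exp (ε₁ * ((a + b : ℕ) : ℝ)) * gam x ^ (a + b) * ν) := by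
          refine le_trans h1 (le_of_eq ?_)
          ring
        have h3 := le_of_mul_le_mul_left h2 (pow_pos hF'0 2)
        exact h3.trans (hexp a b ha hb hab K₁ hK₁)
  have hSEP : SEP p 0 (F - v) g ≤ p * (K₂ * E) := by
    rw [npl_sep]
    refine npl_sum p hp (fun x => LL 2 (x.1 ::ₘ 0) (x.2 ::ₘ 0) (F - v) g) (K₂ * E) (by positivity)
      (fun a => npl_LL0 _ _ _) (fun a => npl_LL0' _ _ _) ?_
    intro a b ha hb hab
    show LL 2 (a ::ₘ 0) (b ::ₘ 0) (F - v) g ≤ K₂ * E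
    have hs : ((a ::ₘ (0 : Multiset ℕ)) + (b ::ₘ 0)).sum = a + b := by
      rw [Multiset.sum_add, Multiset.sum_cons, Multiset.sum_cons, Multiset.sum_zero]
      omega
    have hca : Multiset.card (a ::ₘ (0 : Multiset ℕ)) = 1 := rfl
    have hcb : Multiset.card (b ::ₘ (0 : Multiset ℕ)) = 1 := rfl
    have h1 := H₂ (a ::ₘ 0) (b ::ₘ 0) (F - v) g Multiset.cons_ne_zero Multiset.cons_ne_zero
      (le_of_eq hca) (le_of_eq hcb)
      ((hwin ((a ::ₘ 0) + (b ::ₘ 0)) (by rw [hs]; omega) (by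
        intro q hq
        rcases Multiset.mem_add.1 hq with h2 | h2
        · rcases Multiset.mem_cons.1 h2 with h3 | h3
          · omega
          · exact absurd h3 (Multiset.notMem_zero _)
        · rcases Multiset.mem_cons.1 h2 with h3 | h3
          · omega
          · exact absurd h3 (Multiset.notMem_zero _))).mono hmB (by omega))
    rw [hs, hca, hcb, ← hν] at h1
    have hLL : 0 ≤ LL 2 (a ::ₘ 0) (b ::ₘ 0) (F - v) g := by
      unfold LL
      refine Finset.sum_nonneg fun y _ => Finset.sum_nonneg fun z _ => ?_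
      split_ifs
      · exact mul_nonneg (muG_nonneg _ _ _) (muG_nonneg _ _ _)
      · exact le_rfl
    have h2 : ((F - v : ℕ) : ℝ) ^ 2 * LL 2 (a ::ₘ 0) (b ::ₘ 0) (F - v) g ≤
        ((F - v : ℕ) : ℝ) ^ 2 * (K₂ * exp (ε₁ * ((a + b : ℕ) : ℝ)) * gam x ^ (a + b) * ν) := by
      have h3 : ((F - v : ℕ) : ℝ) ^ 2 * LL 2 (a ::ₘ 0) (b ::ₘ 0) (F - v) g ≤
          ((F - v : ℕ) : ℝ) ^ (2 + 1) * LL 2 (a ::ₘ 0) (b ::ₘ 0) (F - v) g :=
        mul_le_mul_of_nonneg_right (pow_le_pow_right₀ hF'R (by norm_num)) hLL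
      refine h3.trans (h1.trans (le_of_eq ?_))
      ring
    have h3 := le_of_mul_le_mul_left h2 (pow_pos hF'0 2)
    exact h3.trans (hexp a b ha hb hab K₂ hK₂)
  -- `nu`
  obtain ⟨l, hl⟩ : ∃ l, l = (v + 1) / 2 := ⟨_, rfl⟩
  have hnl : (F - v + 1) / 2 = n - l := by omega
  have hln : l ≤ n := by omega
  have hg' : |(g : ℝ) - θ * n| ≤ δ₃ * n := by
    have hnR : (F : ℝ) + 1 = 2 * n := by exact_mod_cast hn
    have h1 : 2 * ((g : ℝ) - θ * n) = (2 * (g : ℝ) - θ * F) - θ := by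
      have : (2 : ℝ) * (θ * n) = θ * (F + 1) := by rw [hnR]; ring
      linarith
    have hNm : 1 ≤ m * N := by
      rw [div_le_iff₀ hm0] at hN
      linarith
    have hNF : (N : ℝ) ≤ n := by
      have : N ≤ n := by omega
      exact_mod_cast this
    have h2 : m * (N : ℝ) ≤ m * n := mul_le_mul_of_nonneg_left hNF hm0.le
    have h3 : m * (n : ℝ) ≤ δ₃ * n := mul_le_mul_of_nonneg_right hmC (Nat.cast_nonneg n)
    have h4 : m / 4 * (F : ℝ) ≤ m * n / 2 := by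
      have : m * (F : ℝ) ≤ m * (2 * n) := mul_le_mul_of_nonneg_left (by linarith) hm0.le
      linarith
    rw [abs_le] at w2 ⊢
    have hθ1 := h.2.1
    have hθ0 := h.1
    constructor <;> linarith [w2.1, w2.2]
  have h3 := H₃ n g l (by omega) hg' hln
  rw [← hnl, ← hν] at h3
  have hνle : ν ≤ √(yy x) ^ v * exp (ε₁ * (v + 1)) * SST.nu n g := by
    refine h3.trans (mul_le_mul_of_nonneg_right ?_ (npl_nn _ _))
    have e1 : yy x + yy x * ε₁ = yy x * (1 + ε₁) := by ring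
    rw [e1, mul_pow]
    have e2 : yy x ^ l ≤ √(yy x) ^ v := by
      have e3 : yy x ^ l = √(yy x) ^ (2 * l) := by
        rw [pow_mul, Real.sq_sqrt hy.le]
      rw [e3]
      exact pow_le_pow_of_le_one hr.le hr1 (by omega)
    have e4 : (1 + ε₁) ^ l ≤ exp (ε₁ * (v + 1)) := by
      have e5 : 1 + ε₁ ≤ exp ε₁ := by
        have := add_one_le_exp ε₁
        linarith
      have e6 : (1 + ε₁) ^ l ≤ exp ε₁ ^ l := pow_le_pow_left₀ (by linarith) e5 l
      refine e6.trans ?_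
      rw [← exp_nat_mul]
      refine exp_le_exp.2 ?_
      have e7 : (l : ℝ) ≤ v + 1 := by
        have : l ≤ v + 1 := by omega
        exact_mod_cast this
      nlinarith
    exact mul_le_mul e2 e4 (by positivity) (by positivity)
  -- end
  have hNP : NP g p (F - v) ≤ p * ((K₁ + K₂) * E) := by
    unfold NP
    linarith
  have hpe : (p : ℝ) ≤ exp (ε₁ * p) / ε₁ := by
    rw [le_div_iff₀ hε₁0]
    have := add_one_le_exp (ε₁ * p)
    linarith
  have hmu : muG (3 ::ₘ 0) F g = 3 * (F + 1) * SST.nu n g := by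
    rw [muG_three, hn, muG_nu n g (by omega)]
  have hE2 : E ≤ exp (ε₁ * p) * (gam x ^ p / gam x ^ 2) *
      (√(yy x) ^ v * exp (ε₁ * (v + 1)) * SST.nu n g) := by
    rw [hE]
    exact mul_le_mul_of_nonneg_left hνle (by positivity)
  have hnn := npl_nn n g
  have hX : NP g p (F - v) ≤ exp (ε₁ * p) / ε₁ * ((K₁ + K₂) *
      (exp (ε₁ * p) * (gam x ^ p / gam x ^ 2) *
      (√(yy x) ^ v * exp (ε₁ * (v + 1)) * SST.nu n g))) := by
    refine hNP.trans ?_
    refine mul_le_mul hpe (mul_le_mul_of_nonneg_left hE2 (by positivity)) (by positivity)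
      (by positivity)
  rw [hmu]
  exact npl_fin hε hv0 hε₁0 hε₁ (by positivity) (by positivity) (by positivity) (by positivity) hnn hF0 hX

end SYS.Num
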