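import Pool.Agent.SYS.XP.FMom
import Pool.Agent.SYS.XP.NEE
import Pool.Agent.SYS.XP.Cut
import Pool.Agent.SYS.BD.Mg
import Pool.Agent.SYS.RB.Win

/-!
# SYS-LA-Reg: no region of middle size with a short boundary and connected hidden part
-/

namespace SYS

open Classical SST Filter

private theorem reg_image {α β : Type*} [DecidableEq β] (S : Finset α) (φ : α → β) (F : β → ℝ) (hF : ∀ b, 0 ≤ F b) :
    ∑ j ∈ S.image φ, F j ≤ ∑ x ∈ S, F (φ x) := by
  induction S using Finset.induction with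
  | empty => simp
  | insert a S ha ih =>
    rw [Finset.image_insert, Finset.sum_insert ha]
    by_cases h : φ a ∈ S.image φ
    · rw [Finset.insert_eq_of_mem h]
      linarith [hF (φ a)]
    · rw [Finset.sum_insert h]
      linarith

private noncomputable def regF (n g : ℕ) (j : Multiset ℕ × ℕ × ℕ) : ℝ :=
  Num.muG j.1 j.2.1 j.2.2 * Num.muG j.1 (2 * n - j.2.1) (g + 1 - j.2.2 - Multiset.card j.1)

private theorem regF_nonneg (n g : ℕ) (j : Multiset ℕ × ℕ × ℕ) : 0 ≤ regF n g j :=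
  mul_nonneg (Num.muG_nonneg _ _ _) (Num.muG_nonneg _ _ _)

/-- index set -/
private noncomputable def regS (n g A M : ℕ) : Finset ((Σ p : ℕ, p.Partition) × ℕ × ℕ) :=
  (((Finset.Icc 1 M).sigma fun p => (Finset.univ : Finset p.Partition)) ×ˢ
    (Finset.range (2 * n + 1) ×ˢ Finset.range (g + 1))).filter fun x =>
      (A ≤ x.2.1 ∧ x.2.1 + A ≤ 2 * n) ∧ x.2.2 + Multiset.card x.1.2.parts ≤ g + 1

private def regφ (x : (Σ p : ℕ, p.Partition) × ℕ × ℕ) : Multiset ℕ × ℕ × ℕ := (x.1.2.parts, x.2.1, x.2.2)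

private theorem reg_ee {n g d p : ℕ} (hp : 1 ≤ p) :
    (∑ P : p.Partition, ∑ h ∈ Finset.range (g + 1),
      if h + Multiset.card P.parts ≤ g + 1 then regF n g (P.parts, d, h) else 0) ≤ XP.EE n g d p := by
  unfold XP.EE
  apply Finset.sum_le_sum
  intro P _
  apply Finset.sum_le_sum
  intro h _
  have hcard : 1 ≤ Multiset.card P.parts := by
    rw [Nat.one_le_iff_ne_zero, Ne, Multiset.card_eq_zero]
    intro h0
    have h1 := P.parts_sum
    rw [h0, Multiset.sum_zero] at h1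
    omega
  have hnn : ∀ h' ∈ Finset.range (g + 1), (0 : ℝ) ≤ if h + h' + Multiset.card P.parts = g + 1 then
      Num.muG P.parts d h * Num.muG P.parts (2 * n - d) h' else 0 := by
    intro h' _
    split_ifs
    · exact mul_nonneg (Num.muG_nonneg _ _ _) (Num.muG_nonneg _ _ _)
    · exact le_rfl
  split_ifs with hle
  · have hmem : g + 1 - h - Multiset.card P.parts ∈ Finset.range (g + 1) := by
      rw [Finset.mem_range]
      omega
    refine le_trans ?_ (Finset.single_le_sum hnn hmem)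
    rw [if_pos (by omega)]
    exact le_rfl
  · exact Finset.sum_nonneg hnn

private theorem reg_sum {n g A M : ℕ} {X : ℝ} (hX0 : 0 ≤ X)
    (hX : ∀ d p : ℕ, 1 ≤ p → p ≤ M → A ≤ d → d + A ≤ 2 * n → XP.EE n g d p ≤ X) :
    ∑ j ∈ (regS n g A M).image regφ, regF n g j ≤ M * ((2 * n + 1 : ℕ) * X) := by
  refine le_trans (reg_image _ _ _ (regF_nonneg n g)) ?_
  unfold regS
  rw [Finset.sum_filter, Finset.sum_product, Finset.sum_sigma]
  have h1 : ∀ p ∈ Finset.Icc 1 M, (∑ P : p.Partition, ∑ y ∈ Finset.range (2 * n + 1) ×ˢ Finset.range (g + 1),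
      if (A ≤ ((⟨p, P⟩, y) : (Σ p : ℕ, p.Partition) × ℕ × ℕ).2.1 ∧
        ((⟨p, P⟩, y) : (Σ p : ℕ, p.Partition) × ℕ × ℕ).2.1 + A ≤ 2 * n) ∧
        ((⟨p, P⟩, y) : (Σ p : ℕ, p.Partition) × ℕ × ℕ).2.2 +
          Multiset.card ((⟨p, P⟩, y) : (Σ p : ℕ, p.Partition) × ℕ × ℕ).1.2.parts ≤ g + 1 then
        regF n g (regφ ((⟨p, P⟩, y) : (Σ p : ℕ, p.Partition) × ℕ × ℕ)) else 0) ≤
      (2 * n + 1 : ℕ) * X := by
    intro p hp
    rw [Finset.mem_Icc] at hp
    have h2 : ∀ P : p.Partition, (∑ y ∈ Finset.range (2 * n + 1) ×ˢ Finset.range (g + 1),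
      if (A ≤ ((⟨p, P⟩, y) : (Σ p : ℕ, p.Partition) × ℕ × ℕ).2.1 ∧
        ((⟨p, P⟩, y) : (Σ p : ℕ, p.Partition) × ℕ × ℕ).2.1 + A ≤ 2 * n) ∧
        ((⟨p, P⟩, y) : (Σ p : ℕ, p.Partition) × ℕ × ℕ).2.2 +
          Multiset.card ((⟨p, P⟩, y) : (Σ p : ℕ, p.Partition) × ℕ × ℕ).1.2.parts ≤ g + 1 then
        regF n g (regφ ((⟨p, P⟩, y) : (Σ p : ℕ, p.Partition) × ℕ × ℕ)) else 0) =
        ∑ d ∈ Finset.range (2 * n + 1), if A ≤ d ∧ d + A ≤ 2 * n then ∑ h ∈ Finset.range (g + 1),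
          (if h + Multiset.card P.parts ≤ g + 1 then regF n g (P.parts, d, h) else 0) else 0 := by
      intro P
      rw [Finset.sum_product]
      apply Finset.sum_congr rfl
      intro d _
      by_cases hd : A ≤ d ∧ d + A ≤ 2 * n
      · rw [if_pos hd]
        apply Finset.sum_congr rfl
        intro h _
        simp only [hd, true_and, regφ]
      · rw [if_neg hd]
        apply Finset.sum_eq_zero
        intro h _
        rw [if_neg (fun h3 => hd h3.1)]
    rw [Finset.sum_congr rfl (fun P _ => h2 P), Finset.sum_comm]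
    have h3 : ∀ d ∈ Finset.range (2 * n + 1), (∑ P : p.Partition, if A ≤ d ∧ d + A ≤ 2 * n then
        ∑ h ∈ Finset.range (g + 1),
          (if h + Multiset.card P.parts ≤ g + 1 then regF n g (P.parts, d, h) else 0) else 0) ≤ X := by
      intro d _
      by_cases hd : A ≤ d ∧ d + A ≤ 2 * n
      · simp only [if_pos hd]
        exact le_trans (reg_ee hp.1) (hX d p hp.1 hp.2 hd.1 hd.2)
      · simp only [if_neg hd, Finset.sum_const_zero]
        exact hX0
    refine le_trans (Finset.sum_le_sum h3) ?_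
    rw [Finset.sum_const, Finset.card_range, nsmul_eq_mul]
  refine le_trans (Finset.sum_le_sum h1) ?_
  rw [Finset.sum_const, Nat.card_Icc, nsmul_eq_mul, Nat.add_sub_cancel]

private theorem EE_swap {n g d p : ℕ} (hd : d ≤ 2 * n) : XP.EE n g d p = XP.EE n g (2 * n - d) p := by
  unfold XP.EE
  apply Finset.sum_congr rfl
  intro P _
  rw [Finset.sum_comm]
  apply Finset.sum_congr rfl
  intro h _
  apply Finset.sum_congr rfl
  intro h' _
  rw [show 2 * n - (2 * n - d) = d by omega, add_comm h h', mul_comm]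

private theorem reg_set {n g : ℕ} {C C1 : ℝ} (hC1 : 0 < C1) (hn : 2 ≤ n) :
    {T : Tri (Fin (6 * n)) | T ∈ Trn n g ∧ ∃ S : Part (Fin (6 * n)), S.Le T ∧ S.Con ∧ S.HConn T ∧
      (S.B.ncard : ℝ) ≤ C * Real.log n ∧ C1 * Real.log n ≤ S.R.ncard ∧
      (S.R.ncard : ℝ) + C1 * Real.log n ≤ 6 * n} ⊆
    {T : Tri (Fin (6 * n)) | T ∈ Trn n g ∧ ∃ S : Part (Fin (6 * n)), S.Le T ∧ S.HConn T ∧
      ∃ j ∈ (regS n g ⌈C1 / 3 * Real.log n⌉₊ ⌊C * Real.log n⌋₊).image regφ,
        S.R.ncard = 3 * j.2.1 ∧ S ∈ XP.SS S.R j.2.1 j.1 j.2.2} := by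
  rintro T ⟨hT, S, hle, hcon, hh, hb, hr1, hr2⟩
  have hlog : 0 < Real.log n := Real.log_pos (by exact_mod_cast (by omega : 1 < n))
  have hpos : 0 < C1 * Real.log n := mul_pos hC1 hlog
  obtain ⟨d, hd⟩ := XP.fs_three (T := T) (Y := S.R) (fun e => Part.le_f_mem hle e)
  have hR : S.R.Nonempty := by
    rw [Set.nonempty_iff_ne_empty]
    intro h0
    rw [h0, Set.ncard_empty] at hr1
    simp only [Nat.cast_zero] at hr1
    linarith
  have hB : S.B.Nonempty := by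
    by_contra h0
    rw [Set.not_nonempty_iff_eq_empty] at h0
    have h1 : S.R = Set.univ := by
      apply hT.1 _ hR
      intro e he
      refine ⟨?_, (Part.le_f_mem hle e).2 he⟩
      have h2 : S.a e ≠ e := by
        intro h3
        have h4 : e ∈ S.B := ⟨he, h3⟩
        rw [h0] at h4
        exact h4
      rw [hle.2 e h2, Part.mem_R_a]
      exact he
    rw [h1, Set.ncard_univ, Nat.card_eq_fintype_card, Fintype.card_fin] at hr2
    push_cast at hr2
    linarith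
  obtain ⟨P, h, h1, h2, h3, h4, h5⟩ := XP.reg_type hT hle hcon hh hd hR hB
  refine ⟨hT, S, hle, hh, (P, d, h), ?_, hd, h5⟩
  have hS1 : 1 ≤ S.B.ncard := by
    rw [Nat.one_le_iff_ne_zero, Ne, Set.ncard_eq_zero]
    exact hB.ne_empty
  have hd2 : (3 : ℝ) * d = S.R.ncard := by
    rw [hd]
    push_cast
    ring
  rw [← hd2] at hr1 hr2
  have hA1 : ⌈C1 / 3 * Real.log n⌉₊ ≤ d := by
    rw [Nat.ceil_le]
    linarith
  have hdn : d ≤ 2 * n := by
    have h6 : (d : ℝ) ≤ 2 * n := by linarith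
    exact_mod_cast h6
  have hA2 : ⌈C1 / 3 * Real.log n⌉₊ ≤ 2 * n - d := by
    rw [Nat.ceil_le, Nat.cast_sub hdn]
    push_cast
    linarith
  rw [Finset.mem_image]
  refine ⟨(⟨P.sum, ⟨P, fun {i} hi => h2 i hi, rfl⟩⟩, d, h), ?_, rfl⟩
  unfold regS
  rw [Finset.mem_filter]
  have hA3 : d + ⌈C1 / 3 * Real.log n⌉₊ ≤ 2 * n := by omega
  refine ⟨?_, ⟨hA1, hA3⟩, h4⟩
  rw [Finset.mem_product, Finset.mem_product, Finset.mem_sigma, Finset.mem_Icc, Finset.mem_range,
    Finset.mem_range]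
  refine ⟨⟨⟨?_, ?_⟩, Finset.mem_univ _⟩, ?_, ?_⟩
  · show 1 ≤ P.sum
    omega
  · show P.sum ≤ _
    rw [h3]
    exact Nat.le_floor hb
  · show d < 2 * n + 1
    omega
  · show h < g + 1
    omega

private theorem reg_J {n g A M : ℕ} (hA : 1 ≤ A) : ∀ j ∈ (regS n g A M).image regφ,
    1 ≤ Multiset.card j.1 ∧ (∀ p ∈ j.1, 1 ≤ p) ∧ 1 ≤ j.2.1 ∧ j.2.1 ≤ 2 * n ∧
      j.2.2 + Multiset.card j.1 ≤ g + 1 := by
  intro j hj
  rw [Finset.mem_image] at hj
  obtain ⟨⟨⟨p, P⟩, d, h⟩, hx, rfl⟩ := hj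
  unfold regS at hx
  rw [Finset.mem_filter, Finset.mem_product, Finset.mem_product, Finset.mem_sigma, Finset.mem_Icc] at hx
  obtain ⟨⟨⟨hp, _⟩, _⟩, ⟨h1, h2⟩, h3⟩ := hx
  have hp1 : 1 ≤ p := hp.1
  have h1' : A ≤ d := h1
  have h2' : d + A ≤ 2 * n := h2
  refine ⟨?_, fun i hi => P.parts_pos hi, ?_, ?_, h3⟩
  · show 1 ≤ Multiset.card P.parts
    rw [Nat.one_le_iff_ne_zero, Ne, Multiset.card_eq_zero]
    intro h0
    have h1 := P.parts_sum
    rw [h0, Multiset.sum_zero] at h1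
    omega
  · show 1 ≤ d
    omega
  · show d ≤ 2 * n
    omega

theorem reg {θ x : ℝ} (h : Num.Par θ x) (C : ℝ) (hC : 0 < C) : ∃ C1 : ℝ, 0 < C1 ∧ ∀ᶠ q in RB.Fth θ,
    (q.1 : ℝ) * (({T : Tri (Fin (6 * q.1)) | T ∈ Trn q.1 q.2 ∧ ∃ S : Part (Fin (6 * q.1)), S.Le T ∧ S.Con ∧ S.HConn T ∧
      (S.B.ncard : ℝ) ≤ C * Real.log q.1 ∧ C1 * Real.log q.1 ≤ S.R.ncard ∧
      (S.R.ncard : ℝ) + C1 * Real.log q.1 ≤ 6 * q.1}.ncard : ℕ) : ℝ) ≤ (Trn q.1 q.2).ncard := by
  obtain ⟨c, c2, K, hc0, hc1, hc2, hK, hev⟩ := XP.ee_le h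
  refine ⟨3 * (1 + C / c + 5 / c2), by positivity, ?_⟩
  filter_upwards [hev, RB.ge_ev θ 2, RB.ge_ev θ ⌈3 * (C * K)⌉₊] with q hq hn2 hnK
  obtain ⟨n, g⟩ := q
  simp only at hq hn2 hnK ⊢
  set C2 : ℝ := 1 + C / c + 5 / c2 with hC2
  have hn1 : (2 : ℝ) ≤ n := by exact_mod_cast hn2
  have hn0 : (0 : ℝ) < n := by linarith
  have hnK' : 3 * (C * K) ≤ n := Nat.ceil_le.1 hnK
  have hlog : 0 < Real.log n := Real.log_pos (by linarith)
  have hlogn : Real.log n ≤ n := by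
    have := Real.log_le_sub_one_of_pos hn0
    linarith
  have hC2pos : 0 < C2 := by positivity
  have hcC : C ≤ c * C2 := by
    rw [hC2]
    have h1 : c * (1 + C / c + 5 / c2) = C + (c + c * (5 / c2)) := by
      field_simp
      ring
    rw [h1]
    have : 0 < c + c * (5 / c2) := by positivity
    linarith
  have hc2C : 5 ≤ c2 * C2 := by
    rw [hC2]
    have h1 : c2 * (1 + C / c + 5 / c2) = 5 + (c2 + c2 * (C / c)) := by
      field_simp
      ring
    rw [h1]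
    have : 0 < c2 + c2 * (C / c) := by positivity
    linarith
  set A : ℕ := ⌈3 * C2 / 3 * Real.log n⌉₊ with hA
  set M : ℕ := ⌊C * Real.log n⌋₊ with hM
  have h33 : 3 * C2 / 3 = C2 := by ring
  have hA1 : 1 ≤ A := by
    rw [hA, Nat.one_le_ceil_iff, h33]
    positivity
  have hAle : C2 * Real.log n ≤ A := by
    have := Nat.le_ceil (3 * C2 / 3 * Real.log n)
    rw [h33] at this
    rwa [hA, h33]
  have hMle : (M : ℝ) ≤ C * Real.log n := Nat.floor_le (by positivity)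
  have hnu0 : 0 ≤ SST.nu n g := by
    unfold SST.nu
    positivity
  have hbound : ∀ d p : ℕ, 1 ≤ p → p ≤ M → A ≤ d → d ≤ n →
      XP.EE n g d p ≤ K * n * (1 / (n : ℝ) ^ 5) * SST.nu n g := by
    intro d p hp hpM hd hdn
    have hdr : C2 * Real.log n ≤ d := le_trans hAle (by exact_mod_cast hd)
    have hpc : (p : ℝ) ≤ c * d := by
      have h1 : (p : ℝ) ≤ M := by exact_mod_cast hpM
      calc (p : ℝ) ≤ C * Real.log n := le_trans h1 hMle
        _ ≤ c * C2 * Real.log n := mul_le_mul_of_nonneg_right hcC hlog.le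
        _ = c * (C2 * Real.log n) := by ring
        _ ≤ c * d := mul_le_mul_of_nonneg_left hdr hc0.le
    refine le_trans (hq d p hp hpc hdn) ?_
    apply mul_le_mul_of_nonneg_right _ hnu0
    apply mul_le_mul_of_nonneg_left _ (by positivity)
    have h5 : -c2 * (d : ℝ) ≤ -(5 * Real.log n) := by
      have h6 : 5 * Real.log n ≤ c2 * d := by
        calc 5 * Real.log n ≤ c2 * C2 * Real.log n := mul_le_mul_of_nonneg_right hc2C hlog.le
          _ = c2 * (C2 * Real.log n) := by ring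
          _ ≤ c2 * d := mul_le_mul_of_nonneg_left hdr hc2.le
      linarith
    refine le_trans (Real.exp_le_exp.2 h5) ?_
    rw [Real.exp_neg, one_div]
    have h7 : Real.exp (5 * Real.log n) = (n : ℝ) ^ 5 := by
      rw [show (5 : ℝ) * Real.log n = ((5 : ℕ) : ℝ) * Real.log n by norm_num, Real.exp_nat_mul, Real.exp_log hn0]
    rw [h7]
  have hX : ∀ d p : ℕ, 1 ≤ p → p ≤ M → A ≤ d → d + A ≤ 2 * n →
      XP.EE n g d p ≤ K * n * (1 / (n : ℝ) ^ 5) * SST.nu n g := by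
    intro d p hp hpM hd hd2
    by_cases hdn : d ≤ n
    · exact hbound d p hp hpM hd hdn
    · rw [EE_swap (by omega)]
      exact hbound _ p hp hpM (by omega) (by omega)
  have hsum := reg_sum (n := n) (g := g) (A := A) (M := M) (X := K * n * (1 / (n : ℝ) ^ 5) * SST.nu n g)
    (by positivity) hX
  have hfm := XP.fmom (n := n) (g := g) ((regS n g A M).image regφ) (reg_J hA1)
  have hfin : (({T : Tri (Fin (6 * n)) | T ∈ Trn n g ∧ ∃ S : Part (Fin (6 * n)), S.Le T ∧ S.Con ∧ S.HConn T ∧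
      (S.B.ncard : ℝ) ≤ C * Real.log n ∧ 3 * C2 * Real.log n ≤ S.R.ncard ∧
      (S.R.ncard : ℝ) + 3 * C2 * Real.log n ≤ 6 * n}.ncard : ℕ) : ℝ) ≤
      ((6 * n).factorial : ℝ) * (M * ((2 * n + 1 : ℕ) * (K * n * (1 / (n : ℝ) ^ 5) * SST.nu n g))) := by
    refine le_trans ?_ (le_trans hfm ?_)
    · exact_mod_cast Set.ncard_le_ncard (reg_set (by positivity) hn2) (Set.toFinite _)
    · exact mul_le_mul_of_nonneg_left hsum (by positivity)
  have hTr : ((Trn n g).ncard : ℝ) = (6 * n).factorial * SST.nu n g := by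
    unfold SST.nu
    field_simp
  rw [hTr]
  refine le_trans (mul_le_mul_of_nonneg_left hfin hn0.le) ?_
  have hfac : (0 : ℝ) < (6 * n).factorial := by exact_mod_cast Nat.factorial_pos _
  have hfn : 0 ≤ ((6 * n).factorial : ℝ) * SST.nu n g := by positivity
  have hone : (n : ℝ) * (M * ((2 * n + 1 : ℕ) * (K * n * (1 / (n : ℝ) ^ 5)))) ≤ 1 := by
    have h1 : (M : ℝ) ≤ C * n := le_trans hMle (mul_le_mul_of_nonneg_left hlogn hC.le)
    have h2 : ((2 * n + 1 : ℕ) : ℝ) ≤ 3 * n := by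
      push_cast
      linarith
    calc (n : ℝ) * (M * ((2 * n + 1 : ℕ) * (K * n * (1 / (n : ℝ) ^ 5))))
        ≤ n * ((C * n) * ((3 * n) * (K * n * (1 / (n : ℝ) ^ 5)))) := by
          apply mul_le_mul_of_nonneg_left _ hn0.le
          apply mul_le_mul h1 _ (by positivity) (by positivity)
          exact mul_le_mul_of_nonneg_right h2 (by positivity)
      _ = 3 * (C * K) / n := by
          field_simp
      _ ≤ 1 := by
          rw [div_le_one hn0]
          exact hnK'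
  calc (n : ℝ) * (((6 * n).factorial : ℝ) * (M * ((2 * n + 1 : ℕ) * (K * n * (1 / (n : ℝ) ^ 5) * SST.nu n g))))
      = (n * (M * ((2 * n + 1 : ℕ) * (K * n * (1 / (n : ℝ) ^ 5))))) * (((6 * n).factorial : ℝ) * SST.nu n g) := by
        ring
    _ ≤ 1 * (((6 * n).factorial : ℝ) * SST.nu n g) := mul_le_mul_of_nonneg_right hone hfn
    _ = ((6 * n).factorial : ℝ) * SST.nu n g := one_mul _

end SYS
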