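import Pool.Agent.SYS.LA.HcV

/-!
# SYS-LA-Side: the sides of a closed walk

`Sd T W d e`: the faces of `d` and `e` are connected by a path of faces which does not cross an edge of `W`. Let `Y = {e | Sd T W d e}` and `E = {e | e ∈ W ∨ T.a e ∈ W}`.
-/

namespace SYS

open Classical SST

variable {D : Type} [Finite D]

/-- Two faces on the same side of `W`. -/
def Sd (T : Tri D) (W : List D) (d e : D) : Prop :=
  Relation.EqvGen (fun d e => e = T.f d ∨ (e = T.a d ∧ d ∉ W ∧ T.a d ∉ W)) d e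

omit [Finite D] in
private theorem sd_f (T : Tri D) (W : List D) (d : D) : Sd T W d (T.f d) := Relation.EqvGen.rel _ _ (Or.inl rfl)

omit [Finite D] in
private theorem sd_a {T : Tri D} {W : List D} {d : D} (h : ¬ (d ∈ W ∨ T.a d ∈ W)) : Sd T W d (T.a d) :=
  Relation.EqvGen.rel _ _ (Or.inr ⟨rfl, fun h1 => h (Or.inl h1), fun h1 => h (Or.inr h1)⟩)

omit [Finite D] in
private theorem sd_trans {T : Tri D} {W : List D} {d e k : D} (h : Sd T W d e) (h' : Sd T W e k) : Sd T W d k :=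
  Relation.EqvGen.trans _ _ _ h h'

omit [Finite D] in
private theorem sd_symm {T : Tri D} {W : List D} {d e : D} (h : Sd T W d e) : Sd T W e d :=
  Relation.EqvGen.symm _ _ h

theorem sd_meet {T : Tri D} (hT : T.Conn) {W : List D} (hne : W ≠ []) (d : D) :
    ∃ e, (e ∈ W ∨ T.a e ∈ W) ∧ Sd T W d e := by
  by_contra hcon
  have hcon' : ∀ e, Sd T W d e → ¬ (e ∈ W ∨ T.a e ∈ W) := fun e he h => hcon ⟨e, h, he⟩
  have h1 : {e | Sd T W d e} = Set.univ := by
    apply hT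
    · exact ⟨d, Relation.EqvGen.refl _⟩
    · intro e he
      exact ⟨sd_trans he (sd_a (hcon' e he)), sd_trans he (sd_f T W e)⟩
  obtain ⟨w, hw⟩ := List.exists_mem_of_ne_nil W hne
  have h2 : w ∈ {e | Sd T W d e} := by
    rw [h1]
    trivial
  exact hcon' w h2 (Or.inl hw)

theorem sd_part {T : Tri D} (hT : T.Conn) {W : List D} (hW : T.Closed W) (hne : W ≠ []) (d : D) :
    ∃ S : Part D, S.Le T ∧ S.Con ∧ S.HConn T ∧ S.R = {e | Sd T W d e} ∧ S.B.ncard ≤ 2 * W.length := by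
  have hY : ∀ e, T.f e ∈ {e | Sd T W d e} ↔ e ∈ {e | Sd T W d e} := fun e =>
    ⟨fun h => sd_trans h (sd_symm (sd_f T W e)), fun h => sd_trans h (sd_f T W e)⟩
  have hE' : ∀ e, e ∈ {e | Sd T W d e ∧ ¬ (e ∈ W ∨ T.a e ∈ W)} →
      T.a e ∈ {e | Sd T W d e ∧ ¬ (e ∈ W ∨ T.a e ∈ W)} := by
    rintro e ⟨h1, h2⟩
    refine ⟨sd_trans h1 (sd_a h2), ?_⟩
    rw [T.aa]
    exact fun h => h2 h.symm
  have hE : ∀ e, T.a e ∈ {e | Sd T W d e ∧ ¬ (e ∈ W ∨ T.a e ∈ W)} ↔
      e ∈ {e | Sd T W d e ∧ ¬ (e ∈ W ∨ T.a e ∈ W)} := by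
    intro e
    refine ⟨fun h => ?_, hE' e⟩
    have := hE' _ h
    rwa [T.aa] at this
  have hEY : {e | Sd T W d e ∧ ¬ (e ∈ W ∨ T.a e ∈ W)} ⊆ {e | Sd T W d e} := fun e h => h.1
  obtain ⟨S, hS⟩ : ∃ S, S = Part.subPart T {e | Sd T W d e} {e | Sd T W d e ∧ ¬ (e ∈ W ∨ T.a e ∈ W)} hY hE hEY :=
    ⟨_, rfl⟩
  have hR : S.R = {e | Sd T W d e} := by
    rw [hS]
    exact Part.subPart_R _ _ _ _ _ _
  have hB : ∀ e, e ∈ S.B ↔ Sd T W d e ∧ (e ∈ W ∨ T.a e ∈ W) := by
    intro e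
    have h1 : S.B = {e | Sd T W d e} \ {e | Sd T W d e ∧ ¬ (e ∈ W ∨ T.a e ∈ W)} := by
      rw [hS]
      exact Part.subPart_B _ _ _ _ _ _
    rw [h1]
    constructor
    · rintro ⟨h2, h3⟩
      refine ⟨h2, ?_⟩
      by_contra h4
      exact h3 ⟨h2, h4⟩
    · rintro ⟨h2, h3⟩
      exact ⟨h2, fun h4 => h4.2 h3⟩
  have hLe : S.Le T := by
    rw [hS]
    exact Part.subPart_le _ _ _ _ _ _
  have hf : ∀ e, Sd T W d e → S.f e = T.f e := by
    intro e he
    rw [hS]
    exact restr_mem T.f hY he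
  have ha : ∀ e, Sd T W d e → ¬ (e ∈ W ∨ T.a e ∈ W) → S.a e = T.a e := by
    intro e he he'
    rw [hS]
    exact restr_mem T.a hE ⟨he, he'⟩
  have hmR : ∀ e, e ∈ S.R ↔ Sd T W d e := by
    intro e
    rw [hR]
    rfl
  -- connected
  have hcn : ∀ x y, Sd T W x y → (Sd T W d x ↔ Sd T W d y) ∧ (Sd T W d x → S.Cn x y) := by
    intro x y h
    induction h with
    | rel x y hh =>
      rcases hh with rfl | ⟨rfl, h1, h2⟩
      · refine ⟨(hY x).symm, fun hx => ?_⟩
        rw [← hf x hx]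
        exact Part.cn_f S x
      · have h3 : ¬ (x ∈ W ∨ T.a x ∈ W) := fun h => h.elim h1 h2
        refine ⟨⟨fun h => sd_trans h (sd_a h3), fun h => sd_trans h (sd_symm (sd_a h3))⟩, fun hx => ?_⟩
        rw [← ha x hx h3]
        exact Part.cn_a S x
    | refl x => exact ⟨Iff.rfl, fun _ => Part.cn_refl S x⟩
    | symm x y _ ih => exact ⟨ih.1.symm, fun h => Part.cn_symm (ih.2 (ih.1.2 h))⟩
    | trans x y z _ _ ih1 ih2 =>
      exact ⟨ih1.1.trans ih2.1, fun h => Part.cn_trans (ih1.2 h) (ih2.2 (ih1.1.1 h))⟩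
  -- the hidden part
  have hhc : ∀ x y, Sd T W x y → (Sd T W d x ↔ Sd T W d y) ∧ (¬ Sd T W d x → S.Hc T x y) := by
    intro x y h
    induction h with
    | rel x y hh =>
      rcases hh with rfl | ⟨rfl, h1, h2⟩
      · exact ⟨(hY x).symm, fun hx => Part.hc_f (fun h => hx ((hmR x).1 h))⟩
      · have h3 : ¬ (x ∈ W ∨ T.a x ∈ W) := fun h => h.elim h1 h2
        exact ⟨⟨fun h => sd_trans h (sd_a h3), fun h => sd_trans h (sd_symm (sd_a h3))⟩, fun hx =>
          Part.hc_a (Or.inl fun h => hx ((hmR x).1 h))⟩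
    | refl x => exact ⟨Iff.rfl, fun _ => Part.hc_refl S T x⟩
    | symm x y _ ih => exact ⟨ih.1.symm, fun h => Part.hc_symm (ih.2 fun h' => h (ih.1.1 h'))⟩
    | trans x y z _ _ ih1 ih2 =>
      exact ⟨ih1.1.trans ih2.1, fun h => Part.hc_trans (ih1.2 h) (ih2.2 fun h' => h (ih1.1.2 h'))⟩
  have hEX : ∀ e, (e ∈ W ∨ T.a e ∈ W) → e ∈ S.X := by
    intro e he
    by_cases h : Sd T W d e
    · exact Or.inr ((hB e).2 ⟨h, he⟩)
    · exact Or.inl fun h1 => h ((hmR e).1 h1)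
  have hXE : ∀ e ∈ S.X, ∃ w ∈ W, S.Hc T e w := by
    intro e he
    have h1 : ∃ e', (e' ∈ W ∨ T.a e' ∈ W) ∧ S.Hc T e e' := by
      by_cases h : Sd T W d e
      · rcases he with h2 | h2
        · exact absurd ((hmR e).2 h) h2
        · exact ⟨e, ((hB e).1 h2).2, Part.hc_refl S T e⟩
      · obtain ⟨e', h2, h3⟩ := sd_meet hT hne e
        exact ⟨e', h2, (hhc e e' h3).2 h⟩
    obtain ⟨e', h2, h3⟩ := h1
    rcases h2 with h2 | h2
    · exact ⟨e', h2, h3⟩
    · exact ⟨T.a e', h2, Part.hc_trans h3 (Part.hc_a (hEX e' (Or.inr h2)))⟩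
  refine ⟨S, hLe, ?_, ?_, hR, ?_⟩
  · intro x hx y hy
    have hx' := (hmR x).1 hx
    have hy' := (hmR y).1 hy
    exact (hcn x y (sd_trans (sd_symm hx') hy')).2 hx'
  · intro x hx y hy
    obtain ⟨w, hw, h1⟩ := hXE x hx
    obtain ⟨w', hw', h2⟩ := hXE y hy
    obtain ⟨v, hv⟩ := hW
    have h3 := Part.hc_walk hLe hv (fun e he => hEX e (Or.inl he)) w hw w' hw'
    exact Part.hc_trans h1 (Part.hc_trans h3 (Part.hc_symm h2))
  · have h1 : S.B ⊆ ((W.toFinset ∪ W.toFinset.image T.a : Finset D) : Set D) := by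
      intro e he
      rw [Finset.mem_coe, Finset.mem_union, List.mem_toFinset, Finset.mem_image]
      rcases ((hB e).1 he).2 with h2 | h2
      · exact Or.inl h2
      · exact Or.inr ⟨T.a e, List.mem_toFinset.2 h2, T.aa e⟩
    have h2 := Set.ncard_le_ncard h1 (Finset.finite_toSet _)
    rw [Set.ncard_coe_finset] at h2
    have h3 := Finset.card_union_le W.toFinset (W.toFinset.image T.a)
    have h4 := Finset.card_image_le (s := W.toFinset) (f := T.a)
    have h5 := List.toFinset_card_le W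
    omega

theorem sd_k {T : Tri D} {W : List D} {k : D → ℤ} (hk : ∀ d, k (T.f d) = k d)
    (hc : ∀ d, T.chain W d = k d - k (T.a d)) {d e : D} (h : Sd T W d e) : k d = k e := by
  induction h with
  | rel x y hh =>
    rcases hh with rfl | ⟨rfl, h1, h2⟩
    · exact (hk x).symm
    · have h3 : T.chain W x = 0 := by
        unfold Tri.chain
        apply List.sum_eq_zero
        intro z hz
        obtain ⟨e, he, rfl⟩ := List.mem_map.1 hz
        have h4 : Tri.ind e x = 0 := by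
          unfold Tri.ind
          rw [if_neg]
          rintro rfl
          exact h1 he
        have h5 : Tri.ind e (T.a x) = 0 := by
          unfold Tri.ind
          rw [if_neg]
          rintro rfl
          exact h2 he
        rw [h4, h5, sub_zero]
      have h6 := hc x
      rw [h3] at h6
      linarith
  | refl x => rfl
  | symm x y _ ih => exact ih.symm
  | trans x y z _ _ ih1 ih2 => exact ih1.trans ih2

end SYS
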