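import Pool.Agent.SYS.BD.Hist

/-!
# SYS-LA-Tree: stopping the peeling, lower bound for the stopped words

`b` is a stopping property of words. If the one step inequality holds in the direction `Φ ≤ ..` then `Φ s F` is at most the sum over the words at which the peeling stops plus the sum of `Z` over the words before the stopping.

PROOF. `fin_words`: a word with `WOk s w`, `wvol w ≤ F` has length at most `s + 2 F` (every `T` uses a triangle and raises the perimeter by one, every `L`, `R` lowers the perimeter by at least `2`;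
see the private `wr_len` in `UP/Wrd.lean`) and its letters are `T`, `L k a`, `R k a` with `k ≤ s + F`, `a ≤ F`: finite.
`tree_le`: induction on `s + 2 F` for all `b`, `A`, `I`. If `b []` then `[] ∈ A` (no proper prefix) and its term is `Φ s F`. Otherwise `[] ∈ I` with the term `Z s F`; for every possible first step `t` (`T` if `F ≥ 1`;
`L k a`, `R k a` with `k < s - 2`, `a ≤ F`) apply the induction hypothesis at `t.nx s`, `F - t.vol` (`nx + 2 (F - vol) < s + 2 F`) with `b' w = b (t :: w)`, `A' = {w | t :: w ∈ A}`, `I' = {w | t :: w ∈ I}`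
(finite sets: images under `List.tail` of the words of `A` with head `t`), multiply by `t.wt 1 W` (`wwt_cons`, `wend_cons`, `wvol_cons`, `F - (t.vol + wvol w)`), and add up; the sets of words with different first steps are disjoint
and all terms are nonnegative (`wwt_nonneg`, `W_nonneg`). The sums over the steps are `if F = 0 then 0 else ..` for `T` and `∑ k ∈ range (s - 2), ∑ a ∈ range (F + 1)` for `L` and for `R` (each gives one half of the factor `2`).
-/

namespace SYS.Num

open Classical in
/-- the possible first steps -/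
private noncomputable def trS (s F : ℕ) : Finset Stp :=
  (if F = 0 then ∅ else {Stp.T}) ∪
    (((Finset.range (s - 2) ×ˢ Finset.range (F + 1)).image fun z => Stp.L z.1 z.2) ∪
      ((Finset.range (s - 2) ×ˢ Finset.range (F + 1)).image fun z => Stp.R z.1 z.2))

private theorem mem_trS {s F : ℕ} {t : Stp} : t ∈ trS s F ↔ t.Ok s ∧ t.vol ≤ F := by
  unfold trS
  rw [Finset.mem_union, Finset.mem_union, Finset.mem_image, Finset.mem_image]
  cases t with
  | T =>
    constructor
    · rintro (h | ⟨z, _, hz⟩ | ⟨z, _, hz⟩)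
      · refine ⟨trivial, ?_⟩
        by_cases h0 : F = 0
        · rw [if_pos h0] at h
          exact absurd h (Finset.notMem_empty _)
        · show 1 ≤ F
          omega
      · cases hz
      · cases hz
    · rintro ⟨_, h⟩
      have h' : 1 ≤ F := h
      left
      rw [if_neg (by omega)]
      exact Finset.mem_singleton_self _
  | L k a =>
    constructor
    · rintro (h | ⟨z, hz1, hz⟩ | ⟨z, _, hz⟩)
      · by_cases h0 : F = 0
        · rw [if_pos h0] at h
          exact absurd h (Finset.notMem_empty _)
        · rw [if_neg h0, Finset.mem_singleton] at h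
          cases h
      · cases hz
        rw [Finset.mem_product, Finset.mem_range, Finset.mem_range] at hz1
        refine ⟨?_, ?_⟩
        · show z.1 + 3 ≤ s
          omega
        · show z.2 ≤ F
          omega
      · cases hz
    · rintro ⟨h1, h2⟩
      have h1' : k + 3 ≤ s := h1
      have h2' : a ≤ F := h2
      refine Or.inr (Or.inl ⟨(k, a), ?_, rfl⟩)
      rw [Finset.mem_product, Finset.mem_range, Finset.mem_range]
      exact ⟨by show k < s - 2; omega, by show a < F + 1; omega⟩
  | R k a =>
    constructor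
    · rintro (h | ⟨z, _, hz⟩ | ⟨z, hz1, hz⟩)
      · by_cases h0 : F = 0
        · rw [if_pos h0] at h
          exact absurd h (Finset.notMem_empty _)
        · rw [if_neg h0, Finset.mem_singleton] at h
          cases h
      · cases hz
      · cases hz
        rw [Finset.mem_product, Finset.mem_range, Finset.mem_range] at hz1
        refine ⟨?_, ?_⟩
        · show z.1 + 3 ≤ s
          omega
        · show z.2 ≤ F
          omega
    · rintro ⟨h1, h2⟩
      have h1' : k + 3 ≤ s := h1
      have h2' : a ≤ F := h2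
      refine Or.inr (Or.inr ⟨(k, a), ?_, rfl⟩)
      rw [Finset.mem_product, Finset.mem_range, Finset.mem_range]
      exact ⟨by show k < s - 2; omega, by show a < F + 1; omega⟩

private theorem trS_lt {s F : ℕ} {t : Stp} (h : t ∈ trS s F) :
    t.nx s + 2 * (F - t.vol) < s + 2 * F := by
  obtain ⟨h1, h2⟩ := mem_trS.1 h
  cases t with
  | T =>
    have h2' : 1 ≤ F := h2
    show s + 1 + 2 * (F - 1) < s + 2 * F
    omega
  | L k a =>
    have h1' : k + 3 ≤ s := h1
    show s - (k + 2) + 2 * (F - a) < s + 2 * F
    omega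
  | R k a =>
    have h1' : k + 3 ≤ s := h1
    show s - (k + 2) + 2 * (F - a) < s + 2 * F
    omega

private theorem trS_sum (s F : ℕ) (Φ : ℕ → ℕ → ℝ) :
    ∑ t ∈ trS s F, t.wt 1 W * Φ (t.nx s) (F - t.vol) =
      (if F = 0 then 0 else Φ (s + 1) (F - 1)) +
      2 * (∑ k ∈ Finset.range (s - 2), ∑ a ∈ Finset.range (F + 1), W k a * Φ (s - 2 - k) (F - a)) := by
  classical
  unfold trS
  rw [Finset.sum_union, Finset.sum_union, Finset.sum_image, Finset.sum_image, Finset.sum_product,
    Finset.sum_product]
  · have h1 : ∀ k ∈ Finset.range (s - 2), ∀ a ∈ Finset.range (F + 1),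
        (Stp.L k a).wt 1 W * Φ ((Stp.L k a).nx s) (F - (Stp.L k a).vol) =
          W k a * Φ (s - 2 - k) (F - a) := by
      intro k _ a _
      show W k a * Φ (s - (k + 2)) (F - a) = _
      have h2 : s - (k + 2) = s - 2 - k := by omega
      rw [h2]
    have h1' : ∀ k ∈ Finset.range (s - 2), ∀ a ∈ Finset.range (F + 1),
        (Stp.R k a).wt 1 W * Φ ((Stp.R k a).nx s) (F - (Stp.R k a).vol) =
          W k a * Φ (s - 2 - k) (F - a) := by
      intro k _ a _
      show W k a * Φ (s - (k + 2)) (F - a) = _
      have h2 : s - (k + 2) = s - 2 - k := by omega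
      rw [h2]
    have h3 : ∑ t ∈ (if F = 0 then (∅ : Finset Stp) else {Stp.T}),
        t.wt 1 W * Φ (t.nx s) (F - t.vol) = (if F = 0 then 0 else Φ (s + 1) (F - 1)) := by
      by_cases h0 : F = 0
      · rw [if_pos h0, if_pos h0, Finset.sum_empty]
      · rw [if_neg h0, if_neg h0, Finset.sum_singleton]
        show (1 : ℝ) * Φ (s + 1) (F - 1) = _
        rw [one_mul]
    rw [h3]
    rw [Finset.sum_congr rfl fun k hk => Finset.sum_congr rfl (h1 k hk),
      Finset.sum_congr rfl fun k hk => Finset.sum_congr rfl (h1' k hk)]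
    ring
  · intro x _ y _ h
    have h2 : Stp.R x.1 x.2 = Stp.R y.1 y.2 := h
    injection h2 with h3 h4
    exact Prod.ext h3 h4
  · intro x _ y _ h
    have h2 : Stp.L x.1 x.2 = Stp.L y.1 y.2 := h
    injection h2 with h3 h4
    exact Prod.ext h3 h4
  · rw [Finset.disjoint_left]
    intro t h1 h2
    obtain ⟨z, _, rfl⟩ := Finset.mem_image.1 h1
    obtain ⟨y, _, hy⟩ := Finset.mem_image.1 h2
    cases hy
  · rw [Finset.disjoint_left]
    intro t h1 h2
    have h3 : t = Stp.T := by
      by_cases h0 : F = 0
      · rw [if_pos h0] at h1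
        exact absurd h1 (Finset.notMem_empty _)
      · rw [if_neg h0, Finset.mem_singleton] at h1
        exact h1
    rw [h3, Finset.mem_union] at h2
    rcases h2 with h2 | h2
    · obtain ⟨y, _, hy⟩ := Finset.mem_image.1 h2
      cases hy
    · obtain ⟨y, _, hy⟩ := Finset.mem_image.1 h2
      cases hy

theorem fin_words (s F : ℕ) : {w : List Stp | WOk s w ∧ wvol w ≤ F}.Finite := by
  obtain ⟨n, hn⟩ : ∃ n, s + 2 * F = n := ⟨_, rfl⟩
  induction n using Nat.strong_induction_on generalizing s F with
  | _ n ih =>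
    have h1 : {w : List Stp | WOk s w ∧ wvol w ≤ F} ⊆ {[]} ∪ ⋃ t ∈ trS s F,
        (List.cons t) '' {w : List Stp | WOk (t.nx s) w ∧ wvol w ≤ F - t.vol} := by
      rintro w ⟨hw1, hw2⟩
      cases w with
      | nil => exact Or.inl rfl
      | cons t w =>
        right
        rw [WOk_cons] at hw1
        rw [wvol_cons] at hw2
        refine Set.mem_biUnion (x := t) ?_ ⟨w, ⟨hw1.2, by omega⟩, rfl⟩
        exact Finset.mem_coe.2 (mem_trS.2 ⟨hw1.1, by omega⟩)
    refine Set.Finite.subset ?_ h1
    refine (Set.finite_singleton _).union ?_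
    refine Set.Finite.biUnion (Finset.finite_toSet (trS s F)) fun t ht => ?_
    refine Set.Finite.image _ ?_
    have h2 := trS_lt (Finset.mem_coe.1 ht)
    exact ih _ (by rw [← hn]; exact h2) _ _ rfl

/-- The words from `s` with at most `F` triangles. -/
noncomputable def Wds (s F : ℕ) : Finset (List Stp) := (fin_words s F).toFinset

theorem mem_Wds {s F : ℕ} {w : List Stp} : w ∈ Wds s F ↔ WOk s w ∧ wvol w ≤ F := by
  unfold Wds
  rw [Set.Finite.mem_toFinset]
  rfl

open Classical in
/-- the words of `A` with first letter `t`, without it -/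
private noncomputable def trT (A : Finset (List Stp)) (t : Stp) : Finset (List Stp) :=
  (A.filter fun w => w.head? = some t).image List.tail

private theorem mem_trT {A : Finset (List Stp)} {t : Stp} {w : List Stp} :
    w ∈ trT A t ↔ t :: w ∈ A := by
  unfold trT
  rw [Finset.mem_image]
  constructor
  · rintro ⟨v, hv, rfl⟩
    rw [Finset.mem_filter] at hv
    cases v with
    | nil => exact absurd hv.2 (by simp)
    | cons a v =>
      have h1 : a = t := by simpa using hv.2
      rw [← h1]
      exact hv.1
  · intro h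
    exact ⟨t :: w, Finset.mem_filter.2 ⟨h, rfl⟩, rfl⟩

private theorem trT_sum (A : Finset (List Stp)) (f : List Stp → ℝ) (hf : ∀ w, 0 ≤ f w) (S : Finset Stp) :
    (if [] ∈ A then f [] else 0) + ∑ t ∈ S, ∑ w ∈ trT A t, f (t :: w) ≤ ∑ w ∈ A, f w := by
  classical
  have h1 : ∀ t ∈ S, ∑ w ∈ trT A t, f (t :: w) = ∑ w ∈ (trT A t).image (List.cons t), f w := by
    intro t _
    rw [Finset.sum_image fun x _ y _ h => (List.cons_injective h)]
  have h2 : (if [] ∈ A then f [] else 0) = ∑ w ∈ A.filter (fun w => w = []), f w := by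
    by_cases h : [] ∈ A
    · rw [if_pos h]
      have h3 : A.filter (fun w => w = []) = {[]} := by
        ext w
        rw [Finset.mem_filter, Finset.mem_singleton]
        exact ⟨fun h4 => h4.2, fun h4 => ⟨by rw [h4]; exact h, h4⟩⟩
      rw [h3, Finset.sum_singleton]
    · rw [if_neg h]
      have h3 : A.filter (fun w => w = []) = ∅ := by
        ext w
        rw [Finset.mem_filter]
        refine ⟨fun h4 => ?_, fun h4 => absurd h4 (Finset.notMem_empty _)⟩
        exact absurd (by rw [← h4.2]; exact h4.1) h
      rw [h3, Finset.sum_empty]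
  rw [h2, Finset.sum_congr rfl h1, ← Finset.sum_biUnion, ← Finset.sum_union]
  · refine Finset.sum_le_sum_of_subset_of_nonneg ?_ fun w _ _ => hf w
    intro w hw
    rw [Finset.mem_union, Finset.mem_filter, Finset.mem_biUnion] at hw
    rcases hw with hw | ⟨t, _, hw⟩
    · exact hw.1
    · obtain ⟨v, hv, rfl⟩ := Finset.mem_image.1 hw
      exact mem_trT.1 hv
  · rw [Finset.disjoint_left]
    intro w hw1 hw2
    rw [Finset.mem_filter] at hw1
    rw [Finset.mem_biUnion] at hw2
    obtain ⟨t, _, hw⟩ := hw2
    obtain ⟨v, hv, h3⟩ := Finset.mem_image.1 hw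
    rw [hw1.2] at h3
    exact absurd h3 (List.cons_ne_nil _ _)
  · intro t _ t' _ htt
    show Disjoint ((trT A t).image (List.cons t)) ((trT A t').image (List.cons t'))
    rw [Finset.disjoint_left]
    intro w hw1 hw2
    obtain ⟨v, hv, rfl⟩ := Finset.mem_image.1 hw1
    obtain ⟨v', hv', h3⟩ := Finset.mem_image.1 hw2
    exact htt (List.cons_eq_cons.1 h3).1.symm

theorem tree_le {Z Φ : ℕ → ℕ → ℝ} (hΦ : ∀ p F, 0 ≤ Φ p F) (hZ : ∀ p F, 0 ≤ Z p F)
    (hs : ∀ p F : ℕ, 1 ≤ p → Φ p F ≤ Z p F + (if F = 0 then 0 else Φ (p + 1) (F - 1)) +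
      2 * (∑ k ∈ Finset.range (p - 2), ∑ a ∈ Finset.range (F + 1), W k a * Φ (p - 2 - k) (F - a)))
    (s F : ℕ) (hs1 : 1 ≤ s) (b : List Stp → Prop) (A I : Finset (List Stp))
    (hA : ∀ w, WOk s w → wvol w ≤ F → b w → (∀ u, u <+: w → u ≠ w → ¬ b u) → w ∈ A)
    (hI : ∀ w, WOk s w → wvol w ≤ F → (∀ u, u <+: w → ¬ b u) → w ∈ I) :
    Φ s F ≤ ∑ w ∈ A, wwt 1 W w * Φ (wend s w) (F - wvol w) +
      ∑ u ∈ I, wwt 1 W u * Z (wend s u) (F - wvol u) := by
  obtain ⟨n, hn⟩ : ∃ n, s + 2 * F = n := ⟨_, rfl⟩
  induction n using Nat.strong_induction_on generalizing s F b A I with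
  | _ n ih =>
    have hw0 : ∀ w : List Stp, 0 ≤ wwt 1 W w := fun w => wwt_nonneg zero_le_one W_nonneg w
    have hA0 : ∀ w : List Stp, 0 ≤ wwt 1 W w * Φ (wend s w) (F - wvol w) :=
      fun w => mul_nonneg (hw0 w) (hΦ _ _)
    have hI0 : ∀ w : List Stp, 0 ≤ wwt 1 W w * Z (wend s w) (F - wvol w) :=
      fun w => mul_nonneg (hw0 w) (hZ _ _)
    by_cases hb : b []
    · have h1 : [] ∈ A := by
        refine hA [] (WOk_nil s) (by rw [wvol_nil]; exact Nat.zero_le _) hb ?_
        intro u hu hne
        exact absurd (List.prefix_nil.1 hu) hne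
      have h2 := Finset.single_le_sum (f := fun w => wwt 1 W w * Φ (wend s w) (F - wvol w))
        (fun w _ => hA0 w) h1
      have h3 : wwt 1 W [] * Φ (wend s []) (F - wvol []) = Φ s F := by
        rw [wwt_nil, wend_nil, wvol_nil, one_mul, Nat.sub_zero]
      have h4 : Φ s F ≤ ∑ w ∈ A, wwt 1 W w * Φ (wend s w) (F - wvol w) := by
        rw [← h3]
        exact h2
      have h5 : 0 ≤ ∑ u ∈ I, wwt 1 W u * Z (wend s u) (F - wvol u) :=
        Finset.sum_nonneg fun w _ => hI0 w
      linarith
    · have hnI : [] ∈ I := by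
        refine hI [] (WOk_nil s) (by rw [wvol_nil]; exact Nat.zero_le _) ?_
        intro u hu
        rw [List.prefix_nil.1 hu]
        exact hb
      have hkey : ∀ t ∈ trS s F, t.wt 1 W * Φ (t.nx s) (F - t.vol) ≤
          ∑ w ∈ trT A t, wwt 1 W (t :: w) * Φ (wend s (t :: w)) (F - wvol (t :: w)) +
          ∑ w ∈ trT I t, wwt 1 W (t :: w) * Z (wend s (t :: w)) (F - wvol (t :: w)) := by
        intro t ht
        obtain ⟨ht1, ht2⟩ := mem_trS.1 ht
        have h1 := ih _ (by rw [← hn]; exact trS_lt ht) (t.nx s) (F - t.vol) (Stp.one_le_nx ht1)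
          (fun w => b (t :: w)) (trT A t) (trT I t) ?_ ?_ rfl
        · have h2 := mul_le_mul_of_nonneg_left h1
            (Stp.wt_nonneg (A := 1) (q := W) zero_le_one W_nonneg t)
          refine h2.trans (le_of_eq ?_)
          rw [mul_add, Finset.mul_sum, Finset.mul_sum]
          congr 1
          · refine Finset.sum_congr rfl fun w _ => ?_
            rw [wwt_cons, wend_cons, wvol_cons, Nat.sub_sub, mul_assoc]
          · refine Finset.sum_congr rfl fun w _ => ?_
            rw [wwt_cons, wend_cons, wvol_cons, Nat.sub_sub, mul_assoc]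
        · intro w hw1 hw2 hw3 hw4
          refine mem_trT.2 (hA (t :: w) ⟨ht1, hw1⟩ ?_ hw3 ?_)
          · rw [wvol_cons]
            omega
          · intro u hu hne
            cases u with
            | nil => exact hb
            | cons t' u =>
              obtain ⟨h2, h3⟩ := List.cons_prefix_cons.1 hu
              rw [h2]
              refine hw4 u h3 ?_
              intro h4
              exact hne (by rw [h2, h4])
        · intro w hw1 hw2 hw4
          refine mem_trT.2 (hI (t :: w) ⟨ht1, hw1⟩ ?_ ?_)
          · rw [wvol_cons]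
            omega
          · intro u hu
            cases u with
            | nil => exact hb
            | cons t' u =>
              obtain ⟨h2, h3⟩ := List.cons_prefix_cons.1 hu
              rw [h2]
              exact hw4 u h3
      have h1 := Finset.sum_le_sum hkey
      rw [Finset.sum_add_distrib, trS_sum] at h1
      have h2 := trT_sum A (fun w => wwt 1 W w * Φ (wend s w) (F - wvol w)) hA0 (trS s F)
      have h3 := trT_sum I (fun w => wwt 1 W w * Z (wend s w) (F - wvol w)) hI0 (trS s F)
      have h4 : (if [] ∈ I then (fun w => wwt 1 W w * Z (wend s w) (F - wvol w)) [] else 0) =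
          Z s F := by
        rw [if_pos hnI]
        show wwt 1 W [] * Z (wend s []) (F - wvol []) = Z s F
        rw [wwt_nil, wend_nil, wvol_nil, one_mul, Nat.sub_zero]
      rw [h4] at h3
      have h5 : 0 ≤ (if [] ∈ A then (fun w => wwt 1 W w * Φ (wend s w) (F - wvol w)) [] else 0) := by
        split_ifs
        · exact hA0 _
        · exact le_rfl
      have h6 := hs s F hs1
      linarith

end SYS.Num
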